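import Pool.Agent.Helper96.GJ.Defs

/-!
# UNI: knot diagrams with a state and their cut matrix
-/

set_option autoImplicit false

namespace Pool.Agent.GaussJones

variable {n : ℕ}

/-- The diagram has shadow `g` and crossing signs `e`, and `σ` is one of its states: `σ i = true` is
the smoothing of type `A` and `σ i = false` that of type `B`, so that `σ` respects the orientation at
the crossing `i` if and only if `σ i = e i`.  The pairs at which the cut matrix of the state is `1` are
the pairs of interlaced crossings, and the pairs `(i, i)` for the crossings `i` at which `σ` does not
respect the orientation. -/
def Cut (g : Code n) (e σ : Fin n → Bool) (i j : Fin n) : Prop :=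
  Interlaced g i j ∨ (i = j ∧ σ i ≠ e i)

end Pool.Agent.GaussJones
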