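import Pool.Agent.Helper16.Knotoid.Defs

/-!
# UNI: knotoid diagrams with a state and their cut matrix
-/

set_option autoImplicit false

namespace Pool.Agent.Helper16.Knotoid.GaussDiagram

variable {n : ℕ} (D : GaussDiagram n)

/-- The passage `p` is strictly between the two passages of the crossing `c`. -/
def Inside (c : Fin n) (p : Fin (2 * n)) : Prop :=
  (D.overPass c < p ∧ p < D.underPass c) ∨ (D.underPass c < p ∧ p < D.overPass c)

/-- The crossings `c` and `d` are interlaced: exactly one of the two passages of `d` is strictly
between the two passages of `c`. -/
def Interlaced (c d : Fin n) : Prop :=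
  ¬ (D.Inside c (D.overPass d) ↔ D.Inside c (D.underPass d))

/-- The pairs at which the cut matrix of the state `σ` is `1`: the interlaced pairs, and the pairs
`(c, c)` for the crossings `c` at which the smoothing of `σ` does not respect the orientation. -/
def Cut (σ : Fin n → Bool) (c d : Fin n) : Prop :=
  D.Interlaced c d ∨ (c = d ∧ σ c ≠ D.sign c)

end Pool.Agent.Helper16.Knotoid.GaussDiagram
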