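import Mathlib

/-!
# UNI: uniform twists.  The interface between the algebra and the diagrams

See /team-store/UNI_paper.md (helper63) and /team-store/UNIK_helper39.md (helper39).

`V` is a finite dimensional vector space over the field with two elements, `β` a symmetric bilinear
form on `V` (not necessarily alternating or nondegenerate).  For a subspace `Y` of `V` put
`wt β z Y = z ^ (codim Y - dim rad (β | Y))`.
-/

set_option autoImplicit false

open Module

namespace Pool.Agent.UNI

section

variable {V : Type} [AddCommGroup V] [Module (ZMod 2) V]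

/-- the radical of the restriction of the form `β` to the subspace `Y` -/
def rad (β : V →ₗ[ZMod 2] V →ₗ[ZMod 2] ZMod 2) (Y : Submodule (ZMod 2) V) :
    Submodule (ZMod 2) V where
  carrier := {y | y ∈ Y ∧ ∀ y' ∈ Y, β y' y = 0}
  add_mem' := fun {a b} ha hb => ⟨Y.add_mem ha.1 hb.1, fun y' hy' => by
    rw [map_add, ha.2 y' hy', hb.2 y' hy', add_zero]⟩
  zero_mem' := ⟨Y.zero_mem, fun y' _ => map_zero _⟩
  smul_mem' := fun c a ha => ⟨Y.smul_mem c ha.1, fun y' hy' => by
    rw [map_smul, ha.2 y' hy', smul_zero]⟩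

/-- the common kernel of the functionals in `U` -/
def ck (U : Finset (Dual (ZMod 2) V)) : Submodule (ZMod 2) V where
  carrier := {y | ∀ u ∈ U, u y = 0}
  add_mem' := fun {a b} ha hb u hu => by rw [map_add, ha u hu, hb u hu, add_zero]
  zero_mem' := fun u _ => map_zero u
  smul_mem' := fun c a ha u hu => by rw [map_smul, ha u hu, smul_zero]

/-- the weight of a subspace -/
noncomputable def wt (β : V →ₗ[ZMod 2] V →ₗ[ZMod 2] ZMod 2) (z : ℝ)
    (Y : Submodule (ZMod 2) V) : ℝ :=
  z ^ ((finrank (ZMod 2) V : ℤ) - finrank (ZMod 2) Y - finrank (ZMod 2) (rad β Y))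

end

/-- **UA** (the algebraic part of Theorem U).  `X` is a set of distinct nonzero functionals which
spans the dual space, `x ≥ 1 + 1/√2`, `z = -√x`. -/
def St_UA : Prop :=
  ∀ (V : Type) [AddCommGroup V] [Module (ZMod 2) V] [Module.Finite (ZMod 2) V]
    (β : V →ₗ[ZMod 2] V →ₗ[ZMod 2] ZMod 2), (∀ a b, β a b = β b a) →
    ∀ X : Finset (Dual (ZMod 2) V), (0 : Dual (ZMod 2) V) ∉ X → ck X = ⊥ →
      0 < finrank (ZMod 2) V → ∀ x : ℝ, 1 + 1 / Real.sqrt 2 ≤ x →
      Real.sqrt 2 ≤ |∑ U ∈ X.powerset, (-2) ^ U.card * wt β (-Real.sqrt x) (ck U)|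

end Pool.Agent.UNI
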