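import Mathlib
import Pool.Agent.UNI.Defs

/-!
# UNI, module Cor: coranks in terms of the form on the image of the matrix
-/

set_option autoImplicit false
set_option linter.unusedSectionVars false

open Module Matrix

namespace Pool.Agent.UNI

section cor

variable {E : Type} [Fintype E] [DecidableEq E]

/-- separation by the dot product -/
private theorem Cor_sep (A : Submodule (ZMod 2) (E → ZMod 2)) (v : E → ZMod 2) (hv : v ∉ A) :
    ∃ y : E → ZMod 2, (∀ a ∈ A, y ⬝ᵥ a = 0) ∧ y ⬝ᵥ v ≠ 0 := by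
  obtain ⟨f, hf, hA⟩ := Submodule.exists_dual_map_eq_bot_of_notMem hv inferInstance
  have h1 : ∀ a, (fun c => f (fun j => if c = j then 1 else 0)) ⬝ᵥ a = f a := by
    intro a
    rw [LinearMap.pi_apply_eq_sum_univ f a]
    unfold dotProduct
    exact Finset.sum_congr rfl fun c _ => mul_comm _ _
  refine ⟨fun c => f (fun j => if c = j then 1 else 0), fun a ha => ?_, ?_⟩
  · rw [h1]
    have h2 : f a ∈ A.map f := ⟨a, ha, rfl⟩
    rw [hA] at h2
    exact h2
  · rw [h1]
    exact hf

variable (M : Matrix E E (ZMod 2))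

/-- the image of the matrix -/
abbrev Im : Submodule (ZMod 2) (E → ZMod 2) := LinearMap.range M.mulVecLin

variable {M}

private theorem Cor_symm (hM : ∀ i j, M i j = M j i) (a b : E → ZMod 2) :
    (M *ᵥ a) ⬝ᵥ b = a ⬝ᵥ (M *ᵥ b) := by
  have h1 : Mᵀ = M := by
    ext i j
    exact hM j i
  rw [Matrix.dotProduct_mulVec, ← Matrix.mulVec_transpose, h1]

/-- vectors orthogonal to the kernel lie in the image -/
private theorem Cor_im (hM : ∀ i j, M i j = M j i) (y : E → ZMod 2)
    (hy : ∀ k, M *ᵥ k = 0 → y ⬝ᵥ k = 0) : y ∈ Im M := by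
  by_contra h
  obtain ⟨k, hk, hky⟩ := Cor_sep _ _ h
  apply hky
  rw [dotProduct_comm]
  apply hy
  funext c
  have h1 := hk (M *ᵥ Pi.single c 1) ⟨_, rfl⟩
  rw [← Cor_symm hM, dotProduct_single_one] at h1
  exact h1

/-- a linear section of the matrix on its image -/
theorem exists_sec (M : Matrix E E (ZMod 2)) :
    ∃ s : Im M →ₗ[ZMod 2] (E → ZMod 2), ∀ y : Im M, M *ᵥ s y = y := by
  obtain ⟨s, hs⟩ := M.mulVecLin.rangeRestrict.exists_rightInverse_of_surjective
    (LinearMap.range_rangeRestrict _)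
  refine ⟨s, fun y => ?_⟩
  have h1 := congrArg (fun f => ((f y : Im M) : E → ZMod 2)) hs
  exact h1

/-- a linear section of the matrix on its image -/
noncomputable def sec (M : Matrix E E (ZMod 2)) : Im M →ₗ[ZMod 2] (E → ZMod 2) :=
  (exists_sec M).choose

theorem mul_sec (y : Im M) : M *ᵥ sec M y = y := (exists_sec M).choose_spec y

/-- the form `⟨M x, (M + 1) x'⟩` on the image of the matrix -/
noncomputable def fo (M : Matrix E E (ZMod 2)) : Im M →ₗ[ZMod 2] Im M →ₗ[ZMod 2] ZMod 2 :=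
  LinearMap.mk₂ (ZMod 2) (fun y y' => (y : E → ZMod 2) ⬝ᵥ ((y' : E → ZMod 2) + sec M y'))
    (fun a b c => by
      show ((a : E → ZMod 2) + (b : E → ZMod 2)) ⬝ᵥ _ = _
      rw [add_dotProduct])
    (fun r a c => by
      show (r • (a : E → ZMod 2)) ⬝ᵥ _ = _
      rw [smul_dotProduct])
    (fun a b c => by
      show (a : E → ZMod 2) ⬝ᵥ (((b : E → ZMod 2) + (c : E → ZMod 2)) + sec M (b + c)) = _
      rw [map_add, add_add_add_comm, dotProduct_add])
    (fun r a c => by
      show (a : E → ZMod 2) ⬝ᵥ ((r • (c : E → ZMod 2)) + sec M (r • c)) = _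
      rw [map_smul, ← smul_add, dotProduct_smul])

theorem fo_apply (y y' : Im M) :
    fo M y y' = (y : E → ZMod 2) ⬝ᵥ ((y' : E → ZMod 2) + sec M y') := rfl

/-- the form in terms of a preimage -/
theorem fo_eq (hM : ∀ i j, M i j = M j i) (y y' : Im M) (x : E → ZMod 2)
    (hx : M *ᵥ x = y') : fo M y y' = (y : E → ZMod 2) ⬝ᵥ ((y' : E → ZMod 2) + x) := by
  rw [fo_apply, dotProduct_add, dotProduct_add]
  congr 1
  have h1 : ∀ z : E → ZMod 2, (y : E → ZMod 2) ⬝ᵥ z = sec M y ⬝ᵥ (M *ᵥ z) := by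
    intro z
    rw [← Cor_symm hM, mul_sec]
  rw [h1, h1, mul_sec, hx]

theorem fo_symm (hM : ∀ i j, M i j = M j i) (y y' : Im M) : fo M y y' = fo M y' y := by
  rw [fo_apply, fo_apply, dotProduct_add, dotProduct_add, dotProduct_comm (y' : E → ZMod 2)]
  congr 1
  have h1 : (y : E → ZMod 2) ⬝ᵥ sec M y' = sec M y ⬝ᵥ (M *ᵥ sec M y') := by
    rw [← Cor_symm hM, mul_sec]
  rw [h1, mul_sec, dotProduct_comm]

/-- the coordinate functionals -/
noncomputable def co (M : Matrix E E (ZMod 2)) (c : E) : Dual (ZMod 2) (Im M) :=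
  (LinearMap.proj c).comp (Im M).subtype

theorem co_apply (c : E) (y : Im M) : co M c y = (y : E → ZMod 2) c := rfl

theorem mem_ck (W : Finset E) (y : Im M) :
    y ∈ ck (W.image (co M)) ↔ ∀ c ∈ W, (y : E → ZMod 2) c = 0 := by
  constructor
  · intro h c hc
    exact h _ (Finset.mem_image_of_mem _ hc)
  · intro h u hu
    obtain ⟨c, hc, rfl⟩ := Finset.mem_image.1 hu
    exact h c hc

/-- the matrix with ones added on the diagonal off `W` -/
def MW (M : Matrix E E (ZMod 2)) (W : Finset E) : Matrix E E (ZMod 2) :=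
  M + Matrix.diagonal fun c => if c ∈ W then 0 else 1

theorem mem_ker_MW (W : Finset E) (x : E → ZMod 2) :
    x ∈ LinearMap.ker (MW M W).mulVecLin ↔
      ∀ c, (M *ᵥ x) c + (if c ∈ W then 0 else x c) = 0 := by
  rw [LinearMap.mem_ker, Matrix.mulVecLin_apply, funext_iff]
  refine forall_congr' fun c => ?_
  unfold MW
  rw [Matrix.add_mulVec, Pi.add_apply, Matrix.mulVec_diagonal, ite_mul, zero_mul, one_mul]
  rfl

/-- vectors supported in `W` -/
def spt (W : Finset E) : Submodule (ZMod 2) (E → ZMod 2) where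
  carrier := {a | ∀ c ∉ W, a c = 0}
  add_mem' := fun {a b} ha hb c hc => by rw [Pi.add_apply, ha c hc, hb c hc, add_zero]
  zero_mem' := fun _ _ => rfl
  smul_mem' := fun r a ha c hc => by rw [Pi.smul_apply, ha c hc, smul_zero]

private theorem Cor_rad (hM : ∀ i j, M i j = M j i) (W : Finset E) (y : Im M) :
    y ∈ rad (fo M) (ck (W.image (co M))) ↔
      ∃ x ∈ LinearMap.ker (MW M W).mulVecLin, M *ᵥ x = y := by
  constructor
  · rintro ⟨h1, h2⟩
    rw [mem_ck] at h1
    have h3 : (y : E → ZMod 2) + sec M y ∈ LinearMap.ker M.mulVecLin ⊔ spt W := by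
      by_contra h
      obtain ⟨y', h4, h5⟩ := Cor_sep _ _ h
      have h6 : y' ∈ Im M := Cor_im hM y' fun k hk =>
        h4 k (Submodule.mem_sup_left (LinearMap.mem_ker.2 hk))
      have h7 : (⟨y', h6⟩ : Im M) ∈ ck (W.image (co M)) := by
        rw [mem_ck]
        intro c hc
        have h8 := h4 (Pi.single c 1) (Submodule.mem_sup_right (by
          intro c' hc'
          rw [Pi.single_eq_of_ne]
          rintro rfl
          exact hc' hc))
        rw [dotProduct_single_one] at h8
        exact h8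
      exact h5 (h2 _ h7)
    obtain ⟨k, hk, a, ha, hka⟩ := Submodule.mem_sup.1 h3
    refine ⟨sec M y + k, ?_, ?_⟩
    · rw [mem_ker_MW]
      intro c
      have hk' : M *ᵥ k = 0 := hk
      rw [Matrix.mulVec_add, hk', add_zero, mul_sec]
      by_cases hc : c ∈ W
      · rw [if_pos hc, add_zero, h1 c hc]
      · rw [if_neg hc]
        have h9 := congrFun hka c
        rw [Pi.add_apply, ha c hc, add_zero, Pi.add_apply] at h9
        rw [Pi.add_apply, ← add_assoc, ← h9, CharTwo.add_self_eq_zero]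
    · have hk' : M *ᵥ k = 0 := hk
      rw [Matrix.mulVec_add, hk', add_zero, mul_sec]
  · rintro ⟨x, hx, hxy⟩
    rw [mem_ker_MW] at hx
    refine ⟨?_, fun y' hy' => ?_⟩
    · rw [mem_ck]
      intro c hc
      have h1 := hx c
      rw [if_pos hc, add_zero, hxy] at h1
      exact h1
    · rw [mem_ck] at hy'
      rw [fo_eq hM y' y x hxy]
      refine Finset.sum_eq_zero fun c _ => ?_
      by_cases hc : c ∈ W
      · rw [hy' c hc, zero_mul]
      · have h1 := hx c
        rw [if_neg hc, hxy] at h1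
        rw [Pi.add_apply, h1, mul_zero]

/-- extension by zero -/
private def Cor_ext (W : Finset E) : ({x // x ∈ W} → ZMod 2) →ₗ[ZMod 2] (E → ZMod 2) where
  toFun := fun a c => if h : c ∈ W then a ⟨c, h⟩ else 0
  map_add' := by
    intro a b
    funext c
    rw [Pi.add_apply]
    split_ifs
    · rfl
    · rw [add_zero]
  map_smul' := by
    intro r a
    funext c
    rw [Pi.smul_apply]
    split_ifs
    · rfl
    · rw [smul_zero]

private theorem Cor_ext_in (W : Finset E) (a : {x // x ∈ W} → ZMod 2) (c : {x // x ∈ W}) :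
    Cor_ext W a c = a c := dif_pos c.2

private theorem Cor_ext_inj (W : Finset E) : Function.Injective (Cor_ext W) := by
  intro a b h
  funext c
  rw [← Cor_ext_in W a, ← Cor_ext_in W b, h]

private theorem Cor_mul_ext (hM : ∀ i j, M i j = M j i) (W : Finset E)
    (a : {x // x ∈ W} → ZMod 2) : M *ᵥ Cor_ext W a =
      (M.submatrix (Subtype.val : {x // x ∈ W} → E) (id : E → E))ᵀ *ᵥ a := by
  funext e
  show ∑ c, M e c * Cor_ext W a c = ∑ c : {x // x ∈ W}, M c e * a c
  have h1 : ∑ c, M e c * Cor_ext W a c = ∑ c ∈ W, M e c * Cor_ext W a c := by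
    refine (Finset.sum_subset (Finset.subset_univ W) fun c _ hc => ?_).symm
    have h2 : Cor_ext W a c = 0 := dif_neg hc
    rw [h2, mul_zero]
  rw [h1, ← Finset.sum_coe_sort W fun c => M e c * Cor_ext W a c]
  refine Finset.sum_congr rfl fun c _ => ?_
  rw [Cor_ext_in, hM e c]

private theorem Cor_ck (hM : ∀ i j, M i j = M j i) (W : Finset E) :
    finrank (ZMod 2) (LinearMap.ker M.mulVecLin ⊓ spt W : Submodule (ZMod 2) (E → ZMod 2)) +
      finrank (ZMod 2) (Im M) = W.card + finrank (ZMod 2) (ck (W.image (co M))) := by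
  obtain ⟨N, hN⟩ : ∃ N, N = M.submatrix (Subtype.val : {x // x ∈ W} → E) (id : E → E) :=
    ⟨_, rfl⟩
  -- the restriction
  obtain ⟨ρ, hρ⟩ : ∃ ρ : Im M →ₗ[ZMod 2] ({x // x ∈ W} → ZMod 2),
      ∀ y c, ρ y c = (y : E → ZMod 2) c :=
    ⟨LinearMap.pi fun c => (LinearMap.proj (c : E)).comp (Im M).subtype, fun _ _ => rfl⟩
  have h1 := LinearMap.finrank_range_add_finrank_ker ρ
  have h2 : LinearMap.ker ρ = ck (W.image (co M)) := by
    ext y
    rw [LinearMap.mem_ker, mem_ck]
    constructor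
    · intro h c hc
      rw [← hρ y ⟨c, hc⟩, h]
      rfl
    · intro h
      funext c
      rw [hρ]
      exact h c c.2
  have h3 : LinearMap.range ρ = LinearMap.range N.mulVecLin := by
    ext v
    constructor
    · rintro ⟨⟨_, x, rfl⟩, rfl⟩
      refine ⟨x, ?_⟩
      funext c
      rw [hρ, hN]
      rfl
    · rintro ⟨x, rfl⟩
      refine ⟨⟨M.mulVecLin x, x, rfl⟩, ?_⟩
      funext c
      rw [hρ, hN]
      rfl
  have h4 := LinearMap.finrank_range_add_finrank_ker Nᵀ.mulVecLin
  have h5 : finrank (ZMod 2) (LinearMap.range Nᵀ.mulVecLin) =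
      finrank (ZMod 2) (LinearMap.range N.mulVecLin) := Matrix.rank_transpose N
  have h6 : (LinearMap.ker Nᵀ.mulVecLin).map (Cor_ext W) =
      LinearMap.ker M.mulVecLin ⊓ spt W := by
    ext x
    constructor
    · rintro ⟨a, ha, rfl⟩
      refine ⟨?_, fun c hc => dif_neg hc⟩
      show M *ᵥ Cor_ext W a = 0
      rw [Cor_mul_ext hM, ← hN]
      exact ha
    · rintro ⟨hx1, hx2⟩
      have h7 : Cor_ext W (fun c => x c) = x := by
        funext c
        by_cases hc : c ∈ W
        · exact dif_pos hc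
        · rw [hx2 c hc]
          exact dif_neg hc
      refine ⟨fun c => x c, ?_, h7⟩
      show Nᵀ *ᵥ _ = 0
      rw [hN, ← Cor_mul_ext hM, h7]
      exact hx1
  have h7 := (Submodule.equivMapOfInjective (Cor_ext W) (Cor_ext_inj W)
    (LinearMap.ker Nᵀ.mulVecLin)).finrank_eq
  rw [h6] at h7
  rw [finrank_fintype_fun_eq_card, Fintype.card_coe] at h4
  rw [h2, h3] at h1
  omega

/-- **Corank formula** -/
theorem finrank_ker_MW (hM : ∀ i j, M i j = M j i) (W : Finset E) :
    finrank (ZMod 2) (LinearMap.ker (MW M W).mulVecLin) + finrank (ZMod 2) (Im M) =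
      W.card + finrank (ZMod 2) (ck (W.image (co M))) +
        finrank (ZMod 2) (rad (fo M) (ck (W.image (co M)))) := by
  obtain ⟨f, hf⟩ : ∃ f : LinearMap.ker (MW M W).mulVecLin →ₗ[ZMod 2] Im M,
      ∀ x, ((f x : Im M) : E → ZMod 2) = M *ᵥ (x : E → ZMod 2) :=
    ⟨M.mulVecLin.rangeRestrict.comp (LinearMap.ker (MW M W).mulVecLin).subtype, fun _ => rfl⟩
  have h1 := LinearMap.finrank_range_add_finrank_ker f
  have h2 : LinearMap.range f = rad (fo M) (ck (W.image (co M))) := by
    ext y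
    rw [Cor_rad hM]
    constructor
    · rintro ⟨x, rfl⟩
      exact ⟨x, x.2, (hf x).symm⟩
    · rintro ⟨x, hx, hxy⟩
      exact ⟨⟨x, hx⟩, Subtype.ext ((hf _).trans hxy)⟩
  have h3 : (LinearMap.ker f).map (LinearMap.ker (MW M W).mulVecLin).subtype =
      LinearMap.ker M.mulVecLin ⊓ spt W := by
    ext x
    constructor
    · rintro ⟨x, hx, rfl⟩
      have h4 : M *ᵥ (x : E → ZMod 2) = 0 := by
        rw [← hf, LinearMap.mem_ker.1 hx]
        rfl
      refine ⟨h4, fun c hc => ?_⟩
      have h5 := (mem_ker_MW W _).1 x.2 c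
      rw [h4, if_neg hc, Pi.zero_apply, zero_add] at h5
      exact h5
    · rintro ⟨hx1, hx2⟩
      have hx1' : M *ᵥ x = 0 := hx1
      have h4 : x ∈ LinearMap.ker (MW M W).mulVecLin := by
        rw [mem_ker_MW]
        intro c
        rw [hx1', Pi.zero_apply, zero_add]
        by_cases hc : c ∈ W
        · rw [if_pos hc]
        · rw [if_neg hc, hx2 c hc]
      refine ⟨⟨x, h4⟩, ?_, rfl⟩
      apply LinearMap.mem_ker.2
      apply Subtype.ext
      rw [hf]
      exact hx1'
  have h4 := (Submodule.equivMapOfInjective (LinearMap.ker (MW M W).mulVecLin).subtype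
    (Submodule.subtype_injective _) (LinearMap.ker f)).finrank_eq
  rw [h3] at h4
  rw [h2] at h1
  have h5 := Cor_ck hM W
  omega

end cor

end Pool.Agent.UNI
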