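import Mathlib

/-!
# UNI, module Mer: merging of equal idempotents
-/

set_option autoImplicit false

namespace Pool.Agent.UNI

/-- the product of the weights over a class, minus one -/
noncomputable def cw {E κ : Type} [DecidableEq κ] (cls : E → κ) (w : E → ℂ) (s : Finset E) (k : κ) :
    ℂ := (∏ c ∈ s.filter (fun c => cls c = k), w c) - 1

private theorem Mer_ne {E κ : Type} [DecidableEq E] [DecidableEq κ] (cls : E → κ) (w : E → ℂ)
    (s : Finset E) (a : E) (k : κ) (hk : k ≠ cls a) :
    cw cls w (insert a s) k = cw cls w s k := by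
  unfold cw
  rw [Finset.filter_insert, if_neg fun h => hk h.symm]

private theorem Mer_eq {E κ : Type} [DecidableEq E] [DecidableEq κ] (cls : E → κ) (w : E → ℂ)
    (s : Finset E) (a : E) (ha : a ∉ s) :
    cw cls w (insert a s) (cls a) = w a * (cw cls w s (cls a) + 1) - 1 := by
  unfold cw
  rw [Finset.filter_insert, if_pos rfl, Finset.prod_insert fun h => ha (Finset.mem_filter.1 h).1]
  ring

private theorem Mer_prod {E κ : Type} [DecidableEq E] [DecidableEq κ] (cls : E → κ) (w : E → ℂ)
    (s : Finset E) (a : E) (U : Finset κ) (hU : cls a ∉ U) :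
    ∏ k ∈ U, cw cls w (insert a s) k = ∏ k ∈ U, cw cls w s k :=
  Finset.prod_congr rfl fun k hk => Mer_ne cls w s a k fun h => hU (h ▸ hk)

theorem merge {E κ : Type} [DecidableEq E] [DecidableEq κ] (cls : E → κ) (w : E → ℂ)
    (s : Finset E) : ∀ f : Finset κ → ℂ,
      ∑ W ∈ s.powerset, (∏ c ∈ W, (w c - 1)) * f (W.image cls) =
        ∑ U ∈ (s.image cls).powerset, (∏ k ∈ U, cw cls w s k) * f U := by
  induction s using Finset.induction_on with
  | empty =>
    intro f
    simp
  | insert a s ha ih =>
    intro f
    rw [Finset.sum_powerset_insert ha]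
    have h1 : ∑ W ∈ s.powerset, (∏ c ∈ insert a W, (w c - 1)) * f ((insert a W).image cls) =
        (w a - 1) * ∑ W ∈ s.powerset, (∏ c ∈ W, (w c - 1)) *
          (fun V => f (insert (cls a) V)) (W.image cls) := by
      rw [Finset.mul_sum]
      refine Finset.sum_congr rfl fun W hW => ?_
      rw [Finset.prod_insert fun h => ha (Finset.mem_powerset.1 hW h), Finset.image_insert,
        mul_assoc]
    rw [h1, ih f, ih fun V => f (insert (cls a) V), Finset.image_insert]
    by_cases hk : cls a ∈ s.image cls
    · rw [Finset.insert_eq_of_mem hk]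
      obtain ⟨R, hR, hR'⟩ : ∃ R, cls a ∉ R ∧ s.image cls = insert (cls a) R :=
        ⟨(s.image cls).erase (cls a), Finset.notMem_erase _ _, (Finset.insert_erase hk).symm⟩
      rw [hR', Finset.sum_powerset_insert hR, Finset.sum_powerset_insert hR,
        Finset.sum_powerset_insert hR, mul_add, Finset.mul_sum, Finset.mul_sum,
        ← Finset.sum_add_distrib, ← Finset.sum_add_distrib, ← Finset.sum_add_distrib,
        ← Finset.sum_add_distrib]
      refine Finset.sum_congr rfl fun U hU => ?_
      have hU' : cls a ∉ U := fun h => hR (Finset.mem_powerset.1 hU h)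
      rw [Finset.prod_insert hU', Finset.prod_insert hU', Mer_prod cls w s a U hU',
        Mer_eq cls w s a ha, Finset.insert_idem]
      ring
    · rw [Finset.sum_powerset_insert hk, Finset.mul_sum, ← Finset.sum_add_distrib,
        ← Finset.sum_add_distrib]
      refine Finset.sum_congr rfl fun U hU => ?_
      have hU' : cls a ∉ U := fun h => hk (Finset.mem_powerset.1 hU h)
      have h2 : cw cls w s (cls a) = 0 := by
        unfold cw
        rw [Finset.filter_eq_empty_iff.2 fun c hc h => hk (Finset.mem_image.2 ⟨c, hc, h⟩),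
          Finset.prod_empty, sub_self]
      rw [Finset.prod_insert hU', Mer_prod cls w s a U hU', Mer_eq cls w s a ha, h2]
      ring

end Pool.Agent.UNI
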