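import Mathlib

/-!
# UNI, module Num: the value of the variable
-/

set_option autoImplicit false

open Complex

namespace Pool.Agent.UNI

/-- the value of the variable `A` -/
noncomputable def An (n : ℕ) : ℂ := Complex.exp (((Real.pi / 4 - Real.pi / (4 * n) : ℝ) : ℂ) * I)

/-- `2 sin (π / 2n)` -/
noncomputable def rn (n : ℕ) : ℝ := 2 * Real.sin (Real.pi / (2 * n))

/-- `exp (i π / n)` -/
noncomputable def yn (n : ℕ) : ℂ := Complex.exp (((Real.pi / n : ℝ) : ℂ) * I)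

theorem An_ne (n : ℕ) : An n ≠ 0 := Complex.exp_ne_zero _

theorem An_norm (n : ℕ) : ‖An n‖ = 1 := Complex.norm_exp_ofReal_mul_I _

theorem yn_ne (n : ℕ) : yn n ≠ 0 := Complex.exp_ne_zero _

theorem An_two (n : ℕ) : An n ^ 2 =
    Complex.exp (((Real.pi / 2 - Real.pi / (2 * n) : ℝ) : ℂ) * I) := by
  unfold An
  rw [← Complex.exp_nat_mul]
  congr 1
  push_cast
  ring

theorem An_d (n : ℕ) : -(An n) ^ 2 - ((An n)⁻¹) ^ 2 = ((-rn n : ℝ) : ℂ) := by
  have h1 : ((An n)⁻¹) ^ 2 =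
      Complex.exp (-(((Real.pi / 2 - Real.pi / (2 * n) : ℝ) : ℂ) * I)) := by
    rw [inv_pow, An_two, Complex.exp_neg]
  rw [h1, An_two]
  have h2 := Complex.two_cos (((Real.pi / 2 - Real.pi / (2 * n) : ℝ) : ℂ))
  rw [neg_mul] at h2
  rw [← neg_add', ← h2, ← Complex.ofReal_cos, Real.cos_pi_div_two_sub]
  unfold rn
  push_cast
  ring

theorem yn_eq (n : ℕ) (hn : n ≠ 0) : yn n = -((An n)⁻¹) ^ 4 := by
  have hn' : (n : ℂ) ≠ 0 := by exact_mod_cast hn
  have h1 : ((An n)⁻¹) ^ 4 = Complex.exp (((Real.pi / n : ℝ) : ℂ) * I - Real.pi * I) := by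
    have h2 : ((An n)⁻¹) ^ 4 = ((An n ^ 2) ^ 2)⁻¹ := by
      rw [inv_pow, ← pow_mul]
    rw [h2, An_two, ← Complex.exp_nat_mul, ← Complex.exp_neg]
    congr 1
    push_cast
    field_simp
    ring
  rw [h1, Complex.exp_sub, Complex.exp_pi_mul_I]
  unfold yn
  rw [div_neg, div_one, neg_neg]

theorem yn_pow (n : ℕ) (hn : n ≠ 0) : yn n ^ n = -1 := by
  have hn' : (n : ℂ) ≠ 0 := by exact_mod_cast hn
  unfold yn
  rw [← Complex.exp_nat_mul, ← Complex.exp_pi_mul_I]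
  congr 1
  push_cast
  field_simp

theorem rn_pos (n : ℕ) (hn : 4 ≤ n) : 0 < rn n := by
  unfold rn
  have hn' : (4 : ℝ) ≤ n := by exact_mod_cast hn
  have h1 : 0 < Real.sin (Real.pi / (2 * n)) := by
    apply Real.sin_pos_of_pos_of_lt_pi
    · positivity
    · rw [div_lt_iff₀ (by positivity)]
      nlinarith [Real.pi_pos]
  linarith

theorem rn_sq (n : ℕ) (hn : 4 ≤ n) : rn n ^ 2 ≤ 2 - Real.sqrt 2 := by
  have hn' : (4 : ℝ) ≤ n := by exact_mod_cast hn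
  have h0 := rn_pos n hn
  have h1 : rn n ≤ Real.sqrt (2 - Real.sqrt 2) := by
    have h2 : Real.sin (Real.pi / (2 * n)) ≤ Real.sin (Real.pi / 8) := by
      apply Real.sin_le_sin_of_le_of_le_pi_div_two
      · have : 0 ≤ Real.pi / (2 * n) := by positivity
        linarith [Real.pi_pos]
      · linarith [Real.pi_pos]
      · apply div_le_div_of_nonneg_left Real.pi_pos.le (by norm_num)
        linarith
    rw [Real.sin_pi_div_eight] at h2
    unfold rn
    linarith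
  have h3 : 0 ≤ 2 - Real.sqrt 2 := by
    have : Real.sqrt 2 ≤ 2 := by
      rw [Real.sqrt_le_left (by norm_num)]
      norm_num
    linarith
  calc rn n ^ 2 ≤ Real.sqrt (2 - Real.sqrt 2) ^ 2 := pow_le_pow_left₀ h0.le h1 2
    _ = 2 - Real.sqrt 2 := Real.sq_sqrt h3

theorem rn_x (n : ℕ) (hn : 4 ≤ n) : 1 + 1 / Real.sqrt 2 ≤ 1 / rn n ^ 2 := by
  have h0 := rn_pos n hn
  have h1 := rn_sq n hn
  have h2 : 0 < Real.sqrt 2 := by positivity
  have h3 : Real.sqrt 2 ^ 2 = 2 := Real.sq_sqrt (by norm_num)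
  rw [le_div_iff₀ (by positivity)]
  have h4 : (1 + 1 / Real.sqrt 2) * (2 - Real.sqrt 2) = 1 := by
    field_simp
    nlinarith
  calc (1 + 1 / Real.sqrt 2) * rn n ^ 2 ≤ (1 + 1 / Real.sqrt 2) * (2 - Real.sqrt 2) :=
        mul_le_mul_of_nonneg_left h1 (by positivity)
    _ = 1 := h4

theorem rn_z (n : ℕ) (hn : 4 ≤ n) : -Real.sqrt (1 / rn n ^ 2) = (-rn n)⁻¹ := by
  have h0 := rn_pos n hn
  rw [Real.sqrt_div zero_le_one, Real.sqrt_one, Real.sqrt_sq h0.le, inv_neg, one_div]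

end Pool.Agent.UNI
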