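import Mathlib
import Pool.Agent.UNI.Cor
import Pool.Agent.UNI.Mer
import Pool.Agent.UNI.Num

/-!
# UNI, module Abs: the state sum of a symmetric matrix
-/

set_option autoImplicit false
set_option linter.unusedSectionVars false

open Module Matrix

namespace Pool.Agent.UNI

section

variable {E : Type} [Fintype E] [DecidableEq E]

/-- the matrix of the state `s`, if `M` is the matrix of the state `σ` -/
def SM (M : Matrix E E (ZMod 2)) (σ s : E → Bool) : Matrix E E (ZMod 2) :=
  M + Matrix.diagonal fun c => if s c = σ c then 0 else 1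

/-- the state which agrees with `σ` exactly on `W` -/
def st (σ : E → Bool) (W : Finset E) : E → Bool := fun c => if c ∈ W then σ c else !σ c

theorem st_iff (σ : E → Bool) (W : Finset E) (c : E) : st σ W c = σ c ↔ c ∈ W := by
  unfold st
  by_cases h : c ∈ W
  · rw [if_pos h]
    exact ⟨fun _ => h, fun _ => rfl⟩
  · rw [if_neg h]
    constructor
    · intro h1
      cases hσ : σ c <;> rw [hσ] at h1 <;> exact absurd h1 (by decide)
    · exact fun h1 => absurd h1 h

theorem SM_st (M : Matrix E E (ZMod 2)) (σ : E → Bool) (W : Finset E) :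
    SM M σ (st σ W) = MW M W := by
  unfold SM MW
  congr 2
  funext c
  rw [if_congr (st_iff σ W c) rfl rfl]

theorem st_filter (σ s : E → Bool) : st σ (Finset.univ.filter fun c => s c = σ c) = s := by
  funext c
  unfold st
  by_cases h : s c = σ c
  · rw [if_pos (Finset.mem_filter.2 ⟨Finset.mem_univ c, h⟩), h]
  · have h0 : c ∉ Finset.univ.filter fun c => s c = σ c := fun h1 => h (Finset.mem_filter.1 h1).2
    rw [if_neg h0]
    cases h1 : s c <;> cases h2 : σ c <;> rw [h1, h2] at h <;> first | rfl | exact absurd rfl h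

/-- states are subsets -/
theorem sum_st (σ : E → Bool) (f : (E → Bool) → ℂ) :
    ∑ s : E → Bool, f s = ∑ W ∈ (Finset.univ : Finset E).powerset, f (st σ W) := by
  refine Finset.sum_bij' (fun s _ => Finset.univ.filter fun c => s c = σ c)
    (fun W _ => st σ W) (fun s _ => Finset.mem_powerset.2 (Finset.subset_univ _))
    (fun W _ => Finset.mem_univ _) (fun s _ => st_filter σ s) ?_ ?_
  · intro W _
    ext c
    rw [Finset.mem_filter, st_iff]
    exact ⟨fun h => h.2, fun h => ⟨Finset.mem_univ c, h⟩⟩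
  · intro s _
    rw [st_filter]

/-- the weights -/
noncomputable def wn (n : ℕ) (b : Bool) : ℂ := if b then (yn n)⁻¹ else yn n

/-- the ratio of the weights of the two smoothings -/
theorem ratio (n : ℕ) (hn : 4 ≤ n) (b : Bool) :
    (if b then An n else (An n)⁻¹) =
      (if !b then An n else (An n)⁻¹) * ((wn n b - 1) * (((-rn n : ℝ) : ℂ))⁻¹) := by
  have hA := An_ne n
  have hd : ((-rn n : ℝ) : ℂ) ≠ 0 := by
    have := rn_pos n hn
    exact_mod_cast (neg_lt_zero.2 this).ne
  have hy := yn_eq n (by omega)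
  have hAd := An_d n
  cases b with
  | true =>
    show An n = (An n)⁻¹ * (((yn n)⁻¹ - 1) * (((-rn n : ℝ) : ℂ))⁻¹)
    have h1 : (yn n)⁻¹ = -(An n) ^ 4 := by
      rw [hy, inv_pow, ← neg_inv, inv_inv]
    have h2 : An n * ((-rn n : ℝ) : ℂ) = (An n)⁻¹ * (-(An n) ^ 4 - 1) := by
      rw [← hAd]
      have h3 : (An n)⁻¹ * (An n) = 1 := inv_mul_cancel₀ hA
      linear_combination ((An n) ^ 3 - (An n)⁻¹) * h3
    rw [h1, ← mul_assoc, ← h2, mul_assoc, mul_inv_cancel₀ hd, mul_one]
  | false =>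
    show (An n)⁻¹ = An n * ((yn n - 1) * (((-rn n : ℝ) : ℂ))⁻¹)
    have h2 : (An n)⁻¹ * ((-rn n : ℝ) : ℂ) = An n * (yn n - 1) := by
      rw [← hAd, hy]
      have h3 : (An n)⁻¹ * (An n) = 1 := inv_mul_cancel₀ hA
      linear_combination (((An n)⁻¹) ^ 3 - (An n)) * h3
    rw [← mul_assoc, ← h2, mul_assoc, mul_inv_cancel₀ hd, mul_one]

private theorem Abs_zpow (y : ℂ) (hy : y ≠ 0) (s : Finset E) (f : E → ℤ) :
    ∏ c ∈ s, y ^ (f c) = y ^ (∑ c ∈ s, f c) := by
  induction s using Finset.induction_on with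
  | empty => simp
  | insert a s ha ih => rw [Finset.prod_insert ha, Finset.sum_insert ha, zpow_add₀ hy, ih]

/-- the product of the weights over a class -/
theorem prod_wn (n : ℕ) (hn : 4 ≤ n) (σ : E → Bool) (s : Finset E) (j : ℤ)
    (h : ∑ c ∈ s, (if σ c then (1 : ℤ) else -1) = (2 * j + 1) * n) :
    ∏ c ∈ s, wn n (σ c) = -1 := by
  have hy := yn_ne n
  have h1 : ∀ c ∈ s, wn n (σ c) = yn n ^ (-(if σ c then (1 : ℤ) else -1)) := by
    intro c _
    unfold wn
    cases σ c <;> simp
  rw [Finset.prod_congr rfl h1, Abs_zpow _ hy, Finset.sum_neg_distrib, h, _root_.zpow_neg,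
    mul_comm, _root_.zpow_mul, _root_.zpow_natCast, yn_pow n (by omega)]
  have h3 : (-1 : ℂ) ^ (2 * j + 1) = -1 := by
    rw [zpow_add₀ (by norm_num), _root_.zpow_mul, _root_.zpow_one]
    norm_num
  rw [h3]
  norm_num

variable {M : Matrix E E (ZMod 2)}

theorem co_eq_iff (c e : E) : co M c = co M e ↔ M c = M e := by
  constructor
  · intro h
    funext j
    have h1 := congrArg (fun f => f ⟨M.mulVecLin (Pi.single j 1), _, rfl⟩) h
    have h2 : ∀ c, co M c ⟨M.mulVecLin (Pi.single j 1), _, rfl⟩ = M c j := by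
      intro c
      show (M *ᵥ Pi.single j 1) c = M c j
      rw [Matrix.mulVec_single_one]
      rfl
    simp only [h2] at h1
    exact h1
  · intro h
    apply LinearMap.ext
    rintro ⟨_, x, rfl⟩
    show M c ⬝ᵥ x = M e ⬝ᵥ x
    rw [h]

theorem co_ne_zero (c : E) (h : M c ≠ 0) : co M c ≠ 0 := by
  intro h0
  apply h
  funext j
  have h1 := congrArg (fun f => f ⟨M.mulVecLin (Pi.single j 1), _, rfl⟩) h0
  have h2 : co M c ⟨M.mulVecLin (Pi.single j 1), _, rfl⟩ = M c j := by
    show (M *ᵥ Pi.single j 1) c = M c j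
    rw [Matrix.mulVec_single_one]
    rfl
  simp only [h2] at h1
  exact h1

open Classical in
/-- **The state sum of a symmetric matrix** -/
theorem absSum (hUA : St_UA) [Nonempty E] (hM : ∀ i j, M i j = M j i) (hrow : ∀ c, M c ≠ 0)
    (σ : E → Bool) (n : ℕ) (hn : 4 ≤ n)
    (hcl : ∀ c, ∃ j : ℤ, ∑ c' ∈ Finset.univ.filter (fun c' => M c' = M c),
      (if σ c' then (1 : ℤ) else -1) = (2 * j + 1) * n) :
    Real.sqrt 2 ≤ ‖∑ s : E → Bool, (∏ c, if s c then An n else (An n)⁻¹) *
      (-(An n) ^ 2 - ((An n)⁻¹) ^ 2) ^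
        (finrank (ZMod 2) (LinearMap.ker (SM M σ s).mulVecLin))‖ := by
  classical
  have hr := rn_pos n hn
  have hd : ((-rn n : ℝ) : ℂ) ≠ 0 := by exact_mod_cast (neg_lt_zero.2 hr).ne
  obtain ⟨P, hP⟩ : ∃ P, P = ∏ c : E, (if !σ c then An n else (An n)⁻¹) := ⟨_, rfl⟩
  have hPn : ‖P‖ = 1 := by
    rw [hP, norm_prod]
    refine Finset.prod_eq_one fun c _ => ?_
    split_ifs
    · exact An_norm n
    · rw [norm_inv, An_norm, inv_one]
  rw [sum_st σ]
  -- one state
  have h1 : ∀ W ∈ (Finset.univ : Finset E).powerset,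
      (∏ c, if st σ W c then An n else (An n)⁻¹) * (-(An n) ^ 2 - ((An n)⁻¹) ^ 2) ^
        (finrank (ZMod 2) (LinearMap.ker (SM M σ (st σ W)).mulVecLin)) =
      P * ((∏ c ∈ W, (wn n (σ c) - 1)) *
        (fun U => ((wt (fo M) (-rn n)⁻¹ (ck U) : ℝ) : ℂ)) (W.image (co M))) := by
    intro W _
    rw [SM_st, An_d]
    have h2 : (∏ c, if st σ W c then An n else (An n)⁻¹) =
        P * ∏ c ∈ W, ((wn n (σ c) - 1) * (((-rn n : ℝ) : ℂ))⁻¹) := by
      have h6 : ∀ c, (if st σ W c then An n else (An n)⁻¹) =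
          (if !σ c then An n else (An n)⁻¹) *
            (if c ∈ W then ((wn n (σ c) - 1) * (((-rn n : ℝ) : ℂ))⁻¹) else 1) := by
        intro c
        unfold st
        by_cases hc : c ∈ W
        · rw [if_pos hc, if_pos hc]
          exact ratio n hn (σ c)
        · rw [if_neg hc, if_neg hc, mul_one]
      rw [Finset.prod_congr rfl fun c _ => h6 c, Finset.prod_mul_distrib, ← hP,
        Finset.prod_ite_mem, Finset.univ_inter]
    rw [h2, Finset.prod_mul_distrib, Finset.prod_const]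
    have h3 := finrank_ker_MW hM W
    obtain ⟨a, ha⟩ : ∃ a, a = finrank (ZMod 2) (LinearMap.ker (MW M W).mulVecLin) := ⟨_, rfl⟩
    rw [← ha] at h3 ⊢
    have h4 : ((wt (fo M) (-rn n)⁻¹ (ck (W.image (co M))) : ℝ) : ℂ) =
        (((-rn n : ℝ) : ℂ))⁻¹ ^ W.card * ((-rn n : ℝ) : ℂ) ^ a := by
      unfold wt
      have h5 : (finrank (ZMod 2) (Im M) : ℤ) - finrank (ZMod 2) (ck (W.image (co M))) -
          finrank (ZMod 2) (rad (fo M) (ck (W.image (co M)))) = W.card - a := by
        omega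
      rw [h5]
      push_cast
      rw [zpow_sub₀ (inv_ne_zero (by simpa using hr.ne')), _root_.zpow_natCast,
        _root_.zpow_natCast, inv_pow _ a, div_inv_eq_mul]
    simp only []
    rw [h4]
    ring
  rw [Finset.sum_congr rfl h1, ← Finset.mul_sum, norm_mul, hPn, one_mul]
  have hmer := merge (co M) (fun c => wn n (σ c)) Finset.univ
    (fun U => ((wt (fo M) (-rn n)⁻¹ (ck U) : ℝ) : ℂ))
  rw [hmer]
  -- the classes
  have h2 : ∀ U ∈ (Finset.univ.image (co M)).powerset,
      (∏ k ∈ U, cw (co M) (fun c => wn n (σ c)) Finset.univ k) *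
        ((wt (fo M) (-rn n)⁻¹ (ck U) : ℝ) : ℂ) =
      (((-2) ^ U.card * wt (fo M) (-Real.sqrt (1 / rn n ^ 2)) (ck U) : ℝ) : ℂ) := by
    intro U hU
    have h3 : ∀ k ∈ U, cw (co M) (fun c => wn n (σ c)) Finset.univ k = -2 := by
      intro k hk
      obtain ⟨c, -, rfl⟩ := Finset.mem_image.1 (Finset.mem_powerset.1 hU hk)
      obtain ⟨j, hj⟩ := hcl c
      unfold cw
      have h4 : Finset.univ.filter (fun c' => co M c' = co M c) =
          Finset.univ.filter (fun c' => M c' = M c) :=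
        Finset.filter_congr fun c' _ => co_eq_iff c' c
      rw [h4, prod_wn n hn σ _ j hj]
      norm_num
    rw [Finset.prod_congr rfl h3, Finset.prod_const, rn_z n hn]
    push_cast
    ring
  rw [Finset.sum_congr rfl h2, ← Complex.ofReal_sum, Complex.norm_real, Real.norm_eq_abs]
  refine hUA (Im M) (fo M) (fo_symm hM) _ ?_ ?_ ?_ _ (rn_x n hn)
  · intro h3
    obtain ⟨c, -, hc⟩ := Finset.mem_image.1 h3
    exact co_ne_zero c (hrow c) hc
  · rw [eq_bot_iff]
    intro y hy
    rw [mem_ck] at hy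
    rw [Submodule.mem_bot]
    apply Subtype.ext
    funext c
    exact hy c (Finset.mem_univ c)
  · obtain ⟨c⟩ := ‹Nonempty E›
    rw [Module.finrank_pos_iff_exists_ne_zero]
    by_contra h3
    push Not at h3
    apply hrow c
    funext j
    have h4 := h3 ⟨M.mulVecLin (Pi.single j 1), _, rfl⟩
    have h5 := congrFun (congrArg Subtype.val h4) c
    have h6 : (M *ᵥ Pi.single j 1) c = M c j := by
      rw [Matrix.mulVec_single_one]
      rfl
    rw [← h6]
    exact h5

end

end Pool.Agent.UNI
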