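import Mathlib
import Pool.Agent.UNI.Abs

/-!
# UNI, module Ev: a Laurent polynomial in `A` which is not `1`
-/

set_option autoImplicit false

open Module LaurentPolynomial

namespace Pool.Agent.UNI

/-- the evaluation at `An n` -/
noncomputable def ev (n : ℕ) : LaurentPolynomial ℤ →+* ℂ :=
  LaurentPolynomial.eval₂ (Int.castRingHom ℂ) (Units.mk0 (An n) (An_ne n))

theorem ev_T (n : ℕ) (k : ℤ) : ev n (T k) = An n ^ k := by
  unfold ev
  rw [eval₂_T, Units.val_zpow_eq_zpow_val, Units.val_mk0]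

theorem zpow_ssum {E : Type} (S : Finset E) (u : ℂ) (hu : u ≠ 0) (s : E → Bool) :
    u ^ (∑ c ∈ S, if s c then (1 : ℤ) else -1) = ∏ c ∈ S, if s c then u else u⁻¹ := by
  classical
  induction S using Finset.induction_on with
  | empty => rw [Finset.sum_empty, Finset.prod_empty, zpow_zero]
  | insert a S ha ih =>
    rw [Finset.sum_insert ha, Finset.prod_insert ha, zpow_add₀ hu, ih]
    congr 1
    cases s a
    · rw [if_neg (by decide), if_neg (by decide), _root_.zpow_neg_one]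
    · rw [if_pos rfl, if_pos rfl, _root_.zpow_one]

variable {E : Type} [Fintype E] [DecidableEq E]

/-- **the state sum is not `1`** -/
theorem core (hUA : St_UA) [Nonempty E] {M : Matrix E E (ZMod 2)} (hM : ∀ i j, M i j = M j i)
    (hrow : ∀ c, M c ≠ 0) (σ : E → Bool) (n : ℕ) (hn : 4 ≤ n)
    (cl : E → Finset E) (hc0 : ∀ c c', c' ∈ cl c ↔ M c' = M c)
    (hcl : ∀ c, ∃ j : ℤ, ∑ c' ∈ cl c, (if σ c' then (1 : ℤ) else -1) = (2 * j + 1) * n)
    (F : (E → Bool) → ℕ)
    (hF : ∀ s, F s = 1 + finrank (ZMod 2) (LinearMap.ker (SM M σ s).mulVecLin))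
    (w : ℤ) (k : ℕ) :
    (-1 : LaurentPolynomial ℤ) ^ k * T w *
      ∑ s : E → Bool, T (∑ c, if s c then (1 : ℤ) else -1) * (-T 2 - T (-2)) ^ (F s - 1) ≠ 1 := by
  intro h
  have h1 := congrArg (fun x => ‖ev n x‖) h
  beta_reduce at h1
  rw [map_mul, map_mul, map_pow, map_neg, map_one, ev_T, norm_mul, norm_mul, norm_pow, norm_neg,
    norm_one, one_pow, one_mul, norm_zpow, An_norm, one_zpow, one_mul, map_sum] at h1
  have h2 : ∀ s : E → Bool,
      ev n (T (∑ c, if s c then (1 : ℤ) else -1) * (-T 2 - T (-2)) ^ (F s - 1)) =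
      (∏ c, if s c then An n else (An n)⁻¹) * (-(An n) ^ 2 - ((An n)⁻¹) ^ 2) ^
        finrank (ZMod 2) (LinearMap.ker (SM M σ s).mulVecLin) := by
    intro s
    rw [map_mul, map_pow, map_sub, map_neg, ev_T, ev_T, ev_T, zpow_ssum _ _ (An_ne n), hF,
      Nat.add_sub_cancel_left, zpow_neg, inv_pow]
    rfl
  rw [Finset.sum_congr rfl fun s _ => h2 s] at h1
  have h3 := absSum hUA hM hrow σ n hn fun c => by
    obtain ⟨j, hj⟩ := hcl c
    refine ⟨j, ?_⟩
    rw [← hj]
    refine Finset.sum_congr ?_ fun _ _ => rfl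
    ext x
    simp only [Finset.mem_filter, Finset.mem_univ, true_and, hc0]
  rw [h1] at h3
  have h4 : (1 : ℝ) < Real.sqrt 2 := by
    rw [Real.lt_sqrt] <;> norm_num
  exact absurd h3 (not_le.2 h4)

end Pool.Agent.UNI
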