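import Mathlib
import Pool.Agent.UNI.Ev
import Pool.Agent.UNI.KDefs
import Pool.Agent.Helper16.Knotoid.Gauss

/-!
# UNI, module Knotoid: the cut matrix of a knotoid diagram
-/

set_option autoImplicit false

open Module LaurentPolynomial
open Pool.Agent.Helper16.Knotoid Pool.Agent.Helper16.Knotoid.GaussDiagram

namespace Pool.Agent.UNI

variable {n : ℕ} (D : GaussDiagram n)

theorem gmat_SM (σ s : Fin n → Bool) : D.gmat s = SM (D.gmat σ) σ s := by
  ext e f
  unfold SM
  rw [Matrix.add_apply]
  by_cases h : e = f
  · subst h
    rw [Matrix.diagonal_apply_eq, gmat_self, gmat_self]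
    cases s e <;> cases σ e <;> cases D.sign e <;> decide
  · rw [Matrix.diagonal_apply_ne _ h, add_zero, gmat_of_ne _ _ h, gmat_of_ne _ _ h]

theorem zmod2_ext {a b : ZMod 2} (h : a = 1 ↔ b = 1) : a = b := by
  revert a b
  decide

theorem cut_iff (σ : Fin n → Bool) (c d : Fin n) : D.Cut σ c d ↔ D.gmat σ c d = 1 := by
  unfold Cut
  by_cases h : c = d
  · subst h
    rw [gmat_self]
    have h1 : ¬ D.Interlaced c c := by
      unfold Interlaced Inside
      simp
    by_cases h2 : σ c = D.sign c
    · rw [if_pos h2]
      simp [h1, h2]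
    · rw [if_neg h2]
      simp [h2]
  · rw [gmat_of_ne _ _ h]
    have h1 := D.over_ne_over h
    have h2 := D.over_ne_under c d
    have h3 := D.over_ne_under d c
    have h4 := D.under_ne_under h
    have h5 := D.over_ne_under c c
    unfold Interlaced Inside quad
    simp only [Fin.lt_def, h, false_and, or_false]
    generalize (D.overPass c : ℕ) = x at *
    generalize (D.underPass c : ℕ) = y at *
    generalize (D.overPass d : ℕ) = z at *
    generalize (D.underPass d : ℕ) = w at *
    have e1 : x < z ↔ ¬ z < x := by omega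
    have e2 : x < w ↔ ¬ w < x := by omega
    have e3 : y < z ↔ ¬ z < y := by omega
    have e4 : y < w ↔ ¬ w < y := by omega
    rw [e1, e2, e3, e4]
    by_cases g1 : z < x <;> by_cases g2 : w < x <;> by_cases g3 : z < y <;> by_cases g4 : w < y <;>
      simp only [g1, g2, g3, g4, if_true, if_false] <;> decide

end Pool.Agent.UNI
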