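import Mathlib
import Pool.Agent.UNI.GDefs
import Pool.Agent.UNI.Knotoid

/-!
# UNI, module Closed: closed Gauss codes and the Gauss diagrams of knotoids
-/

set_option autoImplicit false

open Module LaurentPolynomial

namespace Pool.Agent.UNI

open Pool.Agent.GaussJones Pool.Agent.Helper16.Knotoid

variable {n : ℕ}

/-- the knotoid diagram obtained by cutting a knot diagram open -/
def cutOpen (g : Code n) (e : Fin n → Bool) : GaussDiagram n := ⟨g, e⟩

private theorem rot_symm (N : ℕ) (k : ℕ) (hk : k + 1 < N) :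
    (finRotate N).symm ⟨k + 1, hk⟩ = ⟨k, by omega⟩ := by
  rw [Equiv.symm_apply_eq]
  obtain ⟨M, rfl⟩ : ∃ M, N = M + 1 := ⟨N - 1, by omega⟩
  rw [finRotate_of_lt (by omega)]

private theorem rot_symm_zero (N : ℕ) (h : 0 < N) :
    (finRotate N).symm ⟨0, h⟩ = ⟨N - 1, by omega⟩ := by
  rw [Equiv.symm_apply_eq]
  obtain ⟨M, rfl⟩ : ∃ M, N = M + 1 := ⟨N - 1, by omega⟩
  exact finRotate_last'.symm

/-- functions on the edges of the closed code are functions on the edges of the open one -/
def pull (n : ℕ) (hn : 0 < 2 * n) : (Fin (2 * n) → ZMod 2) →ₗ[ZMod 2] (Fin (2 * n + 1) → ZMod 2) where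
  toFun φ := Fin.cases (φ ((finRotate (2 * n)).symm ⟨0, hn⟩)) φ
  map_add' φ ψ := by
    funext q
    induction q using Fin.cases <;> rfl
  map_smul' c φ := by
    funext q
    induction q using Fin.cases <;> rfl

theorem pull_succ (hn : 0 < 2 * n) (φ : Fin (2 * n) → ZMod 2) (p : Fin (2 * n)) :
    pull n hn φ p.succ = φ p := rfl

theorem pull_castSucc (hn : 0 < 2 * n) (φ : Fin (2 * n) → ZMod 2) (p : Fin (2 * n)) :
    pull n hn φ p.castSucc = φ ((finRotate (2 * n)).symm p) := by
  obtain ⟨k, hk⟩ := p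
  cases k with
  | zero => rfl
  | succ k =>
    rw [rot_symm]
    rfl

theorem pull_injective (hn : 0 < 2 * n) : Function.Injective (pull n hn) := by
  intro φ ψ h
  funext p
  rw [← pull_succ hn φ, h, pull_succ]

theorem rotate_zero (hn : 0 < 2 * n) (φ : Fin (2 * n + 1) → ZMod 2) :
    φ ((finRotate (2 * n)).symm ⟨0, hn⟩).succ = φ (Fin.last (2 * n)) := by
  rw [rot_symm_zero]
  congr 1
  apply Fin.ext
  show 2 * n - 1 + 1 = 2 * n
  omega

theorem compat_last (D : GaussDiagram n) (s : Fin n → Bool) (φ : Fin (2 * n + 1) → ZMod 2)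
    (hφ : φ ∈ compat (D.Join s)) : φ (Fin.last (2 * n)) = φ 0 := by
  rw [GaussDiagram.compat_join, arcCond_eq_map D.pass_inj] at hφ
  obtain ⟨⟨c, x⟩, -, rfl⟩ := hφ
  rw [arcParam_apply, arcParam_apply]
  have h1 : ∀ f, cnt D.overPass D.underPass (2 * n) f = 0 := by
    intro f
    unfold cnt
    rw [if_pos (D.overPass f).2, if_pos (D.underPass f).2]
    decide
  show arcFun D.overPass D.underPass c x (2 * n) = arcFun D.overPass D.underPass c x 0
  rw [arcFun_zero]
  unfold arcFun
  rw [Finset.sum_eq_zero fun f _ => by rw [h1, mul_zero], add_zero]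

theorem compat_closed (hn : 0 < 2 * n) (g : Code n) (e s : Fin n → Bool) :
    compat ((cutOpen g e).Join s) =
      (compat (Joined g fun i => s i == e i)).map (pull n hn) := by
  have e1 : ∀ i, ((s i == e i) = true) ↔ s i = (cutOpen g e).sign i := fun i => beq_iff_eq
  have e2 : ∀ i, ((s i == e i) = false) ↔ s i ≠ (cutOpen g e).sign i :=
    fun i => beq_eq_false_iff_ne
  apply le_antisymm
  · intro φ hφ
    have h0 := compat_last _ s φ hφ
    have hpull : pull n hn (fun p => φ p.succ) = φ := by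
      funext q
      induction q using Fin.cases with
      | zero =>
        show φ ((finRotate (2 * n)).symm ⟨0, hn⟩).succ = φ 0
        rw [rotate_zero hn φ, h0]
      | succ p => rfl
    refine ⟨fun p => φ p.succ, ?_, hpull⟩
    have hin : ∀ x, (fun p : Fin (2 * n) => φ p.succ) (inEdge g x) = φ (g x).castSucc := by
      intro x
      unfold inEdge
      have h1 := pull_castSucc hn (fun p => φ p.succ) (g x)
      rw [hpull] at h1
      exact h1.symm
    have hout : ∀ x, (fun p : Fin (2 * n) => φ p.succ) (outEdge g x) = φ (g x).succ := fun x => rfl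
    rintro p q ⟨i, ⟨hi, ⟨rfl, rfl⟩ | ⟨rfl, rfl⟩⟩ | ⟨hi, ⟨rfl, rfl⟩ | ⟨rfl, rfl⟩⟩⟩
    · rw [hin, hout]
      exact hφ _ _ (GaussDiagram.Join.oriented₂ i ((e1 i).1 hi))
    · rw [hin, hout]
      exact hφ _ _ (GaussDiagram.Join.oriented₁ i ((e1 i).1 hi))
    · rw [hin, hin]
      exact (hφ _ _ (GaussDiagram.Join.unoriented₁ i ((e2 i).1 hi))).symm
    · rw [hout, hout]
      exact (hφ _ _ (GaussDiagram.Join.unoriented₂ i ((e2 i).1 hi))).symm
  · rintro _ ⟨φ, hφ, rfl⟩
    have hin : ∀ x, pull n hn φ (g x).castSucc = φ (inEdge g x) := fun x => pull_castSucc hn φ _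
    have hout : ∀ x, pull n hn φ (g x).succ = φ (outEdge g x) := fun x => rfl
    intro a b hab
    cases hab with
    | oriented₁ c h =>
      refine (hin (c, true)).trans (Eq.trans ?_ (hout (c, false)).symm)
      exact hφ _ _ ⟨c, Or.inl ⟨(e1 c).2 h, Or.inr ⟨rfl, rfl⟩⟩⟩
    | oriented₂ c h =>
      refine (hin (c, false)).trans (Eq.trans ?_ (hout (c, true)).symm)
      exact hφ _ _ ⟨c, Or.inl ⟨(e1 c).2 h, Or.inl ⟨rfl, rfl⟩⟩⟩
    | unoriented₁ c h =>
      refine (hin (c, true)).trans (Eq.trans ?_ (hin (c, false)).symm)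
      exact (hφ _ _ ⟨c, Or.inr ⟨(e2 c).2 h, Or.inl ⟨rfl, rfl⟩⟩⟩).symm
    | unoriented₂ c h =>
      refine (hout (c, true)).trans (Eq.trans ?_ (hout (c, false)).symm)
      exact (hφ _ _ ⟨c, Or.inr ⟨(e2 c).2 h, Or.inr ⟨rfl, rfl⟩⟩⟩).symm

theorem loops_closed (hn : 0 < n) (g : Code n) (e s : Fin n → Bool) :
    loops g (fun i => s i == e i) = (cutOpen g e).comps s := by
  rw [GaussDiagram.comps_eq_finrank, compat_closed (by omega) g e s,
    ← (Submodule.equivMapOfInjective (pull n _) (pull_injective _) _).finrank_eq, finrank_compat]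
  rfl

end Pool.Agent.UNI
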