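import Mathlib
import Pool.Agent.UNI.Closed

/-!
# UNI, module Knot: knot diagrams as closed knotoid diagrams
-/

set_option autoImplicit false

open Module LaurentPolynomial

namespace Pool.Agent.UNI

open Pool.Agent.GaussJones Pool.Agent.Helper16.Knotoid

variable {n : ℕ}

private theorem vmin {k : ℕ} (a b : Fin k) : ((min a b : Fin k) : ℕ) = min (a : ℕ) b := by
  rcases le_total a b with h | h
  · rw [min_eq_left h, min_eq_left (Fin.le_def.1 h)]
  · rw [min_eq_right h, min_eq_right (Fin.le_def.1 h)]

private theorem vmax {k : ℕ} (a b : Fin k) : ((max a b : Fin k) : ℕ) = max (a : ℕ) b := by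
  rcases le_total a b with h | h
  · rw [max_eq_right h, max_eq_right (Fin.le_def.1 h)]
  · rw [max_eq_left h, max_eq_left (Fin.le_def.1 h)]

private theorem T_sum {ι : Type} (S : Finset ι) (f : ι → ℤ) :
    (T (∑ i ∈ S, f i) : ℤ[T;T⁻¹]) = ∏ i ∈ S, T (f i) := by
  classical
  induction S using Finset.induction_on with
  | empty => rw [Finset.sum_empty, Finset.prod_empty, T_zero]
  | insert a S ha ih => rw [Finset.sum_insert ha, Finset.prod_insert ha, T_add, ih]

private theorem neg_sum {ι : Type} (S : Finset ι) (f : ι → Bool) :
    ((-1 : ℤ[T;T⁻¹]) ^ (∑ i ∈ S, if f i then (1 : ℤ) else -1).natAbs) = (-1) ^ S.card := by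
  classical
  induction S using Finset.induction_on with
  | empty => rw [Finset.sum_empty, Finset.card_empty]; rfl
  | insert a S ha ih =>
    rw [Finset.sum_insert ha, Finset.card_insert_of_notMem ha, pow_succ, ← ih]
    have h1 : ((-1 : ℤ[T;T⁻¹]) ^ (∑ i ∈ S, if f i then (1 : ℤ) else -1).natAbs) * -1 =
      (-1) ^ ((∑ i ∈ S, if f i then (1 : ℤ) else -1).natAbs + 1) := by rw [pow_succ]
    rw [h1]
    apply neg_one_pow_congr
    rw [Int.natAbs_even, Nat.even_add_one, Int.natAbs_even, Int.even_add]
    split_ifs <;> simp [Int.even_iff]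

theorem interlaced_iff (g : Code n) (e : Fin n → Bool) (i j : Fin n) :
    GaussJones.Interlaced g i j ↔ (cutOpen g e).Interlaced i j := by
  have h5 := (cutOpen g e).over_ne_under i i
  have h6 := (cutOpen g e).over_ne_under j j
  unfold GaussJones.Interlaced GaussDiagram.Interlaced GaussDiagram.Inside lo hi
  by_cases h : i = j
  · subst h
    simp
  · have h1 := (cutOpen g e).over_ne_over h
    have h2 := (cutOpen g e).over_ne_under i j
    have h3 := (cutOpen g e).over_ne_under j i
    have h4 := (cutOpen g e).under_ne_under h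
    have k1 : ((g (i, true) : Fin (2 * n)) : ℕ) = (cutOpen g e).overPass i := rfl
    have k2 : ((g (i, false) : Fin (2 * n)) : ℕ) = (cutOpen g e).underPass i := rfl
    have k3 : ((g (j, true) : Fin (2 * n)) : ℕ) = (cutOpen g e).overPass j := rfl
    have k4 : ((g (j, false) : Fin (2 * n)) : ℕ) = (cutOpen g e).underPass j := rfl
    simp only [Fin.lt_def, vmin, vmax, k1, k2, k3, k4]
    generalize ((cutOpen g e).overPass i : ℕ) = x at *
    generalize ((cutOpen g e).underPass i : ℕ) = y at *
    generalize ((cutOpen g e).overPass j : ℕ) = z at *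
    generalize ((cutOpen g e).underPass j : ℕ) = w at *
    omega

theorem cut_closed (g : Code n) (e σ : Fin n → Bool) (i j : Fin n) :
    GaussJones.Cut g e σ i j ↔ (cutOpen g e).Cut σ i j := by
  unfold GaussJones.Cut GaussDiagram.Cut
  rw [interlaced_iff g e]
  rfl

/-- the switch between the two descriptions of the states -/
def swE (e : Fin n → Bool) : (Fin n → Bool) ≃ (Fin n → Bool) where
  toFun s := fun i => s i == e i
  invFun s := fun i => s i == e i
  left_inv s := by
    funext i
    beta_reduce
    cases s i <;> cases e i <;> rfl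
  right_inv s := by
    funext i
    beta_reduce
    cases s i <;> cases e i <;> rfl

theorem f_closed (hn : 0 < n) (g : Code n) (e : Fin n → Bool) :
    fPoly g e = (cutOpen g e).normalizedBracket := by
  unfold fPoly GaussDiagram.normalizedBracket
  have h1 : GaussJones.bracket g e = (cutOpen g e).bracket := by
    unfold GaussJones.bracket GaussDiagram.bracket
    rw [← (swE e).sum_comp]
    refine Finset.sum_congr rfl fun s _ => ?_
    have h2 : loops g (swE e s) = (cutOpen g e).comps s := loops_closed hn g e s
    rw [h2]
    congr 1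
    · unfold GaussDiagram.stateSign
      rw [T_sum]
      refine Finset.prod_congr rfl fun i _ => ?_
      show (if (s i == e i) = e i then _ else _) = _
      cases s i <;> cases e i <;> rfl
    · congr 1
      ring
  rw [h1]
  congr 1
  unfold GaussDiagram.writhe
  rw [neg_sum, Finset.mul_sum, T_sum, ← Finset.prod_const, ← Finset.prod_mul_distrib]
  refine Finset.prod_congr rfl fun i _ => ?_
  show (if e i = true then _ else _) = (-1 : ℤ[T;T⁻¹]) * T (-3 * (if e i = true then 1 else -1))
  cases e i
  · rw [if_neg (by decide), if_neg (by decide)]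
    norm_num
  · rw [if_pos rfl, if_pos rfl]
    norm_num

end Pool.Agent.UNI
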