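import Mathlib
import Pool.Agent.UNI.Abs

/-!
# UNI, module One: one arbitrary class (idea of helper63)
-/

set_option autoImplicit false
set_option linter.unusedSectionVars false

open Module Matrix

namespace Pool.Agent.UNI

section

variable {E : Type} [Fintype E] [DecidableEq E] {M : Matrix E E (ZMod 2)}

open Classical in
/-- the state sum in terms of the classes -/
theorem absEval (hM : ∀ i j, M i j = M j i) (σ : E → Bool) (n : ℕ) (hn : 4 ≤ n) :
    ‖∑ s : E → Bool, (∏ c, if s c then An n else (An n)⁻¹) *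
      (-(An n) ^ 2 - ((An n)⁻¹) ^ 2) ^
        (finrank (ZMod 2) (LinearMap.ker (SM M σ s).mulVecLin))‖ =
    ‖∑ U ∈ (Finset.univ.image (co M)).powerset,
      (∏ k ∈ U, cw (co M) (fun c => wn n (σ c)) Finset.univ k) *
        ((wt (fo M) (-Real.sqrt (1 / rn n ^ 2)) (ck U) : ℝ) : ℂ)‖ := by
  have hr := rn_pos n hn
  have hd : ((-rn n : ℝ) : ℂ) ≠ 0 := by exact_mod_cast (neg_lt_zero.2 hr).ne
  obtain ⟨P, hP⟩ : ∃ P, P = ∏ c : E, (if !σ c then An n else (An n)⁻¹) := ⟨_, rfl⟩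
  have hPn : ‖P‖ = 1 := by
    rw [hP, norm_prod]
    refine Finset.prod_eq_one fun c _ => ?_
    split_ifs
    · exact An_norm n
    · rw [norm_inv, An_norm, inv_one]
  rw [sum_st σ]
  -- one state
  have h1 : ∀ W ∈ (Finset.univ : Finset E).powerset,
      (∏ c, if st σ W c then An n else (An n)⁻¹) * (-(An n) ^ 2 - ((An n)⁻¹) ^ 2) ^
        (finrank (ZMod 2) (LinearMap.ker (SM M σ (st σ W)).mulVecLin)) =
      P * ((∏ c ∈ W, (wn n (σ c) - 1)) *
        (fun U => ((wt (fo M) (-rn n)⁻¹ (ck U) : ℝ) : ℂ)) (W.image (co M))) := by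
    intro W _
    rw [SM_st, An_d]
    have h2 : (∏ c, if st σ W c then An n else (An n)⁻¹) =
        P * ∏ c ∈ W, ((wn n (σ c) - 1) * (((-rn n : ℝ) : ℂ))⁻¹) := by
      have h6 : ∀ c, (if st σ W c then An n else (An n)⁻¹) =
          (if !σ c then An n else (An n)⁻¹) *
            (if c ∈ W then ((wn n (σ c) - 1) * (((-rn n : ℝ) : ℂ))⁻¹) else 1) := by
        intro c
        unfold st
        by_cases hc : c ∈ W
        · rw [if_pos hc, if_pos hc]
          exact ratio n hn (σ c)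
        · rw [if_neg hc, if_neg hc, mul_one]
      rw [Finset.prod_congr rfl fun c _ => h6 c, Finset.prod_mul_distrib, ← hP,
        Finset.prod_ite_mem, Finset.univ_inter]
    rw [h2, Finset.prod_mul_distrib, Finset.prod_const]
    have h3 := finrank_ker_MW hM W
    obtain ⟨a, ha⟩ : ∃ a, a = finrank (ZMod 2) (LinearMap.ker (MW M W).mulVecLin) := ⟨_, rfl⟩
    rw [← ha] at h3 ⊢
    have h4 : ((wt (fo M) (-rn n)⁻¹ (ck (W.image (co M))) : ℝ) : ℂ) =
        (((-rn n : ℝ) : ℂ))⁻¹ ^ W.card * ((-rn n : ℝ) : ℂ) ^ a := by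
      unfold wt
      have h5 : (finrank (ZMod 2) (Im M) : ℤ) - finrank (ZMod 2) (ck (W.image (co M))) -
          finrank (ZMod 2) (rad (fo M) (ck (W.image (co M)))) = W.card - a := by
        omega
      rw [h5]
      push_cast
      rw [zpow_sub₀ (inv_ne_zero (by simpa using hr.ne')), _root_.zpow_natCast,
        _root_.zpow_natCast, inv_pow _ a, div_inv_eq_mul]
    simp only []
    rw [h4]
    ring
  rw [Finset.sum_congr rfl h1, ← Finset.mul_sum, norm_mul, hPn, one_mul]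
  have hmer := merge (co M) (fun c => wn n (σ c)) Finset.univ
    (fun U => ((wt (fo M) (-rn n)⁻¹ (ck U) : ℝ) : ℂ))
  rw [hmer, rn_z n hn]

/-- a point of the unit circle is between `1` and `-1` -/
theorem circle_two (a b : ℝ) (v : ℂ) (hv : ‖v‖ = 1) (ha : Real.sqrt 2 ≤ |a|)
    (hb : Real.sqrt 2 ≤ |a - 2 * b|) : Real.sqrt 2 ≤ ‖(a : ℂ) + (v - 1) * b‖ := by
  have h1 : v.re ^ 2 + v.im ^ 2 = 1 := by
    have h2 := Complex.sq_norm v
    rw [hv, Complex.normSq_apply] at h2
    nlinarith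
  have hre : v.re ≤ 1 := by nlinarith [sq_nonneg v.im]
  have hre' : -1 ≤ v.re := by nlinarith [sq_nonneg v.im]
  have ha2 : 2 ≤ a ^ 2 := by
    rw [← sq_abs]
    have := Real.sq_sqrt (show (0 : ℝ) ≤ 2 by norm_num)
    nlinarith [Real.sqrt_nonneg 2]
  have hb2 : 2 ≤ (a - 2 * b) ^ 2 := by
    rw [← sq_abs]
    have := Real.sq_sqrt (show (0 : ℝ) ≤ 2 by norm_num)
    nlinarith [Real.sqrt_nonneg 2]
  have h3 : ‖(a : ℂ) + (v - 1) * b‖ ^ 2 = (1 + v.re) / 2 * a ^ 2 +
      (1 - v.re) / 2 * (a - 2 * b) ^ 2 := by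
    rw [Complex.sq_norm, Complex.normSq_apply]
    have e1 : ((a : ℂ) + (v - 1) * b).re = a + (v.re - 1) * b := by simp
    have e2 : ((a : ℂ) + (v - 1) * b).im = v.im * b := by simp
    rw [e1, e2]
    have h4 : v.im * b * (v.im * b) = v.im ^ 2 * b ^ 2 := by ring
    have h5 : v.im ^ 2 = 1 - v.re ^ 2 := by linarith
    rw [h4, h5]
    ring
  have h4 : (2 : ℝ) ≤ ‖(a : ℂ) + (v - 1) * b‖ ^ 2 := by
    rw [h3]
    nlinarith
  rw [Real.sqrt_le_left (norm_nonneg _)]
  exact h4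

open Classical in
/-- **The state sum of a symmetric matrix with one arbitrary class** -/
theorem absSum1 (hUA : St_UA) (hM : ∀ i j, M i j = M j i) (hrow : ∀ c, M c ≠ 0)
    (σ : E → Bool) (n : ℕ) (hn : 4 ≤ n) (z : E)
    (hz : ∀ x : E → ZMod 2, (∀ c, M c ≠ M z → (M.mulVec x) c = 0) → M.mulVec x = 0)
    (hcl : ∀ c, M c ≠ M z → ∃ j : ℤ, ∑ c' ∈ Finset.univ.filter (fun c' => M c' = M c),
      (if σ c' then (1 : ℤ) else -1) = (2 * j + 1) * n) :
    Real.sqrt 2 ≤ ‖∑ s : E → Bool, (∏ c, if s c then An n else (An n)⁻¹) *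
      (-(An n) ^ 2 - ((An n)⁻¹) ^ 2) ^
        (finrank (ZMod 2) (LinearMap.ker (SM M σ s).mulVecLin))‖ := by
  rw [absEval hM σ n hn]
  obtain ⟨X, hX⟩ : ∃ X, X = Finset.univ.image (co M) := ⟨_, rfl⟩
  obtain ⟨ζ, hζ⟩ : ∃ ζ, ζ = co M z := ⟨_, rfl⟩
  have hζX : ζ ∈ X := by
    rw [hX, hζ]
    exact Finset.mem_image_of_mem _ (Finset.mem_univ z)
  obtain ⟨v, hv⟩ : ∃ v, v = cw (co M) (fun c => wn n (σ c)) Finset.univ ζ + 1 := ⟨_, rfl⟩
  have hv1 : ‖v‖ = 1 := by
    have h : ‖yn n‖ = 1 := Complex.norm_exp_ofReal_mul_I _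
    rw [hv]
    unfold cw
    rw [sub_add_cancel, norm_prod]
    refine Finset.prod_eq_one fun c _ => ?_
    unfold wn
    split_ifs
    · rw [norm_inv, h, inv_one]
    · exact h
  have hcw : ∀ k ∈ X.erase ζ, cw (co M) (fun c => wn n (σ c)) Finset.univ k = -2 := by
    intro k hk
    rw [Finset.mem_erase, hX] at hk
    obtain ⟨hk1, hk2⟩ := hk
    obtain ⟨c, -, rfl⟩ := Finset.mem_image.1 hk2
    have hc : M c ≠ M z := fun h => hk1 (by rw [hζ]; exact (co_eq_iff c z).2 h)
    obtain ⟨j, hj⟩ := hcl c hc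
    unfold cw
    have h4 : Finset.univ.filter (fun c' => co M c' = co M c) =
        Finset.univ.filter (fun c' => M c' = M c) :=
      Finset.filter_congr fun c' _ => co_eq_iff c' c
    rw [h4, prod_wn n hn σ _ j hj]
    norm_num
  rw [← hX]
  have hXi : X = insert ζ (X.erase ζ) := (Finset.insert_erase hζX).symm
  obtain ⟨wr, hwr⟩ : ∃ wr : Finset (Dual (ZMod 2) (Im M)) → ℝ,
      wr = fun U => wt (fo M) (-Real.sqrt (1 / rn n ^ 2)) (ck U) := ⟨_, rfl⟩
  have hwr' : ∀ U, wt (fo M) (-Real.sqrt (1 / rn n ^ 2)) (ck U) = wr U := by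
    intro U
    rw [hwr]
  simp only [hwr']
  have hsum : ∑ U ∈ X.powerset, (∏ k ∈ U, cw (co M) (fun c => wn n (σ c)) Finset.univ k) *
      ((wr U : ℝ) : ℂ) =
      ((∑ U ∈ (X.erase ζ).powerset, (-2) ^ U.card * wr U : ℝ) : ℂ) + (v - 1) *
        ((∑ U ∈ (X.erase ζ).powerset, (-2) ^ U.card * wr (insert ζ U) : ℝ) : ℂ) := by
    have h0 : ∑ U ∈ X.powerset, (∏ k ∈ U, cw (co M) (fun c => wn n (σ c)) Finset.univ k) *
        ((wr U : ℝ) : ℂ) = ∑ U ∈ (insert ζ (X.erase ζ)).powerset,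
          (∏ k ∈ U, cw (co M) (fun c => wn n (σ c)) Finset.univ k) * ((wr U : ℝ) : ℂ) := by
      rw [← hXi]
    rw [h0, Finset.sum_powerset_insert (Finset.notMem_erase _ _)]
    push_cast
    rw [Finset.mul_sum]
    have hp : ∀ U ∈ (X.erase ζ).powerset,
        ∏ k ∈ U, cw (co M) (fun c => wn n (σ c)) Finset.univ k = (-2) ^ U.card := by
      intro U hU
      rw [Finset.prod_congr rfl fun k hk => hcw k (Finset.mem_powerset.1 hU hk),
        Finset.prod_const]
    congr 1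
    · exact Finset.sum_congr rfl fun U hU => by rw [hp U hU]
    · refine Finset.sum_congr rfl fun U hU => ?_
      rw [Finset.prod_insert fun h => Finset.notMem_erase ζ X (Finset.mem_powerset.1 hU h),
        hp U hU, hv]
      ring
  rw [hsum]
  have hfin : 0 < finrank (ZMod 2) (Im M) := by
    rw [Module.finrank_pos_iff_exists_ne_zero]
    by_contra h3
    push Not at h3
    apply hrow z
    funext j
    have h4 := h3 ⟨M.mulVecLin (Pi.single j 1), _, rfl⟩
    have h5 := congrFun (congrArg Subtype.val h4) z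
    have h6 : (M *ᵥ Pi.single j 1) z = M z j := by
      rw [Matrix.mulVec_single_one]
      rfl
    rw [← h6]
    exact h5
  have h0X : (0 : Dual (ZMod 2) (Im M)) ∉ X := by
    rw [hX]
    intro h3
    obtain ⟨c, -, hc⟩ := Finset.mem_image.1 h3
    exact co_ne_zero c (hrow c) hc
  apply circle_two _ _ v hv1
  · have h1 := hUA (Im M) (fo M) (fo_symm hM) (X.erase ζ)
      (fun h => h0X (Finset.mem_of_mem_erase h)) ?_ hfin _ (rn_x n hn)
    · simp only [hwr'] at h1
      exact h1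
    · rw [eq_bot_iff]
      rintro ⟨_, x, rfl⟩ hy
      rw [Submodule.mem_bot]
      apply Subtype.ext
      refine hz x fun c hc => ?_
      exact hy (co M c) (Finset.mem_erase.2 ⟨fun h => hc ((co_eq_iff c z).1 (by rw [h, hζ])),
        by rw [hX]; exact Finset.mem_image_of_mem _ (Finset.mem_univ c)⟩)
  · have h1 := hUA (Im M) (fo M) (fo_symm hM) X h0X ?_ hfin _ (rn_x n hn)
    · simp only [hwr'] at h1
      have h2 : ∑ U ∈ X.powerset, (-2 : ℝ) ^ U.card * wr U =
          ∑ U ∈ (insert ζ (X.erase ζ)).powerset, (-2 : ℝ) ^ U.card * wr U := by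
        rw [← hXi]
      rw [h2, Finset.sum_powerset_insert (Finset.notMem_erase _ _)] at h1
      have h3 : ∑ U ∈ (X.erase ζ).powerset, (-2 : ℝ) ^ (insert ζ U).card * wr (insert ζ U) =
          -(2 * ∑ U ∈ (X.erase ζ).powerset, (-2 : ℝ) ^ U.card * wr (insert ζ U)) := by
        rw [Finset.mul_sum, ← Finset.sum_neg_distrib]
        refine Finset.sum_congr rfl fun U hU => ?_
        rw [Finset.card_insert_of_notMem fun h =>
          Finset.notMem_erase ζ X (Finset.mem_powerset.1 hU h), pow_succ]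
        ring
      rw [h3, ← sub_eq_add_neg] at h1
      exact h1
    · rw [eq_bot_iff]
      intro y hy
      rw [hX, mem_ck] at hy
      rw [Submodule.mem_bot]
      apply Subtype.ext
      funext c
      exact hy c (Finset.mem_univ c)

end

end Pool.Agent.UNI
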