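import Mathlib
import Pool.Agent.UNI.Abs

/-!
# UNI, module Red: deleting crossings
-/

set_option autoImplicit false
set_option linter.unusedSectionVars false

open Module

namespace Pool.Agent.UNI

section

variable {E : Type} [Fintype E] [DecidableEq E]

/-- the kernel of the state `W` on the crossings `Y` -/
def KK (M : Matrix E E (ZMod 2)) (Y W : Finset E) : Submodule (ZMod 2) (E → ZMod 2) where
  carrier := {x | (∀ c, c ∉ Y → x c = 0) ∧ ∀ c ∈ Y, M.mulVec x c + (if c ∈ W then 0 else x c) = 0}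
  add_mem' := fun {a b} ha hb => by
    refine ⟨fun c hc => by rw [Pi.add_apply, ha.1 c hc, hb.1 c hc, add_zero], fun c hc => ?_⟩
    have h1 := ha.2 c hc
    have h2 := hb.2 c hc
    rw [Matrix.mulVec_add, Pi.add_apply, Pi.add_apply]
    split_ifs at h1 h2 ⊢
    · rw [add_zero] at h1 h2 ⊢
      rw [h1, h2, add_zero]
    · linear_combination h1 + h2
  zero_mem' := ⟨fun _ _ => rfl, fun c _ => by rw [Matrix.mulVec_zero]; simp⟩
  smul_mem' := fun r a ha => by
    refine ⟨fun c hc => by rw [Pi.smul_apply, ha.1 c hc, smul_zero], fun c hc => ?_⟩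
    have h1 := ha.2 c hc
    rw [Matrix.mulVec_smul, Pi.smul_apply, Pi.smul_apply, smul_eq_mul, smul_eq_mul]
    split_ifs at h1 ⊢
    · rw [add_zero] at h1 ⊢
      rw [h1, mul_zero]
    · rw [← mul_add, h1, mul_zero]

variable {M : Matrix E E (ZMod 2)}

theorem mem_KK {Y W : Finset E} {x : E → ZMod 2} : x ∈ KK M Y W ↔
    (∀ c, c ∉ Y → x c = 0) ∧ ∀ c ∈ Y, M.mulVec x c + (if c ∈ W then 0 else x c) = 0 := Iff.rfl

/-- one more dimension -/
theorem fr_succ {V : Type} [AddCommGroup V] [Module (ZMod 2) V] [Module.Finite (ZMod 2) V]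
    (K K' : Submodule (ZMod 2) V) (φ : V →ₗ[ZMod 2] ZMod 2) (h : ∀ x, x ∈ K ↔ x ∈ K' ∧ φ x = 0)
    (v : V) (hv : v ∈ K') (hφ : φ v = 1) :
    finrank (ZMod 2) K' = finrank (ZMod 2) K + 1 := by
  have h1 := LinearMap.finrank_range_add_finrank_ker (φ.domRestrict K')
  have h2 : LinearMap.range (φ.domRestrict K') = ⊤ := by
    rw [LinearMap.range_eq_top]
    intro r
    refine ⟨r • ⟨v, hv⟩, ?_⟩
    rw [map_smul, LinearMap.domRestrict_apply, hφ, smul_eq_mul, mul_one]
  have h3 : finrank (ZMod 2) (LinearMap.ker (φ.domRestrict K')) = finrank (ZMod 2) K := by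
    refine LinearEquiv.finrank_eq
      { toFun := fun x => ⟨x.1.1, (h _).2 ⟨x.1.2, x.2⟩⟩
        map_add' := fun _ _ => rfl
        map_smul' := fun _ _ => rfl
        invFun := fun x => ⟨⟨x.1, ((h _).1 x.2).1⟩, ((h _).1 x.2).2⟩
        left_inv := fun _ => rfl
        right_inv := fun _ => rfl }
  rw [h2, finrank_top, finrank_self, h3] at h1
  omega

/-- the rows in terms of the columns in `Y` -/
theorem mulVec_Y (x : E → ZMod 2) (Y : Finset E) (hx : ∀ c, c ∉ Y → x c = 0) (c : E) :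
    M.mulVec x c = ∑ d ∈ Y, M c d * x d := by
  unfold Matrix.mulVec dotProduct
  symm
  apply Finset.sum_subset (Finset.subset_univ Y)
  intro d _ hd
  rw [hx d hd, mul_zero]

/-- the coordinate functional -/
def pc (c : E) : (E → ZMod 2) →ₗ[ZMod 2] ZMod 2 := LinearMap.proj c

theorem pc_apply (c : E) (x : E → ZMod 2) : pc c x = x c := rfl

/-! ### zero rows -/

theorem mulVec_single (c e : E) : M.mulVec (Pi.single c 1) e = M e c := by
  rw [Matrix.mulVec_single_one]
  rfl

theorem mulVec_row {Y : Finset E} {c : E} (h0 : ∀ d ∈ Y, M c d = 0) {x : E → ZMod 2}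
    (hx : ∀ d, d ∉ Y → x d = 0) : M.mulVec x c = 0 := by
  rw [mulVec_Y x Y hx]
  exact Finset.sum_eq_zero fun d hd => by rw [h0 d hd, zero_mul]

theorem KK_row_insert (hM : ∀ i j, M i j = M j i) (Y W : Finset E) (c : E) (hc : c ∈ Y)
    (h0 : ∀ d ∈ Y, M c d = 0) :
    finrank (ZMod 2) (KK M Y (insert c W)) = finrank (ZMod 2) (KK M (Y.erase c) W) + 1 := by
  refine fr_succ _ _ (pc c) (fun x => ?_) (Pi.single c 1) ?_ ?_
  · rw [mem_KK, mem_KK, pc_apply]
    constructor
    · rintro ⟨h1, h2⟩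
      have hY : ∀ d, d ∉ Y → x d = 0 := fun d hd => h1 d fun h => hd (Finset.mem_of_mem_erase h)
      refine ⟨⟨hY, fun d hd => ?_⟩, h1 c (Finset.notMem_erase c Y)⟩
      by_cases hdc : d = c
      · subst hdc
        rw [if_pos (Finset.mem_insert_self _ _), add_zero]
        exact mulVec_row h0 hY
      · have h3 := h2 d (Finset.mem_erase.2 ⟨hdc, hd⟩)
        rwa [if_congr (show d ∈ insert c W ↔ d ∈ W by
          rw [Finset.mem_insert]; exact ⟨fun h => h.resolve_left hdc, Or.inr⟩) rfl rfl]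
    · rintro ⟨⟨h1, h2⟩, h3⟩
      refine ⟨fun d hd => ?_, fun d hd => ?_⟩
      · by_cases hdc : d = c
        · rw [hdc, h3]
        · exact h1 d fun h => hd (Finset.mem_erase.2 ⟨hdc, h⟩)
      · have hdc := Finset.ne_of_mem_erase hd
        have h4 := h2 d (Finset.mem_of_mem_erase hd)
        rwa [if_congr (show d ∈ insert c W ↔ d ∈ W by
          rw [Finset.mem_insert]; exact ⟨fun h => h.resolve_left hdc, Or.inr⟩) rfl rfl] at h4
  · rw [mem_KK]
    refine ⟨fun d hd => ?_, fun d hd => ?_⟩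
    · rw [Pi.single_apply, if_neg]
      rintro rfl
      exact hd hc
    · rw [mulVec_single, hM, h0 d hd, zero_add]
      by_cases hdc : d = c
      · subst hdc
        rw [if_pos (Finset.mem_insert_self _ _)]
      · rw [Pi.single_apply, if_neg hdc]
        split_ifs <;> rfl
  · rw [pc_apply, Pi.single_apply, if_pos rfl]

theorem KK_row (Y W : Finset E) (c : E) (hc : c ∈ Y)
    (h0 : ∀ d ∈ Y, M c d = 0) (hW : W ⊆ Y.erase c) :
    KK M Y W = KK M (Y.erase c) W := by
  ext x
  rw [mem_KK, mem_KK]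
  have hcW : c ∉ W := fun h => Finset.notMem_erase c Y (hW h)
  constructor
  · rintro ⟨h1, h2⟩
    have h3 := h2 c hc
    rw [mulVec_row h0 h1, zero_add, if_neg hcW] at h3
    refine ⟨fun d hd => ?_, fun d hd => h2 d (Finset.mem_of_mem_erase hd)⟩
    by_cases hdc : d = c
    · rw [hdc, h3]
    · exact h1 d fun h => hd (Finset.mem_erase.2 ⟨hdc, h⟩)
  · rintro ⟨h1, h2⟩
    have hY : ∀ d, d ∉ Y → x d = 0 := fun d hd => h1 d fun h => hd (Finset.mem_of_mem_erase h)
    refine ⟨hY, fun d hd => ?_⟩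
    by_cases hdc : d = c
    · subst hdc
      rw [mulVec_row h0 hY, if_neg hcW, h1 d (Finset.notMem_erase d Y), zero_add]
    · exact h2 d (Finset.mem_erase.2 ⟨hdc, hd⟩)

/-! ### twins -/

theorem mulVec_tw {Y : Finset E} {b c : E} (htw : ∀ e ∈ Y, M b e = M c e) {x : E → ZMod 2}
    (hx : ∀ d, d ∉ Y → x d = 0) : M.mulVec x b = M.mulVec x c := by
  rw [mulVec_Y x Y hx, mulVec_Y x Y hx]
  exact Finset.sum_congr rfl fun d hd => by rw [htw d hd]

theorem KK_insert (hM : ∀ i j, M i j = M j i) (Y W : Finset E) (b c : E) (hbY : b ∈ Y) (hcY : c ∈ Y)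
    (htw : ∀ e ∈ Y, M b e = M c e) (hb : b ∈ W) (hc : c ∉ W) :
    finrank (ZMod 2) (KK M Y (insert c W)) = finrank (ZMod 2) (KK M Y W) + 1 := by
  have hbc : b ≠ c := by
    rintro rfl
    exact hc hb
  have hin : ∀ d, d ≠ c → (d ∈ insert c W ↔ d ∈ W) := fun d hd => by
    rw [Finset.mem_insert]
    exact ⟨fun h => h.resolve_left hd, Or.inr⟩
  refine fr_succ _ _ (pc c) (fun x => ?_) (Pi.single b 1 + Pi.single c 1) ?_ ?_
  · rw [mem_KK, mem_KK, pc_apply]
    constructor
    · rintro ⟨h1, h2⟩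
      have h3 := h2 b hbY
      rw [if_pos hb, add_zero, mulVec_tw htw h1] at h3
      have h4 := h2 c hcY
      rw [if_neg hc, h3, zero_add] at h4
      refine ⟨⟨h1, fun d hd => ?_⟩, h4⟩
      by_cases hdc : d = c
      · subst hdc
        rw [if_pos (Finset.mem_insert_self _ _), h3, add_zero]
      · rw [if_congr (hin d hdc) rfl rfl]
        exact h2 d hd
    · rintro ⟨⟨h1, h2⟩, h3⟩
      refine ⟨h1, fun d hd => ?_⟩
      have h4 := h2 d hd
      by_cases hdc : d = c
      · subst hdc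
        rw [if_pos (Finset.mem_insert_self _ _)] at h4
        rw [if_neg hc, h3]
        exact h4
      · rwa [if_congr (hin d hdc) rfl rfl] at h4
  · rw [mem_KK]
    refine ⟨fun d hd => ?_, fun d hd => ?_⟩
    · rw [Pi.add_apply, Pi.single_apply, Pi.single_apply, if_neg, if_neg, add_zero]
      · rintro rfl
        exact hd hcY
      · rintro rfl
        exact hd hbY
    · rw [Matrix.mulVec_add, Pi.add_apply, mulVec_single, mulVec_single, hM d b, hM d c,
        htw d hd, CharTwo.add_self_eq_zero, zero_add]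
      by_cases hd2 : d ∈ insert c W
      · rw [if_pos hd2]
      · rw [if_neg hd2, Pi.add_apply, Pi.single_apply, Pi.single_apply, if_neg, if_neg, add_zero]
        · rintro rfl
          exact hd2 (Finset.mem_insert_self _ _)
        · rintro rfl
          exact hd2 (Finset.mem_insert_of_mem hb)
  · rw [pc_apply, Pi.add_apply, Pi.single_apply, Pi.single_apply, if_neg hbc.symm, if_pos rfl,
      zero_add]

/-- forget the coordinates in `Z` -/
def fg (Z : Finset E) : (E → ZMod 2) →ₗ[ZMod 2] (E → ZMod 2) where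
  toFun x := fun c => if c ∈ Z then 0 else x c
  map_add' x y := by
    funext c
    rw [Pi.add_apply, Pi.add_apply]
    split_ifs <;> simp
  map_smul' r x := by
    funext c
    rw [Pi.smul_apply, Pi.smul_apply, RingHom.id_apply]
    split_ifs <;> simp

/-- recover the coordinates in `Z` -/
def rc (M : Matrix E E (ZMod 2)) (Z : Finset E) (z : E) : (E → ZMod 2) →ₗ[ZMod 2] (E → ZMod 2) where
  toFun x := fun c => if c ∈ Z then M.mulVec x z else x c
  map_add' x y := by
    funext c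
    rw [Pi.add_apply, Pi.add_apply, Matrix.mulVec_add, Pi.add_apply]
    split_ifs <;> rfl
  map_smul' r x := by
    funext c
    rw [Pi.smul_apply, Pi.smul_apply, RingHom.id_apply, Matrix.mulVec_smul, Pi.smul_apply]
    split_ifs <;> rfl

theorem fg_apply (Z : Finset E) (x : E → ZMod 2) (c : E) : fg Z x c = if c ∈ Z then 0 else x c := rfl

theorem rc_apply (Z : Finset E) (z : E) (x : E → ZMod 2) (c : E) :
    rc M Z z x c = if c ∈ Z then M.mulVec x z else x c := rfl

/-- the contributions of an even class cancel -/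
theorem mulVec_even (hM : ∀ i j, M i j = M j i) (Y Z : Finset E)
    (htw : ∀ c ∈ Z, ∀ d ∈ Z, ∀ e ∈ Y, M c e = M d e) (hev : Even Z.card) (x y : E → ZMod 2)
    (t : ZMod 2) (hxy : ∀ c, x c = y c + if c ∈ Z then t else 0) (e : E) (he : e ∈ Y) :
    M.mulVec x e = M.mulVec y e := by
  unfold Matrix.mulVec dotProduct
  simp only [hxy, mul_add, Finset.sum_add_distrib, mul_ite, mul_zero, Finset.sum_ite_mem,
    Finset.univ_inter]
  suffices h : ∑ d ∈ Z, M e d * t = 0 by rw [h, add_zero]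
  rcases Z.eq_empty_or_nonempty with rfl | ⟨z, hz⟩
  · rw [Finset.sum_empty]
  · have h1 : ∀ d ∈ Z, M e d * t = M z e * t := fun d hd => by rw [hM e d, htw d hd z hz e he]
    rw [Finset.sum_congr rfl h1, Finset.sum_const]
    obtain ⟨k, hk⟩ := hev
    rw [hk, add_smul]
    exact CharTwo.add_self_eq_zero _

theorem KK_even (hM : ∀ i j, M i j = M j i) (Y Z W : Finset E) (hZY : Z ⊆ Y)
    (htw : ∀ c ∈ Z, ∀ d ∈ Z, ∀ e ∈ Y, M c e = M d e) (hev : Even Z.card) (hW : W ⊆ Y \ Z) :
    finrank (ZMod 2) (KK M Y W) = finrank (ZMod 2) (KK M (Y \ Z) W) := by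
  rcases Z.eq_empty_or_nonempty with rfl | ⟨z, hz⟩
  · rw [Finset.sdiff_empty]
  have hZW : ∀ c ∈ Z, c ∉ W := fun c hc h => (Finset.mem_sdiff.1 (hW h)).2 hc
  apply le_antisymm
  · refine le_trans (Submodule.finrank_mono fun x hx => ?_) (Submodule.finrank_map_le (rc M Z z) _)
    obtain ⟨h1, h2⟩ := mem_KK.1 hx
    have h3 : ∀ c ∈ Z, x c = M.mulVec x z := by
      intro c hc
      have h4 := h2 c (hZY hc)
      rw [if_neg (hZW c hc), mulVec_tw (htw c hc z hz) h1] at h4
      rw [← CharTwo.sub_eq_add, sub_eq_zero] at h4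
      exact h4.symm
    have h5 : ∀ e ∈ Y, M.mulVec x e = M.mulVec (fg Z x) e := by
      refine mulVec_even hM Y Z htw hev x (fg Z x) (M.mulVec x z) fun c => ?_
      rw [fg_apply]
      by_cases hc : c ∈ Z
      · rw [if_pos hc, if_pos hc, zero_add, h3 c hc]
      · rw [if_neg hc, if_neg hc, add_zero]
    refine ⟨fg Z x, mem_KK.2 ⟨fun c hc => ?_, fun c hc => ?_⟩, ?_⟩
    · rw [fg_apply]
      by_cases hcZ : c ∈ Z
      · rw [if_pos hcZ]
      · rw [if_neg hcZ]
        exact h1 c fun h => hc (Finset.mem_sdiff.2 ⟨h, hcZ⟩)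
    · obtain ⟨hcY, hcZ⟩ := Finset.mem_sdiff.1 hc
      rw [← h5 c hcY, fg_apply, if_neg hcZ]
      exact h2 c hcY
    · funext c
      rw [rc_apply, ← h5 z (hZY hz), fg_apply]
      by_cases hcZ : c ∈ Z
      · rw [if_pos hcZ, h3 c hcZ]
      · rw [if_neg hcZ, if_neg hcZ]
  · refine le_trans (Submodule.finrank_mono fun x hx => ?_) (Submodule.finrank_map_le (fg Z) _)
    obtain ⟨h1, h2⟩ := mem_KK.1 hx
    have h0 : ∀ c ∈ Z, x c = 0 := fun c hc => h1 c fun h => (Finset.mem_sdiff.1 h).2 hc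
    have hY : ∀ c, c ∉ Y → x c = 0 := fun c hc => h1 c fun h => hc (Finset.mem_sdiff.1 h).1
    have h5 : ∀ e ∈ Y, M.mulVec (rc M Z z x) e = M.mulVec x e := by
      refine mulVec_even hM Y Z htw hev _ x (M.mulVec x z) fun c => ?_
      rw [rc_apply]
      by_cases hc : c ∈ Z
      · rw [if_pos hc, if_pos hc, h0 c hc, zero_add]
      · rw [if_neg hc, if_neg hc, add_zero]
    refine ⟨rc M Z z x, mem_KK.2 ⟨fun c hc => ?_, fun c hc => ?_⟩, ?_⟩
    · rw [rc_apply, if_neg fun h => hc (hZY h)]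
      exact hY c hc
    · rw [h5 c hc, rc_apply]
      by_cases hcZ : c ∈ Z
      · rw [if_pos hcZ, if_neg (hZW c hcZ), mulVec_tw (htw c hcZ z hz) hY,
          CharTwo.add_self_eq_zero]
      · rw [if_neg hcZ]
        exact h2 c (Finset.mem_sdiff.2 ⟨hc, hcZ⟩)
    · funext c
      rw [fg_apply, rc_apply]
      by_cases hcZ : c ∈ Z
      · rw [if_pos hcZ, h0 c hcZ]
      · rw [if_neg hcZ, if_neg hcZ]

/-- the state sum on the crossings `Y` -/
noncomputable def GG (M : Matrix E E (ZMod 2)) (a : E → ℂ) (δ : ℂ) (Y : Finset E) : ℂ :=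
  ∑ W ∈ Y.powerset, (∏ c ∈ W, a c) * δ ^ finrank (ZMod 2) (KK M Y W)

theorem GG_row (hM : ∀ i j, M i j = M j i) (a : E → ℂ) (δ : ℂ) (Y : Finset E) (c : E)
    (hc : c ∈ Y) (h0 : ∀ d ∈ Y, M c d = 0) :
    GG M a δ Y = (1 + a c * δ) * GG M a δ (Y.erase c) := by
  unfold GG
  have h1 : ∑ W ∈ Y.powerset, (∏ c ∈ W, a c) * δ ^ finrank (ZMod 2) (KK M Y W) =
      ∑ W ∈ (insert c (Y.erase c)).powerset, (∏ c ∈ W, a c) * δ ^ finrank (ZMod 2) (KK M Y W) := by
    rw [Finset.insert_erase hc]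
  rw [h1, Finset.sum_powerset_insert (Finset.notMem_erase c Y), add_mul, one_mul, Finset.mul_sum]
  congr 1
  · refine Finset.sum_congr rfl fun W hW => ?_
    rw [KK_row Y W c hc h0 (Finset.mem_powerset.1 hW)]
  · refine Finset.sum_congr rfl fun W hW => ?_
    have hcW : c ∉ W := fun h => Finset.notMem_erase c Y (Finset.mem_powerset.1 hW h)
    rw [KK_row_insert hM Y W c hc h0, Finset.prod_insert hcW, pow_succ]
    ring

theorem KK_tw (hM : ∀ i j, M i j = M j i) (Y Z W : Finset E)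
    (hZY : Z ⊆ Y) (htw : ∀ c ∈ Z, ∀ d ∈ Z, ∀ e ∈ Y, M c e = M d e) (hW : W ⊆ Y \ Z)
    (z : E) (hz : z ∈ Z) (B : Finset E) (hB : B ⊆ Z) (hB0 : B.Nonempty) :
    finrank (ZMod 2) (KK M Y (W ∪ B)) + 1 =
      finrank (ZMod 2) (KK M Y (insert z W)) + B.card := by
  have hZW : ∀ c ∈ Z, c ∉ W := fun c hc h => (Finset.mem_sdiff.1 (hW h)).2 hc
  have h1 : ∀ C : Finset E, C ⊆ Z → z ∉ C → finrank (ZMod 2) (KK M Y (W ∪ insert z C)) =
      finrank (ZMod 2) (KK M Y (insert z W)) + C.card := by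
    intro C
    induction C using Finset.induction_on with
    | empty =>
      intro _ _
      have : W ∪ insert z ∅ = insert z W := by
        ext c
        simp only [Finset.mem_union, Finset.mem_insert, Finset.notMem_empty, or_false]
        tauto
      rw [this, Finset.card_empty, add_zero]
    | insert c C hc ih =>
      intro hCZ hzC
      rw [Finset.insert_subset_iff] at hCZ
      rw [Finset.mem_insert, not_or] at hzC
      have h2 : W ∪ insert z (insert c C) = insert c (W ∪ insert z C) := by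
        ext d
        simp only [Finset.mem_union, Finset.mem_insert]
        tauto
      rw [h2, KK_insert hM Y _ z c (hZY hz) (hZY hCZ.1) (htw z hz c hCZ.1)
        (Finset.mem_union_right _ (Finset.mem_insert_self _ _)) ?_, ih hCZ.2 hzC.2,
        Finset.card_insert_of_notMem hc]
      · ring
      · rw [Finset.mem_union, Finset.mem_insert]
        rintro (h | h | h)
        · exact hZW c hCZ.1 h
        · exact hzC.1 h.symm
        · exact hc h
  by_cases hzB : z ∈ B
  · have h2 := h1 (B.erase z) ((Finset.erase_subset _ _).trans hB) (Finset.notMem_erase z B)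
    rw [Finset.insert_erase hzB] at h2
    have h3 := Finset.card_erase_add_one hzB
    omega
  · obtain ⟨b, hb⟩ := hB0
    have h2 := h1 B hB hzB
    have h3 : W ∪ insert z B = insert z (W ∪ B) := by
      ext d
      simp only [Finset.mem_union, Finset.mem_insert]
      tauto
    rw [h3, KK_insert hM Y _ b z (hZY (hB hb)) (hZY hz) (htw b (hB hb) z hz)
      (Finset.mem_union_right _ hb) ?_] at h2
    · exact h2
    · rw [Finset.mem_union]
      rintro (h | h)
      · exact hZW z hz h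
      · exact hzB h

theorem GG_twins (hM : ∀ i j, M i j = M j i) (a : E → ℂ) (δ : ℂ) (hδ : δ ≠ 0) (Y Z : Finset E)
    (hZY : Z ⊆ Y) (htw : ∀ c ∈ Z, ∀ d ∈ Z, ∀ e ∈ Y, M c e = M d e) (hev : Even Z.card)
    (hw : ∏ c ∈ Z, (1 + a c * δ) = 1) : GG M a δ Y = GG M a δ (Y \ Z) := by
  rcases Z.eq_empty_or_nonempty with rfl | ⟨z, hz⟩
  · rw [Finset.sdiff_empty]
  unfold GG
  have hdis : ∀ W ∈ (Y \ Z).powerset, ∀ B ∈ Z.powerset, Disjoint W B := by
    intro W hW B hB
    rw [Finset.mem_powerset] at hW hB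
    exact Finset.disjoint_of_subset_left hW (Finset.disjoint_of_subset_right hB
      Finset.sdiff_disjoint)
  have h1 : ∑ W ∈ Y.powerset, (∏ c ∈ W, a c) * δ ^ finrank (ZMod 2) (KK M Y W) =
      ∑ p ∈ (Y \ Z).powerset ×ˢ Z.powerset,
        (∏ c ∈ p.1 ∪ p.2, a c) * δ ^ finrank (ZMod 2) (KK M Y (p.1 ∪ p.2)) := by
    refine Finset.sum_bij' (fun W _ => (W \ Z, W ∩ Z)) (fun p _ => p.1 ∪ p.2) ?_ ?_ ?_ ?_ ?_
    · intro W hW
      rw [Finset.mem_powerset] at hW
      rw [Finset.mem_product, Finset.mem_powerset, Finset.mem_powerset]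
      exact ⟨Finset.sdiff_subset_sdiff hW (le_refl _), Finset.inter_subset_right⟩
    · intro p hp
      rw [Finset.mem_product, Finset.mem_powerset, Finset.mem_powerset] at hp
      rw [Finset.mem_powerset]
      exact Finset.union_subset (hp.1.trans Finset.sdiff_subset) (hp.2.trans hZY)
    · intro W _
      exact Finset.sdiff_union_inter W Z
    · intro p hp
      rw [Finset.mem_product, Finset.mem_powerset, Finset.mem_powerset] at hp
      have h3 : ∀ c ∈ p.1, c ∉ Z := fun c hc => (Finset.mem_sdiff.1 (hp.1 hc)).2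
      refine Prod.ext ?_ ?_
      · ext c
        have h4 := h3 c
        have h5 : c ∈ p.2 → c ∈ Z := fun h => hp.2 h
        simp only [Finset.mem_sdiff, Finset.mem_union]
        tauto
      · ext c
        have h4 := h3 c
        have h5 : c ∈ p.2 → c ∈ Z := fun h => hp.2 h
        simp only [Finset.mem_inter, Finset.mem_union]
        tauto
    · intro W _
      rw [Finset.sdiff_union_inter W Z]
  rw [h1, Finset.sum_product]
  refine Finset.sum_congr rfl fun W hW => ?_
  have hWY := Finset.mem_powerset.1 hW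
  -- the sum over the subsets of `Z`
  have h2 : ∑ B ∈ Z.powerset, (∏ c ∈ W ∪ B, a c) * δ ^ finrank (ZMod 2) (KK M Y (W ∪ B)) =
      (∏ c ∈ W, a c) * ∑ B ∈ Z.powerset, (∏ c ∈ B, a c) *
        δ ^ finrank (ZMod 2) (KK M Y (W ∪ B)) := by
    rw [Finset.mul_sum]
    refine Finset.sum_congr rfl fun B hB => ?_
    rw [Finset.prod_union (hdis W hW B hB), mul_assoc]
  rw [h2]
  congr 1
  rw [← Finset.add_sum_erase _ _ (Finset.empty_mem_powerset Z), Finset.prod_empty, one_mul,
    Finset.union_empty, KK_even hM Y Z W hZY htw hev hWY]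
  suffices h : ∑ B ∈ Z.powerset.erase ∅, (∏ c ∈ B, a c) *
      δ ^ finrank (ZMod 2) (KK M Y (W ∪ B)) = 0 by rw [h, add_zero]
  have h3 : δ * ∑ B ∈ Z.powerset.erase ∅, (∏ c ∈ B, a c) *
      δ ^ finrank (ZMod 2) (KK M Y (W ∪ B)) = 0 := by
    rw [Finset.mul_sum]
    have h4 : ∀ B ∈ Z.powerset.erase ∅, δ * ((∏ c ∈ B, a c) *
        δ ^ finrank (ZMod 2) (KK M Y (W ∪ B))) =
        δ ^ finrank (ZMod 2) (KK M Y (insert z W)) * ∏ c ∈ B, (a c * δ) := by
      intro B hB
      rw [Finset.mem_erase, Finset.mem_powerset] at hB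
      have h5 := KK_tw hM Y Z W hZY htw hWY z hz B hB.2 (Finset.nonempty_iff_ne_empty.2 hB.1)
      rw [Finset.prod_mul_distrib, Finset.prod_const]
      have h6 : δ * δ ^ finrank (ZMod 2) (KK M Y (W ∪ B)) =
          δ ^ finrank (ZMod 2) (KK M Y (insert z W)) * δ ^ B.card := by
        rw [← pow_succ', h5, pow_add]
      calc δ * ((∏ c ∈ B, a c) * δ ^ finrank (ZMod 2) (KK M Y (W ∪ B))) =
          (∏ c ∈ B, a c) * (δ * δ ^ finrank (ZMod 2) (KK M Y (W ∪ B))) := by ring
        _ = _ := by rw [h6]; ring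
    rw [Finset.sum_congr rfl h4, ← Finset.mul_sum]
    rw [Finset.prod_one_add] at hw
    rw [← Finset.add_sum_erase _ _ (Finset.empty_mem_powerset Z), Finset.prod_empty] at hw
    rw [add_eq_left.1 hw, mul_zero]
  exact (mul_eq_zero.1 h3).resolve_left hδ

end

end Pool.Agent.UNI
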