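import Mathlib
import Pool.Agent.UNI.Red

/-!
# UNI, module Sub: the state sum after deletions
-/

set_option autoImplicit false
set_option linter.unusedSectionVars false

open Module

namespace Pool.Agent.UNI

section

variable {E : Type} [Fintype E] [DecidableEq E]

variable (M : Matrix E E (ZMod 2))

theorem KK_univ (W : Finset E) :
    KK M Finset.univ W = LinearMap.ker (MW M W).mulVecLin := by
  ext x
  rw [mem_KK, mem_ker_MW]
  constructor
  · exact fun h c => h.2 c (Finset.mem_univ c)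
  · exact fun h => ⟨fun c hc => absurd (Finset.mem_univ c) hc, fun c _ => h c⟩

/-- the weights of the crossings -/
noncomputable def an (n : ℕ) (σ : E → Bool) (c : E) : ℂ :=
  (wn n (σ c) - 1) * (((-rn n : ℝ) : ℂ))⁻¹

/-- the state sum is a sum over the sets of crossings -/
theorem stateSum (σ : E → Bool) (n : ℕ) (hn : 4 ≤ n) :
    ∑ s : E → Bool, (∏ c, if s c then An n else (An n)⁻¹) *
      (-(An n) ^ 2 - ((An n)⁻¹) ^ 2) ^
        (finrank (ZMod 2) (LinearMap.ker (SM M σ s).mulVecLin)) =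
    (∏ c : E, (if !σ c then An n else (An n)⁻¹)) *
      GG M (an n σ) ((-rn n : ℝ) : ℂ) Finset.univ := by
  unfold GG
  rw [sum_st σ, Finset.mul_sum]
  refine Finset.sum_congr rfl fun W _ => ?_
  rw [SM_st, An_d, KK_univ]
  have h6 : ∀ c, (if st σ W c then An n else (An n)⁻¹) =
      (if !σ c then An n else (An n)⁻¹) * (if c ∈ W then an n σ c else 1) := by
    intro c
    unfold st
    by_cases hc : c ∈ W
    · rw [if_pos hc, if_pos hc]
      exact ratio n hn (σ c)
    · rw [if_neg hc, if_neg hc, mul_one]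
  rw [Finset.prod_congr rfl fun c _ => h6 c, Finset.prod_mul_distrib,
    Finset.prod_ite_mem, Finset.univ_inter]
  ring

theorem norm_P (σ : E → Bool) (n : ℕ) : ‖∏ c : E, (if !σ c then An n else (An n)⁻¹)‖ = 1 := by
  rw [norm_prod]
  refine Finset.prod_eq_one fun c _ => ?_
  split_ifs
  · exact An_norm n
  · rw [norm_inv, An_norm, inv_one]

/-- the matrix on the crossings of `Y` -/
def sub (Y : Finset E) : Matrix Y Y (ZMod 2) := fun c d => M c d

theorem mulVec_sub (Y : Finset E) (x : E → ZMod 2) (hx : ∀ c, c ∉ Y → x c = 0) (c : Y) :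
    (sub M Y).mulVec (fun d : Y => x d) c = M.mulVec x c := by
  rw [mulVec_Y x Y hx]
  unfold Matrix.mulVec dotProduct sub
  exact Finset.sum_coe_sort Y (fun d => M c d * x d)

theorem KK_sub (Y : Finset E) (W' : Finset Y) :
    finrank (ZMod 2) (KK (sub M Y) Finset.univ W') =
      finrank (ZMod 2) (KK M Y (W'.map (Function.Embedding.subtype _))) := by
  have hW : ∀ c : Y, (c : E) ∈ W'.map (Function.Embedding.subtype _) ↔ c ∈ W' := by
    intro c
    rw [Finset.mem_map]
    constructor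
    · rintro ⟨d, hd, hdc⟩
      rwa [Subtype.ext hdc] at hd
    · exact fun h => ⟨c, h, rfl⟩
  symm
  refine LinearEquiv.finrank_eq
    { toFun := fun x => ⟨fun c : Y => x.1 c, ?_⟩
      map_add' := fun _ _ => rfl
      map_smul' := fun _ _ => rfl
      invFun := fun x => ⟨fun c => if h : c ∈ Y then x.1 ⟨c, h⟩ else 0, ?_⟩
      left_inv := ?_
      right_inv := ?_ }
  · obtain ⟨x, hx⟩ := x
    rw [mem_KK] at hx ⊢
    refine ⟨fun c hc => absurd (Finset.mem_univ c) hc, fun c _ => ?_⟩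
    have h1 := hx.2 c c.2
    rw [if_congr (hW c) rfl rfl] at h1
    rw [mulVec_sub M Y x hx.1]
    exact h1
  · obtain ⟨x, hx⟩ := x
    rw [mem_KK] at hx ⊢
    have h0 : ∀ c, c ∉ Y → (fun c => if h : c ∈ Y then x ⟨c, h⟩ else 0) c = 0 := by
      intro c hc
      beta_reduce
      rw [dif_neg hc]
    refine ⟨h0, fun c hc => ?_⟩
    have h1 := hx.2 ⟨c, hc⟩ (Finset.mem_univ _)
    have h2 := mulVec_sub M Y _ h0 ⟨c, hc⟩
    have h3 : (fun d : Y => (fun c => if h : c ∈ Y then x ⟨c, h⟩ else 0) (d : E)) = x := by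
      funext d
      beta_reduce
      rw [dif_pos d.2]
    rw [h3] at h2
    rw [if_congr (hW ⟨c, hc⟩) rfl rfl, ← h2, dif_pos hc]
    exact h1
  · rintro ⟨x, hx⟩
    apply Subtype.ext
    funext c
    by_cases hc : c ∈ Y
    · exact dif_pos hc
    · exact (dif_neg hc).trans (hx.1 c hc).symm
  · rintro ⟨x, hx⟩
    apply Subtype.ext
    funext c
    exact dif_pos c.2

theorem GG_sub (a : E → ℂ) (δ : ℂ) (Y : Finset E) :
    GG (sub M Y) (fun c => a c) δ Finset.univ = GG M a δ Y := by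
  unfold GG
  refine Finset.sum_bij' (fun W' _ => W'.map (Function.Embedding.subtype _))
    (fun W _ => W.subtype (fun c => c ∈ Y)) ?_ ?_ ?_ ?_ ?_
  · intro W' _
    rw [Finset.mem_powerset]
    intro c hc
    obtain ⟨d, -, rfl⟩ := Finset.mem_map.1 hc
    exact d.2
  · intro W _
    rw [Finset.mem_powerset]
    exact Finset.subset_univ _
  · intro W' _
    ext c
    rw [Finset.mem_subtype, Finset.mem_map]
    constructor
    · rintro ⟨d, hd, hdc⟩
      rwa [Subtype.ext hdc] at hd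
    · exact fun h => ⟨c, h, rfl⟩
  · intro W hW
    rw [Finset.mem_powerset] at hW
    ext c
    rw [Finset.mem_map]
    constructor
    · rintro ⟨d, hd, rfl⟩
      exact Finset.mem_subtype.1 hd
    · exact fun h => ⟨⟨c, hW h⟩, Finset.mem_subtype.2 h, rfl⟩
  · intro W' _
    rw [KK_sub, Finset.prod_map]
    rfl

/-- the sets of crossings which are reached by deletions -/
inductive Red (σ : E → Bool) (m : ℕ) : Finset E → Prop
  | all : Red σ m Finset.univ
  | row (Y : Finset E) (c : E) : Red σ m Y → (∀ d ∈ Y, M c d = 0) → Red σ m (Y.erase c)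
  | twins (Y Z : Finset E) : Red σ m Y → Z ⊆ Y → (∀ c ∈ Z, ∀ d ∈ Z, ∀ e ∈ Y, M c e = M d e) →
      (∃ j : ℤ, ∑ c ∈ Z, (if σ c then (1 : ℤ) else -1) = 2 * j * m) → Red σ m (Y \ Z)

variable {M}

theorem norm_wn (n : ℕ) (b : Bool) : ‖wn n b‖ = 1 := by
  have h : ‖yn n‖ = 1 := Complex.norm_exp_ofReal_mul_I _
  unfold wn
  split_ifs
  · rw [norm_inv, h, inv_one]
  · exact h

theorem one_an (σ : E → Bool) (n : ℕ) (hn : 4 ≤ n) (c : E) :
    1 + an n σ c * ((-rn n : ℝ) : ℂ) = wn n (σ c) := by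
  have hr := rn_pos n hn
  have hd : ((-rn n : ℝ) : ℂ) ≠ 0 := by exact_mod_cast (neg_lt_zero.2 hr).ne
  unfold an
  rw [mul_assoc, inv_mul_cancel₀ hd]
  ring

private theorem Sub_zpow (y : ℂ) (hy : y ≠ 0) (f : E → ℤ) (s : Finset E) :
    ∏ c ∈ s, y ^ (f c) = y ^ (∑ c ∈ s, f c) := by
  induction s using Finset.induction_on with
  | empty => simp
  | insert a s ha ih => rw [Finset.prod_insert ha, Finset.sum_insert ha, zpow_add₀ hy, ih]

/-- the product of the weights over an even class -/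
theorem prod_wn_even (n : ℕ) (hn : 4 ≤ n) (σ : E → Bool) (s : Finset E) (j : ℤ)
    (h : ∑ c ∈ s, (if σ c then (1 : ℤ) else -1) = 2 * j * n) :
    ∏ c ∈ s, wn n (σ c) = 1 := by
  have hy := yn_ne n
  have h1 : ∀ c ∈ s, wn n (σ c) = yn n ^ (-(if σ c then (1 : ℤ) else -1)) := by
    intro c _
    unfold wn
    cases σ c <;> simp
  rw [Finset.prod_congr rfl h1, Sub_zpow _ hy, Finset.sum_neg_distrib, h, _root_.zpow_neg,
    mul_comm, _root_.zpow_mul, _root_.zpow_natCast, yn_pow n (by omega)]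
  have h3 : (-1 : ℂ) ^ (2 * j) = 1 := by
    rw [_root_.zpow_mul]
    norm_num
  rw [h3, inv_one]

theorem even_card (σ : E → Bool) (s : Finset E) :
    Even (∑ c ∈ s, (if σ c then (1 : ℤ) else -1)) ↔ Even s.card := by
  induction s using Finset.induction_on with
  | empty => simp
  | insert a s ha ih =>
    rw [Finset.sum_insert ha, Finset.card_insert_of_notMem ha, Nat.even_add_one, ← ih,
      Int.even_add]
    split_ifs <;> simp [Int.even_iff]

theorem norm_red (hM : ∀ i j, M i j = M j i) (σ : E → Bool) (n : ℕ) (hn : 4 ≤ n) (Y : Finset E)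
    (h : Red M σ n Y) : ‖GG M (an n σ) ((-rn n : ℝ) : ℂ) Y‖ =
      ‖GG M (an n σ) ((-rn n : ℝ) : ℂ) Finset.univ‖ := by
  have hr := rn_pos n hn
  have hd : ((-rn n : ℝ) : ℂ) ≠ 0 := by exact_mod_cast (neg_lt_zero.2 hr).ne
  induction h with
  | all => rfl
  | row Y c _ h0 ih =>
    by_cases hc : c ∈ Y
    · rw [← ih, GG_row hM _ _ Y c hc h0, norm_mul, one_an σ n hn, norm_wn, one_mul]
    · rw [Finset.erase_eq_of_notMem hc, ih]
  | twins Y Z _ hZ htw hj ih =>
    obtain ⟨j, hj⟩ := hj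
    rw [← ih, GG_twins hM _ _ hd Y Z hZ htw]
    · rw [← even_card σ, hj, mul_assoc]
      exact even_two_mul _
    · rw [Finset.prod_congr rfl fun c _ => one_an σ n hn c]
      exact prod_wn_even n hn σ Z j hj

/-- **the state sum, if a uniform set of crossings is reached by deletions** -/
theorem subSum (hUA : St_UA) (hM : ∀ i j, M i j = M j i) (σ : E → Bool) (n : ℕ) (hn : 4 ≤ n)
    (Y : Finset E) (hY : Y.Nonempty) (hred : Red M σ n Y) (hrow : ∀ c ∈ Y, ∃ d ∈ Y, M c d ≠ 0)
    (hcl : ∀ c ∈ Y, ∀ S : Finset E, (∀ d, d ∈ S ↔ d ∈ Y ∧ ∀ e ∈ Y, M c e = M d e) →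
      ∃ j : ℤ, ∑ c' ∈ S, (if σ c' then (1 : ℤ) else -1) = (2 * j + 1) * n) :
    Real.sqrt 2 ≤ ‖∑ s : E → Bool, (∏ c, if s c then An n else (An n)⁻¹) *
      (-(An n) ^ 2 - ((An n)⁻¹) ^ 2) ^
        (finrank (ZMod 2) (LinearMap.ker (SM M σ s).mulVecLin))‖ := by
  classical
  rw [stateSum M σ n hn, norm_mul, norm_P, one_mul, ← norm_red hM σ n hn Y hred,
    ← GG_sub M (an n σ) _ Y]
  have : Nonempty Y := ⟨⟨hY.choose, hY.choose_spec⟩⟩
  have h1 := absSum hUA (E := Y) (M := sub M Y) (fun i j => hM i j) ?_ (fun c => σ c) n hn ?_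
  · rw [stateSum (sub M Y) (fun c => σ c) n hn, norm_mul, norm_P, one_mul] at h1
    exact h1
  · intro c hc
    obtain ⟨d, hd, hcd⟩ := hrow c c.2
    exact hcd (congrFun hc ⟨d, hd⟩)
  · intro c
    obtain ⟨j, hj⟩ := hcl c c.2 (Y.filter fun d => ∀ e ∈ Y, M c e = M d e) fun d => by
      rw [Finset.mem_filter]
    refine ⟨j, ?_⟩
    rw [← hj]
    refine Finset.sum_bij (fun d _ => (d : E)) ?_ ?_ ?_ ?_
    · intro d hd
      have h2 : sub M Y d = sub M Y c := by
        simpa only [Finset.mem_filter, Finset.mem_univ, true_and] using hd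
      rw [Finset.mem_filter]
      exact ⟨d.2, fun e he => (congrFun h2 ⟨e, he⟩).symm⟩
    · exact fun a _ b _ h => Subtype.ext h
    · intro d hd
      rw [Finset.mem_filter] at hd
      refine ⟨⟨d, hd.1⟩, ?_, rfl⟩
      simp only [Finset.mem_filter, Finset.mem_univ, true_and]
      funext e
      exact (hd.2 e e.2).symm
    · exact fun _ _ => rfl

end

end Pool.Agent.UNI
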