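import Mathlib
import Pool.Agent.UNI.Sub
import Pool.Agent.UNI.One

/-!
# UNI, module SubOne: one arbitrary class, after deletions
-/

set_option autoImplicit false
set_option linter.unusedSectionVars false

open Module

namespace Pool.Agent.UNI

section

variable {E : Type} [Fintype E] [DecidableEq E] {M : Matrix E E (ZMod 2)}

/-- **the state sum, if a set of crossings uniform apart from one class is reached by deletions** -/
theorem subSum1 (hUA : St_UA) (hM : ∀ i j, M i j = M j i) (σ : E → Bool) (n : ℕ) (hn : 4 ≤ n)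
    (Y : Finset E) (hred : Red M σ n Y) (hrow : ∀ c ∈ Y, ∃ d ∈ Y, M c d ≠ 0)
    (z : E) (hzY : z ∈ Y) (W : Finset E) (hW : ∀ w ∈ W, w ∈ Y ∧ ¬ ∀ e ∈ Y, M z e = M w e)
    (hz : ∀ e ∈ Y, M z e = ∑ w ∈ W, M w e)
    (hcl : ∀ c ∈ Y, (¬ ∀ e ∈ Y, M z e = M c e) →
      ∀ S : Finset E, (∀ d, d ∈ S ↔ d ∈ Y ∧ ∀ e ∈ Y, M c e = M d e) →
      ∃ j : ℤ, ∑ c' ∈ S, (if σ c' then (1 : ℤ) else -1) = (2 * j + 1) * n) :
    Real.sqrt 2 ≤ ‖∑ s : E → Bool, (∏ c, if s c then An n else (An n)⁻¹) *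
      (-(An n) ^ 2 - ((An n)⁻¹) ^ 2) ^
        (finrank (ZMod 2) (LinearMap.ker (SM M σ s).mulVecLin))‖ := by
  classical
  rw [stateSum M σ n hn, norm_mul, norm_P, one_mul, ← norm_red hM σ n hn Y hred,
    ← GG_sub M (an n σ) _ Y]
  have hne : ∀ c : Y, sub M Y c ≠ sub M Y ⟨z, hzY⟩ → ¬ ∀ e ∈ Y, M z e = M c e := by
    intro c h h1
    apply h
    funext e
    exact (h1 e e.2).symm
  have h1 := absSum1 hUA (E := Y) (M := sub M Y) (fun i j => hM i j) ?_ (fun c => σ c) n hn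
    ⟨z, hzY⟩ ?_ ?_
  · rw [stateSum (sub M Y) (fun c => σ c) n hn, norm_mul, norm_P, one_mul] at h1
    exact h1
  · intro c hc
    obtain ⟨d, hd, hcd⟩ := hrow c c.2
    exact hcd (congrFun hc ⟨d, hd⟩)
  · intro x hx
    have h2 : (sub M Y).mulVec x ⟨z, hzY⟩ = 0 := by
      have h3 : (sub M Y).mulVec x ⟨z, hzY⟩ = ∑ w ∈ W, ∑ e : Y, M w e * x e := by
        rw [Finset.sum_comm]
        unfold Matrix.mulVec dotProduct sub
        refine Finset.sum_congr rfl fun e _ => ?_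
        show M z (e : E) * x e = ∑ w ∈ W, M w (e : E) * x e
        rw [hz e e.2, Finset.sum_mul]
      rw [h3]
      refine Finset.sum_eq_zero fun w hw => ?_
      obtain ⟨hwY, hzw⟩ := hW w hw
      refine hx ⟨w, hwY⟩ fun h4 => hzw fun e he => ?_
      exact (congrFun h4 ⟨e, he⟩).symm
    funext c
    by_cases hc : sub M Y c = sub M Y ⟨z, hzY⟩
    · have h3 : (sub M Y).mulVec x c = (sub M Y).mulVec x ⟨z, hzY⟩ := by
        show sub M Y c ⬝ᵥ x = sub M Y ⟨z, hzY⟩ ⬝ᵥ x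
        rw [hc]
      rw [h3, h2]
      rfl
    · exact hx c hc
  · intro c hc
    obtain ⟨j, hj⟩ := hcl c c.2 (hne c hc) (Y.filter fun d => ∀ e ∈ Y, M c e = M d e) fun d => by
      rw [Finset.mem_filter]
    refine ⟨j, ?_⟩
    rw [← hj]
    refine Finset.sum_bij (fun d _ => (d : E)) ?_ ?_ ?_ ?_
    · intro d hd
      have h2 : sub M Y d = sub M Y c := by
        simpa only [Finset.mem_filter, Finset.mem_univ, true_and] using hd
      rw [Finset.mem_filter]
      exact ⟨d.2, fun e he => (congrFun h2 ⟨e, he⟩).symm⟩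
    · exact fun a _ b _ h => Subtype.ext h
    · intro d hd
      rw [Finset.mem_filter] at hd
      refine ⟨⟨d, hd.1⟩, ?_, rfl⟩
      simp only [Finset.mem_filter, Finset.mem_univ, true_and]
      funext e
      exact (hd.2 e e.2).symm
    · exact fun _ _ => rfl

end

end Pool.Agent.UNI
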