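import Mathlib

/-!
# UNI: deleting crossings

`R` is a symmetric relation on the crossings `0, …, n-1` (the pairs at which the cut matrix of a state
`σ` is `1`), `σ` the state (`true`: `A`-smoothing, `false`: `B`-smoothing) and `m` a number.
-/

set_option autoImplicit false

namespace Pool.Agent.UNI

variable {n : ℕ}

/-- The number of the crossings in `S` at which `σ` is the `A`-smoothing, minus the number of those
at which it is the `B`-smoothing. -/
def signedCount (σ : Fin n → Bool) (S : Finset (Fin n)) : ℤ := ∑ c ∈ S, if σ c then 1 else -1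

/-- `c` and `d` are twins on `Y`: the rows `c` and `d` agree on `Y`. -/
def TwinsOn (R : Fin n → Fin n → Prop) (Y : Finset (Fin n)) (c d : Fin n) : Prop :=
  ∀ e ∈ Y, R c e ↔ R d e

/-- The sets of crossings which are reached, starting from the set of all crossings, by deletions:
a crossing with zero row may be deleted, and a set of twins whose signed count is divisible by
`2m`. -/
inductive Reached (R : Fin n → Fin n → Prop) (σ : Fin n → Bool) (m : ℕ) : Finset (Fin n) → Prop
  | all : Reached R σ m Finset.univ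
  | isolated (Y : Finset (Fin n)) (c : Fin n) : Reached R σ m Y → (∀ d ∈ Y, ¬ R c d) →
      Reached R σ m (Y.erase c)
  | twins (Y Z : Finset (Fin n)) : Reached R σ m Y → Z ⊆ Y →
      (∀ c ∈ Z, ∀ d ∈ Z, TwinsOn R Y c d) → (∃ j : ℤ, signedCount σ Z = 2 * j * m) →
      Reached R σ m (Y \ Z)

/-- `Y` is not empty, no row is zero on `Y`, and the signed count of every class of twins on `Y` is
an odd multiple of `m`, except possibly for one class `Z` (possibly empty), which may be arbitrary if
its row is on `Y` the sum modulo `2` of the rows of some crossings in `Y` outside `Z`. -/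
def Uniform (R : Fin n → Fin n → Prop) (σ : Fin n → Bool) (m : ℕ) (Y Z : Finset (Fin n)) : Prop :=
  Y.Nonempty ∧ Z ⊆ Y ∧ (∀ c ∈ Y, ∃ d ∈ Y, R c d) ∧
    (∀ c ∈ Y, c ∉ Z → ∀ S : Finset (Fin n), (∀ d, d ∈ S ↔ d ∈ Y ∧ TwinsOn R Y c d) →
      ∃ j : ℤ, signedCount σ S = (2 * j + 1) * m) ∧
    (∀ c ∈ Z, ∀ d ∈ Z, TwinsOn R Y c d) ∧
    ∀ c ∈ Z, ∃ W ⊆ Y \ Z, ∀ e ∈ Y, (R c e ↔ Odd {w | w ∈ W ∧ R w e}.ncard)

/-- The signed count of every class of twins on `Y` with nonzero row is divisible by `m`. -/
def Divisible (R : Fin n → Fin n → Prop) (σ : Fin n → Bool) (m : ℕ) (Y : Finset (Fin n)) : Prop :=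
  ∀ c ∈ Y, (∃ d ∈ Y, R c d) → ∀ S : Finset (Fin n), (∀ d, d ∈ S ↔ d ∈ Y ∧ TwinsOn R Y c d) →
    ∃ j : ℤ, signedCount σ S = j * m

end Pool.Agent.UNI
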