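import Mathlib
import Pool.Agent.UNI.Del

/-!
# UNI, module Term: the deletions end in the empty set or in a uniform set
-/

set_option autoImplicit false

namespace Pool.Agent.UNI

variable {n : ℕ} {R : Fin n → Fin n → Prop} {σ : Fin n → Bool} {m : ℕ}

open Classical in
/-- the twins of `c` on `Y` -/
noncomputable def cls (R : Fin n → Fin n → Prop) (Y : Finset (Fin n)) (c : Fin n) :
    Finset (Fin n) := Y.filter fun d => TwinsOn R Y c d

theorem mem_cls (Y : Finset (Fin n)) (c d : Fin n) :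
    d ∈ cls R Y c ↔ d ∈ Y ∧ TwinsOn R Y c d := by
  simp only [cls, Finset.mem_filter]

theorem TwinsOn.symm {Y : Finset (Fin n)} {c d : Fin n} (h : TwinsOn R Y c d) :
    TwinsOn R Y d c := fun e he => (h e he).symm

theorem TwinsOn.trans {Y : Finset (Fin n)} {c d e : Fin n} (h : TwinsOn R Y c d)
    (h' : TwinsOn R Y d e) : TwinsOn R Y c e := fun x hx => (h x hx).trans (h' x hx)

theorem div_row (hR : ∀ c d, R c d → R d c) (Y : Finset (Fin n)) (c : Fin n)
    (h : Divisible R σ m Y) (h0 : ∀ d ∈ Y, ¬ R c d) : Divisible R σ m (Y.erase c) := by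
  intro d hd hrow S hS
  obtain ⟨x, hx, hdx⟩ := hrow
  have hx' := Finset.mem_of_mem_erase hx
  refine h d (Finset.mem_of_mem_erase hd) ⟨x, hx', hdx⟩ S fun y => ?_
  rw [hS, Finset.mem_erase]
  constructor
  · rintro ⟨⟨hyc, hy⟩, ht⟩
    refine ⟨hy, fun e he => ?_⟩
    by_cases hec : e = c
    · subst hec
      exact ⟨fun h1 => absurd (hR _ _ h1) (h0 d (Finset.mem_of_mem_erase hd)),
        fun h1 => absurd (hR _ _ h1) (h0 y hy)⟩
    · exact ht e (Finset.mem_erase.2 ⟨hec, he⟩)
  · rintro ⟨hy, ht⟩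
    refine ⟨⟨?_, hy⟩, fun e he => ht e (Finset.mem_of_mem_erase he)⟩
    rintro rfl
    exact h0 x hx' ((ht x hx').1 hdx)

theorem div_cls (Y : Finset (Fin n)) (c : Fin n) (h : Divisible R σ m Y) :
    Divisible R σ m (Y \ cls R Y c) := by
  classical
  intro d hd hrow S hS
  obtain ⟨x, hx, hdx⟩ := hrow
  have hsum : signedCount σ S = ∑ k ∈ S.image (fun t => Y.filter fun e => R t e),
      ∑ t ∈ S.filter (fun t => (Y.filter fun e => R t e) = k), (if σ t then (1 : ℤ) else -1) := by
    unfold signedCount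
    exact (Finset.sum_fiberwise_of_maps_to (fun t ht => Finset.mem_image_of_mem _ ht) _).symm
  suffices h1 : (m : ℤ) ∣ signedCount σ S by
    obtain ⟨j, hj⟩ := h1
    exact ⟨j, by rw [hj, mul_comm]⟩
  rw [hsum]
  refine Finset.dvd_sum fun k hk => ?_
  obtain ⟨t, ht, rfl⟩ := Finset.mem_image.1 hk
  have ht' := (hS t).1 ht
  have htY := (Finset.mem_sdiff.1 ht'.1).1
  have htc : ¬ TwinsOn R Y c t := fun h2 => (Finset.mem_sdiff.1 ht'.1).2 ((mem_cls Y c t).2 ⟨htY, h2⟩)
  obtain ⟨j, hj⟩ := h t htY ⟨x, (Finset.mem_sdiff.1 hx).1, (ht'.2 x hx).1 hdx⟩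
    (S.filter fun t' => (Y.filter fun e => R t' e) = Y.filter fun e => R t e) fun y => by
      rw [Finset.mem_filter, hS]
      have h3 : ((Y.filter fun e => R y e) = Y.filter fun e => R t e) ↔ TwinsOn R Y t y := by
        rw [Finset.ext_iff]
        constructor
        · intro h4 e he
          have h5 := h4 e
          rw [Finset.mem_filter, Finset.mem_filter] at h5
          tauto
        · intro h4 e
          rw [Finset.mem_filter, Finset.mem_filter]
          have h5 := h4 e
          tauto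
      rw [h3]
      constructor
      · rintro ⟨⟨h4, -⟩, h5⟩
        exact ⟨(Finset.mem_sdiff.1 h4).1, h5⟩
      · rintro ⟨h4, h5⟩
        refine ⟨⟨Finset.mem_sdiff.2 ⟨h4, fun h6 => ?_⟩, fun e he => ?_⟩, h5⟩
        · exact htc (((mem_cls Y c y).1 h6).2.trans h5.symm)
        · exact (ht'.2 e he).trans (h5 e (Finset.mem_sdiff.1 he).1)
  exact ⟨j, by rw [mul_comm]; exact hj⟩

/-- the deletions end in the empty set or in a uniform set -/
theorem exists_uniform (hR : ∀ c d, R c d → R d c) : ∀ (k : ℕ) (Y : Finset (Fin n)), Y.card = k →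
    Reached R σ m Y → Divisible R σ m Y →
    Reached R σ m ∅ ∨ ∃ Y', Reached R σ m Y' ∧ Uniform R σ m Y' ∅ := by
  intro k
  induction k using Nat.strong_induction_on with
  | _ k ih =>
    intro Y hk hY hdiv
    rcases Y.eq_empty_or_nonempty with rfl | hne
    · exact Or.inl hY
    by_cases h1 : ∃ c ∈ Y, ∀ d ∈ Y, ¬ R c d
    · obtain ⟨c, hc, h0⟩ := h1
      refine ih (Y.erase c).card ?_ (Y.erase c) rfl (Reached.isolated Y c hY h0)
        (div_row hR Y c hdiv h0)
      rw [← hk]
      exact Finset.card_erase_lt_of_mem hc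
    push Not at h1
    by_cases h2 : ∃ c ∈ Y, ∃ j : ℤ, signedCount σ (cls R Y c) = 2 * j * m
    · obtain ⟨c, hc, hj⟩ := h2
      have hsub : cls R Y c ⊆ Y := fun d hd => ((mem_cls Y c d).1 hd).1
      have hmem : c ∈ cls R Y c := (mem_cls Y c c).2 ⟨hc, fun _ _ => Iff.rfl⟩
      refine ih (Y \ cls R Y c).card ?_ (Y \ cls R Y c) rfl
        (Reached.twins Y _ hY hsub (fun a ha b hb => ?_) hj) (div_cls Y c hdiv)
      · rw [← hk]
        exact Finset.card_lt_card (Finset.sdiff_ssubset hsub ⟨c, hmem⟩)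
      · exact ((mem_cls Y c a).1 ha).2.symm.trans ((mem_cls Y c b).1 hb).2
    push Not at h2
    refine Or.inr ⟨Y, hY, hne, Finset.empty_subset Y, h1, fun c hc _ S hS => ?_,
      fun c hc => absurd hc (Finset.notMem_empty c), fun c hc => absurd hc (Finset.notMem_empty c)⟩
    obtain ⟨j, hj⟩ := hdiv c hc (h1 c hc) S hS
    have hSc : S = cls R Y c := by
      ext d
      rw [hS, mem_cls]
    rcases Int.even_or_odd' j with ⟨i, hi | hi⟩
    · exact absurd (by rw [← hSc, hj, hi]) (h2 c hc i)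
    · exact ⟨i, by rw [hj, hi]⟩

end Pool.Agent.UNI
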