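import Mathlib
import Pool.Agent.UNI.SubOne
import Pool.Agent.UNI.Term
import Pool.Agent.UNI.Knot

/-!
# UNI, module Fin: the theorems with deletions
-/

set_option autoImplicit false

open Module LaurentPolynomial

namespace Pool.Agent.UNI

open Pool.Agent.GaussJones Pool.Agent.Helper16.Knotoid

/-- a Laurent polynomial which is not `1` -/
theorem core2 {E : Type} [Fintype E] [DecidableEq E] (n : ℕ) (M : Matrix E E (ZMod 2))
    (σ : E → Bool)
    (h3 : Real.sqrt 2 ≤ ‖∑ s : E → Bool, (∏ c, if s c then An n else (An n)⁻¹) *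
      (-(An n) ^ 2 - ((An n)⁻¹) ^ 2) ^
        (finrank (ZMod 2) (LinearMap.ker (SM M σ s).mulVecLin))‖)
    (F : (E → Bool) → ℕ)
    (hF : ∀ s, F s = 1 + finrank (ZMod 2) (LinearMap.ker (SM M σ s).mulVecLin))
    (w : ℤ) (k : ℕ) :
    (-1 : LaurentPolynomial ℤ) ^ k * T w *
      ∑ s : E → Bool, T (∑ c, if s c then (1 : ℤ) else -1) * (-T 2 - T (-2)) ^ (F s - 1) ≠ 1 := by
  intro h
  have h1 := congrArg (fun x => ‖ev n x‖) h
  beta_reduce at h1
  rw [map_mul, map_mul, map_pow, map_neg, map_one, ev_T, norm_mul, norm_mul, norm_pow, norm_neg,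
    norm_one, one_pow, one_mul, norm_zpow, An_norm, one_zpow, one_mul, map_sum] at h1
  have h2 : ∀ s : E → Bool,
      ev n (T (∑ c, if s c then (1 : ℤ) else -1) * (-T 2 - T (-2)) ^ (F s - 1)) =
      (∏ c, if s c then An n else (An n)⁻¹) * (-(An n) ^ 2 - ((An n)⁻¹) ^ 2) ^
        finrank (ZMod 2) (LinearMap.ker (SM M σ s).mulVecLin) := by
    intro s
    rw [map_mul, map_pow, map_sub, map_neg, ev_T, ev_T, ev_T, zpow_ssum _ _ (An_ne n), hF,
      Nat.add_sub_cancel_left, zpow_neg, inv_pow]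
    rfl
  rw [Finset.sum_congr rfl fun s _ => h2 s] at h1
  rw [h1] at h3
  have h4 : (1 : ℝ) < Real.sqrt 2 := by
    rw [Real.lt_sqrt] <;> norm_num
  exact absurd h3 (not_le.2 h4)

variable {n : ℕ}

theorem cut_zero (D : GaussDiagram n) (σ : Fin n → Bool) (c d : Fin n) :
    ¬ D.Cut σ c d ↔ D.gmat σ c d = 0 := by
  rw [cut_iff]
  generalize D.gmat σ c d = a
  revert a
  decide

theorem cut_symm (D : GaussDiagram n) (σ : Fin n → Bool) (c d : Fin n) (h : D.Cut σ c d) :
    D.Cut σ d c := by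
  rw [cut_iff] at h ⊢
  rw [D.gmat_symm, h]

theorem twinsOn_iff (D : GaussDiagram n) (σ : Fin n → Bool) (Y : Finset (Fin n)) (c d : Fin n) :
    TwinsOn (D.Cut σ) Y c d ↔ ∀ e ∈ Y, D.gmat σ c e = D.gmat σ d e := by
  unfold TwinsOn
  simp only [cut_iff]
  exact forall₂_congr fun e _ => ⟨zmod2_ext, fun h => by rw [h]⟩

theorem red_of_reached (D : GaussDiagram n) (σ : Fin n → Bool) (m : ℕ) (Y : Finset (Fin n))
    (h : Reached (D.Cut σ) σ m Y) : Red (D.gmat σ) σ m Y := by
  induction h with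
  | all => exact Red.all
  | isolated Y c _ h0 ih => exact Red.row Y c ih fun d hd => (cut_zero D σ c d).1 (h0 d hd)
  | twins Y Z _ hZ htw hj ih =>
    exact Red.twins Y Z ih hZ (fun c hc d hd => (twinsOn_iff D σ Y c d).1 (htw c hc d hd)) hj

theorem gmat_ite (D : GaussDiagram n) (σ : Fin n → Bool) (c d : Fin n) [Decidable (D.Cut σ c d)] :
    D.gmat σ c d = if D.Cut σ c d then 1 else 0 := by
  by_cases h : D.Cut σ c d
  · rw [if_pos h, (cut_iff D σ c d).1 h]
  · rw [if_neg h, (cut_zero D σ c d).1 h]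

theorem sum_odd (D : GaussDiagram n) (σ : Fin n → Bool) (W : Finset (Fin n)) (c e : Fin n)
    (h : D.Cut σ c e ↔ Odd {w | w ∈ W ∧ D.Cut σ w e}.ncard) :
    D.gmat σ c e = ∑ w ∈ W, D.gmat σ w e := by
  classical
  have h1 : ∑ w ∈ W, D.gmat σ w e = ((W.filter fun w => D.Cut σ w e).card : ZMod 2) := by
    rw [Finset.sum_congr rfl fun w _ => gmat_ite D σ w e, Finset.sum_boole]
  have h2 : {w | w ∈ W ∧ D.Cut σ w e}.ncard = (W.filter fun w => D.Cut σ w e).card := by
    rw [← Set.ncard_coe_finset]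
    congr 1
    ext w
    simp
  rw [h2] at h
  rw [h1, gmat_ite]
  by_cases h3 : Odd (W.filter fun w => D.Cut σ w e).card
  · rw [if_pos (h.2 h3)]
    exact (ZMod.natCast_eq_one_iff_odd.2 h3).symm
  · rw [if_neg fun h4 => h3 (h.1 h4)]
    rw [Nat.not_odd_iff_even] at h3
    exact (ZMod.natCast_eq_zero_iff_even.2 h3).symm

/-- **Knotoid diagrams with uniform twists, after deletions** -/
theorem knotoidDel (hUA : St_UA) (D : GaussDiagram n) (σ : Fin n → Bool) (m : ℕ) (hm : 4 ≤ m)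
    (Y : Finset (Fin n)) (hY : Reached (D.Cut σ) σ m Y) :
    (∀ Z, Uniform (D.Cut σ) σ m Y Z → D.normalizedBracket ≠ 1) ∧
      (Divisible (D.Cut σ) σ m Y → D.normalizedBracket = 1 → Reached (D.Cut σ) σ m ∅) := by
  have main : ∀ Y Z, Reached (D.Cut σ) σ m Y → Uniform (D.Cut σ) σ m Y Z →
      D.normalizedBracket ≠ 1 := by
    rintro Y Z hY ⟨h1, h2, h3, h4, h5, h6⟩
    have hred := red_of_reached D σ m Y hY
    have hrow : ∀ c ∈ Y, ∃ d ∈ Y, D.gmat σ c d ≠ 0 := by
      intro c hc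
      obtain ⟨d, hd, hcd⟩ := h3 c hc
      refine ⟨d, hd, ?_⟩
      rw [(cut_iff D σ c d).1 hcd]
      decide
    unfold GaussDiagram.normalizedBracket GaussDiagram.bracket GaussDiagram.stateSign
    refine core2 m (D.gmat σ) σ ?_ D.comps (fun s => by rw [D.comps_eq, ← gmat_SM]) _ _
    by_cases hZ : ∃ z ∈ Z, ∀ c ∈ Y, c ∉ Z → ¬ TwinsOn (D.Cut σ) Y z c
    · obtain ⟨z, hz, hzc⟩ := hZ
      obtain ⟨W, hWY, hW⟩ := h6 z hz
      refine subSum1 hUA (D.gmat_symm σ) σ m hm Y hred hrow z (h2 hz) W (fun w hw => ?_)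
        (fun e he => sum_odd D σ W z e (hW e he)) ?_
      · obtain ⟨hw1, hw2⟩ := Finset.mem_sdiff.1 (hWY hw)
        refine ⟨hw1, ?_⟩
        rw [← twinsOn_iff]
        exact hzc w hw1 hw2
      · intro c hc hcz S hS
        rw [← twinsOn_iff] at hcz
        exact h4 c hc (fun h => hcz (h5 z hz c h)) S fun d => by rw [hS, twinsOn_iff]
    · push Not at hZ
      refine subSum hUA (D.gmat_symm σ) σ m hm Y h1 hred hrow fun c hc S hS => ?_
      by_cases hcZ : c ∈ Z
      · obtain ⟨d, hd, hdZ, hcd⟩ := hZ c hcZ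
        refine h4 d hd hdZ S fun x => ?_
        rw [hS, ← twinsOn_iff]
        exact and_congr_right fun _ => ⟨fun h => hcd.symm.trans h, fun h => hcd.trans h⟩
      · exact h4 c hc hcZ S fun d => by rw [hS, twinsOn_iff]
  refine ⟨fun Z => main Y Z hY, fun hdiv hf => ?_⟩
  rcases exists_uniform (cut_symm D σ) _ Y rfl hY hdiv with h | ⟨Y', h1, h2⟩
  · exact h
  · exact absurd hf (main Y' ∅ h1 h2)

/-- **Knot diagrams with uniform twists, after deletions** -/
theorem knotDel (hUA : St_UA) (g : Code n) (e σ : Fin n → Bool) (m : ℕ) (hm : 4 ≤ m)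
    (Y : Finset (Fin n)) (hY : Reached (GaussJones.Cut g e σ) σ m Y) :
    (∀ Z, Uniform (GaussJones.Cut g e σ) σ m Y Z → fPoly g e ≠ 1) ∧
      (Divisible (GaussJones.Cut g e σ) σ m Y → fPoly g e = 1 →
        Reached (GaussJones.Cut g e σ) σ m ∅) := by
  have h1 : GaussJones.Cut g e σ = (cutOpen g e).Cut σ := by
    funext i j
    exact propext (cut_closed g e σ i j)
  rcases Nat.eq_zero_or_pos n with rfl | hn
  · constructor
    · rintro Z ⟨⟨c, _⟩, _⟩
      exact c.elim0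
    · intro _ _
      have : (∅ : Finset (Fin 0)) = Finset.univ := by
        ext c
        exact c.elim0
      rw [this]
      exact Reached.all
  · rw [h1] at hY
    rw [f_closed hn, h1]
    exact knotoidDel hUA _ σ m hm Y hY

end Pool.Agent.UNI
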