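import Pool.Agent.UNI.Defs

/-!
# UNI: the algebra over the field with two elements

Definitions and statements of the modules; see /team-store/UNI_alg63.md for all proofs.

`V` is a finite vector space over the field with two elements.  We study linear functionals `Φ` on
the real functions on the set of all subspaces of `V`.  For weights `w : V → ℝ` the function
`rho w` sends a subspace to the product of the weights of its nonzero vectors.
-/

set_option autoImplicit false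

open Module

namespace Pool.Agent.UNI

section Alg

variable {V : Type} [AddCommGroup V] [Module (ZMod 2) V]
variable {V₁ : Type} [AddCommGroup V₁] [Module (ZMod 2) V₁]

/-- the set of the nonzero vectors of a subspace -/
noncomputable def nz [Finite V] (U : Submodule (ZMod 2) V) : Finset V :=
  (Set.toFinite {v : V | v ∈ U ∧ v ≠ 0}).toFinset

/-- the set of the vectors over a vector -/
noncomputable def fib [Finite V] (π : V →ₗ[ZMod 2] V₁) (q : V₁) : Finset V :=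
  (Set.toFinite {v : V | π v = q}).toFinset

/-- the product of the weights of the nonzero vectors of a subspace -/
noncomputable def rho [Finite V] (w : V → ℝ) : Submodule (ZMod 2) V → ℝ :=
  fun U => ∏ v ∈ nz U, w v

/-- the weights induced on a quotient -/
noncomputable def pw [Finite V] (π : V →ₗ[ZMod 2] V₁) (w : V → ℝ) : V₁ → ℝ :=
  fun q => ∏ v ∈ fib π q, w v

open Classical in
/-- the function on the subspaces of `V` which comes from a function on the subspaces of a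
quotient -/
noncomputable def up (π : V →ₗ[ZMod 2] V₁) :
    (Submodule (ZMod 2) V₁ → ℝ) →ₗ[ℝ] (Submodule (ZMod 2) V → ℝ) where
  toFun f := fun U => if LinearMap.ker π ≤ U then f (U.map π) else 0
  map_add' f g := by
    funext U
    by_cases h : LinearMap.ker π ≤ U <;> simp [h]
  map_smul' c f := by
    funext U
    by_cases h : LinearMap.ker π ≤ U <;> simp [h]

/-- the functional induced on a quotient (with a sign) -/
noncomputable def push (π : V →ₗ[ZMod 2] V₁) (Φ : (Submodule (ZMod 2) V → ℝ) →ₗ[ℝ] ℝ) :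
    (Submodule (ZMod 2) V₁ → ℝ) →ₗ[ℝ] ℝ :=
  (-1 : ℝ) ^ finrank (ZMod 2) (LinearMap.ker π) • (Φ ∘ₗ up π)

/-- positivity: all functionals induced on quotients are nonnegative at weights in `[0, η]` or `1`
such that the vectors with small weight span -/
def Pos (η : ℝ) (Φ : (Submodule (ZMod 2) V → ℝ) →ₗ[ℝ] ℝ) : Prop :=
  ∀ (V₁ : Type) [AddCommGroup V₁] [Module (ZMod 2) V₁] [Finite V₁] (π : V →ₗ[ZMod 2] V₁),
    Function.Surjective π → ∀ w : V₁ → ℝ, (∀ v, v ≠ 0 → w v = 1 ∨ (0 ≤ w v ∧ w v ≤ η)) →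
      Submodule.span (ZMod 2) {v | v ≠ 0 ∧ w v ≤ η} = ⊤ → 0 ≤ push π Φ (rho w)

open Classical in
/-- the function which is `1` at `U` and `0` elsewhere -/
noncomputable def del (U : Submodule (ZMod 2) V) : Submodule (ZMod 2) V → ℝ :=
  fun U' => if U' = U then 1 else 0

/-- the signed coefficient at `U` -/
noncomputable def coef (Φ : (Submodule (ZMod 2) V → ℝ) →ₗ[ℝ] ℝ) (U : Submodule (ZMod 2) V) : ℝ :=
  (-1) ^ finrank (ZMod 2) U * Φ (del U)

/-- the functional induced on a subspace by means of a factor `g` -/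
noncomputable def res (T : Submodule (ZMod 2) V) (g : Submodule (ZMod 2) V → ℝ)
    (Φ : (Submodule (ZMod 2) V → ℝ) →ₗ[ℝ] ℝ) : (Submodule (ZMod 2) T → ℝ) →ₗ[ℝ] ℝ :=
  Φ ∘ₗ { toFun := fun f U => g U * f (U.comap T.subtype)
         map_add' := fun f f' => by funext U; simp [mul_add]
         map_smul' := fun c f => by funext U; simp [mul_left_comm] }

end Alg

section Api

variable {V : Type} [AddCommGroup V] [Module (ZMod 2) V] [Finite V]
variable {V₁ : Type} [AddCommGroup V₁] [Module (ZMod 2) V₁]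
variable {V₂ : Type} [AddCommGroup V₂] [Module (ZMod 2) V₂]

theorem mem_nz {U : Submodule (ZMod 2) V} {v : V} : v ∈ nz U ↔ v ∈ U ∧ v ≠ 0 := by
  simp [nz]

theorem mem_fib {π : V →ₗ[ZMod 2] V₁} {q : V₁} {v : V} : v ∈ fib π q ↔ π v = q := by
  simp [fib]

theorem rho_apply (w : V → ℝ) (U : Submodule (ZMod 2) V) : rho w U = ∏ v ∈ nz U, w v := rfl

theorem pw_apply (π : V →ₗ[ZMod 2] V₁) (w : V → ℝ) (q : V₁) : pw π w q = ∏ v ∈ fib π q, w v := rfl

theorem rho_congr {w w' : V → ℝ} {U : Submodule (ZMod 2) V} (h : ∀ v ∈ U, v ≠ 0 → w v = w' v) :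
    rho w U = rho w' U :=
  Finset.prod_congr rfl fun v hv => h v (mem_nz.mp hv).1 (mem_nz.mp hv).2

omit [Finite V] in
theorem up_apply_of_le {π : V →ₗ[ZMod 2] V₁} {U : Submodule (ZMod 2) V}
    (h : LinearMap.ker π ≤ U) (f : Submodule (ZMod 2) V₁ → ℝ) : up π f U = f (U.map π) := by
  simp [up, h]

omit [Finite V] in
theorem up_apply_of_not_le {π : V →ₗ[ZMod 2] V₁} {U : Submodule (ZMod 2) V}
    (h : ¬ LinearMap.ker π ≤ U) (f : Submodule (ZMod 2) V₁ → ℝ) : up π f U = 0 := by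
  simp [up, h]

omit [Finite V] in
theorem push_apply (π : V →ₗ[ZMod 2] V₁) (Φ : (Submodule (ZMod 2) V → ℝ) →ₗ[ℝ] ℝ)
    (f : Submodule (ZMod 2) V₁ → ℝ) :
    push π Φ f = (-1 : ℝ) ^ finrank (ZMod 2) (LinearMap.ker π) * Φ (up π f) := by
  simp [push]

/-- products over the classes are products over the vectors, when the vectors of the kernel have
weight one -/
theorem rho_pw [Finite V₁] (π : V →ₗ[ZMod 2] V₁) (w : V → ℝ)
    (hw : ∀ v, π v = 0 → v ≠ 0 → w v = 1) (U : Submodule (ZMod 2) V₁) :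
    rho (pw π w) U = rho w (U.comap π) := by
  classical
  rw [rho_apply, rho_apply]
  have h1 : ∀ q ∈ nz U, pw π w q = ∏ v ∈ (nz (U.comap π)).filter (fun v => π v = q), w v := by
    intro q hq
    rw [pw_apply]
    refine Finset.prod_congr ?_ (fun _ _ => rfl)
    ext v
    have hq' := mem_nz.mp hq
    simp only [mem_fib, Finset.mem_filter, mem_nz, Submodule.mem_comap]
    constructor
    · intro hv
      refine ⟨⟨hv ▸ hq'.1, ?_⟩, hv⟩
      rintro rfl
      exact hq'.2 (by rw [← hv, map_zero])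
    · exact fun hv => hv.2
  rw [Finset.prod_congr rfl h1]
  have h2 : ∀ v ∈ nz (U.comap π), v ∉ (nz (U.comap π)).filter (fun v => π v ≠ 0) → w v = 1 := by
    intro v hv hv'
    have hv1 := mem_nz.mp hv
    refine hw v ?_ hv1.2
    by_contra h
    exact hv' (Finset.mem_filter.mpr ⟨hv, h⟩)
  rw [← Finset.prod_subset (Finset.filter_subset _ _) h2]
  have h3 : ∀ v ∈ (nz (U.comap π)).filter (fun v => π v ≠ 0), π v ∈ nz U := by
    intro v hv
    have hv1 := Finset.mem_filter.mp hv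
    exact mem_nz.mpr ⟨(mem_nz.mp hv1.1).1, hv1.2⟩
  rw [← Finset.prod_fiberwise_of_maps_to h3]
  refine Finset.prod_congr rfl (fun q hq => ?_)
  refine Finset.prod_congr ?_ (fun _ _ => rfl)
  ext v
  simp only [Finset.mem_filter]
  constructor
  · rintro ⟨h4, h5⟩
    exact ⟨⟨h4, by rw [h5]; exact (mem_nz.mp hq).2⟩, h5⟩
  · rintro ⟨⟨h4, _⟩, h5⟩
    exact ⟨h4, h5⟩

omit [Finite V] in
theorem up_up (π : V →ₗ[ZMod 2] V₁) (π' : V₁ →ₗ[ZMod 2] V₂) (hπ : Function.Surjective π)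
    (f : Submodule (ZMod 2) V₂ → ℝ) : up π (up π' f) = up (π' ∘ₗ π) f := by
  funext U
  have hker : LinearMap.ker π ≤ LinearMap.ker (π' ∘ₗ π) := by
    intro v hv
    rw [LinearMap.mem_ker] at hv ⊢
    rw [LinearMap.comp_apply, hv, map_zero]
  by_cases h : LinearMap.ker (π' ∘ₗ π) ≤ U
  · have h1 : LinearMap.ker π ≤ U := hker.trans h
    have h2 : LinearMap.ker π' ≤ U.map π := by
      intro q hq
      obtain ⟨v, rfl⟩ := hπ q
      exact Submodule.mem_map_of_mem (h (by rwa [LinearMap.mem_ker] at hq ⊢))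
    rw [up_apply_of_le h1, up_apply_of_le h2, up_apply_of_le h, Submodule.map_comp]
  · rw [up_apply_of_not_le h]
    by_cases h1 : LinearMap.ker π ≤ U
    · rw [up_apply_of_le h1, up_apply_of_not_le]
      intro h2
      apply h
      intro v hv
      rw [LinearMap.mem_ker, LinearMap.comp_apply, ← LinearMap.mem_ker] at hv
      obtain ⟨u, hu, huv⟩ := h2 hv
      have h3 : v - u ∈ LinearMap.ker π := by
        rw [LinearMap.mem_ker, map_sub, huv, sub_self]
      have h4 := U.add_mem (h1 h3) hu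
      rwa [sub_add_cancel] at h4
    · rw [up_apply_of_not_le h1]

theorem push_push (π : V →ₗ[ZMod 2] V₁) (π' : V₁ →ₗ[ZMod 2] V₂)
    (hπ : Function.Surjective π) (Φ : (Submodule (ZMod 2) V → ℝ) →ₗ[ℝ] ℝ) :
    push π' (push π Φ) = push (π' ∘ₗ π) Φ := by
  have : Finite V₁ := Finite.of_surjective π hπ
  have : Module.Finite (ZMod 2) V := Module.Finite.of_finite
  have : Module.Finite (ZMod 2) V₁ := Module.Finite.of_finite
  apply LinearMap.ext
  intro f
  rw [push_apply, push_apply, push_apply, up_up π π' hπ, ← mul_assoc, ← pow_add]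
  have h : finrank (ZMod 2) (LinearMap.ker π') + finrank (ZMod 2) (LinearMap.ker π) =
      finrank (ZMod 2) (LinearMap.ker (π' ∘ₗ π)) := by
    have h1 : (LinearMap.ker π').comap π = LinearMap.ker (π' ∘ₗ π) := rfl
    have h2 := LinearMap.finrank_range_add_finrank_ker
      (π.domRestrict (LinearMap.ker (π' ∘ₗ π)))
    have h3 : LinearMap.range (π.domRestrict (LinearMap.ker (π' ∘ₗ π))) = LinearMap.ker π' := by
      apply le_antisymm
      · rintro q ⟨v, rfl⟩
        have := v.2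
        rwa [LinearMap.mem_ker, LinearMap.comp_apply] at this
      · intro q hq
        obtain ⟨v, rfl⟩ := hπ q
        exact ⟨⟨v, by rwa [LinearMap.mem_ker, LinearMap.comp_apply]⟩, rfl⟩
    have h4 : finrank (ZMod 2) (LinearMap.ker (π.domRestrict (LinearMap.ker (π' ∘ₗ π)))) =
        finrank (ZMod 2) (LinearMap.ker π) := by
      have hle : LinearMap.ker π ≤ LinearMap.ker (π' ∘ₗ π) := by
        intro v hv
        rw [LinearMap.mem_ker] at hv ⊢
        rw [LinearMap.comp_apply, hv, map_zero]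
      have h5 : LinearMap.ker (π.domRestrict (LinearMap.ker (π' ∘ₗ π))) =
          (LinearMap.ker π).comap (LinearMap.ker (π' ∘ₗ π)).subtype := rfl
      rw [h5]
      exact (Submodule.comapSubtypeEquivOfLe hle).finrank_eq
    rw [← h2, h3, h4]
  rw [h]

omit [Finite V] in
theorem push_id (Φ : (Submodule (ZMod 2) V → ℝ) →ₗ[ℝ] ℝ) : push LinearMap.id Φ = Φ := by
  apply LinearMap.ext
  intro f
  rw [push_apply]
  have h : up (LinearMap.id : V →ₗ[ZMod 2] V) f = f := by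
    funext U
    rw [up_apply_of_le (by rw [LinearMap.ker_id]; exact bot_le), Submodule.map_id]
  rw [h, LinearMap.ker_id, finrank_bot, pow_zero, one_mul]

theorem Pos.push {η : ℝ} {Φ : (Submodule (ZMod 2) V → ℝ) →ₗ[ℝ] ℝ} (h : Pos η Φ)
    (π : V →ₗ[ZMod 2] V₁) (hπ : Function.Surjective π) : Pos η (push π Φ) := by
  intro V₂ _ _ _ π' hπ' w hw hs
  rw [push_push π π' hπ]
  exact h V₂ (π' ∘ₗ π) (hπ'.comp hπ) w hw hs

instance finite_quot (T : Submodule (ZMod 2) V) : Finite (V ⧸ T) :=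
  Finite.of_surjective _ (Submodule.mkQ_surjective T)

/-- `Pos` for the functional itself -/
theorem Pos.self {η : ℝ} {Φ : (Submodule (ZMod 2) V → ℝ) →ₗ[ℝ] ℝ} (h : Pos η Φ) (w : V → ℝ)
    (hw : ∀ v, v ≠ 0 → w v = 1 ∨ (0 ≤ w v ∧ w v ≤ η))
    (hs : Submodule.span (ZMod 2) {v | v ≠ 0 ∧ w v ≤ η} = ⊤) : 0 ≤ Φ (rho w) := by
  have h1 := h V LinearMap.id Function.surjective_id w hw hs
  rwa [push_id] at h1

end Api

/-! ## The statements of the modules -/

/-- **A1a** (module `Step`). `w` and `w'` agree off the vector `v ≠ 0`.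

Proof. Both sides come from functions on the subspaces `U`, pointwise: with `π = (span {v}).mkQ`,
`rho w U = rho w' U + (w v - w' v) * up π (rho (pw π w)) U`. If `v ∉ U` then the weights agree on
`U` and `ker π ≤ U` fails. If `v ∈ U` then `up π (rho (pw π w)) U = rho w₁ U`, where `w₁` is `w`
with the value `1` at `v` (`pw π w` and `pw π w₁` agree off `0`; `rho_pw`), and
`rho w U = w v * rho w₁ U`, `rho w' U = w' v * rho w₁ U`. The sign is `(-1) ^ 1`. -/
def St_Step : Prop :=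
  ∀ (V : Type) [AddCommGroup V] [Module (ZMod 2) V] [Finite V]
    (Φ : (Submodule (ZMod 2) V → ℝ) →ₗ[ℝ] ℝ) (v : V) (w w' : V → ℝ), v ≠ 0 →
    (∀ u, u ≠ v → w u = w' u) →
    Φ (rho w) = Φ (rho w') + (w' v - w v) *
      push (Submodule.span (ZMod 2) {v}).mkQ Φ (rho (pw (Submodule.span (ZMod 2) {v}).mkQ w))

/-- **A1b** (module `Step`). Weights `±1` or small, the vectors with small weight span. -/
def St_One : Prop :=
  ∀ η : ℝ, 0 ≤ η → η < 1 →
    ∀ (V : Type) [AddCommGroup V] [Module (ZMod 2) V] [Finite V]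
      (Φ : (Submodule (ZMod 2) V → ℝ) →ₗ[ℝ] ℝ), Pos η Φ →
      ∀ w : V → ℝ, (∀ v, v ≠ 0 → w v = 1 ∨ w v = -1 ∨ |w v| ≤ η) →
        Submodule.span (ZMod 2) {v | v ≠ 0 ∧ |w v| ≤ η} = ⊤ → 0 ≤ Φ (rho w)

/-- **A2** (module `Complete`). All weights `-1`. -/
def St_Complete : Prop :=
  ∀ η t : ℝ, Real.sqrt 2 - 1 ≤ η → η < 1 → 0 ≤ t → t ^ 2 = 1 - η →
    ∀ (V : Type) [AddCommGroup V] [Module (ZMod 2) V] [Finite V]
      (Φ : (Submodule (ZMod 2) V → ℝ) →ₗ[ℝ] ℝ), Pos η Φ → 0 < finrank (ZMod 2) V →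
      Real.sqrt 2 * t ^ finrank (ZMod 2) V * coef Φ ⊤ ≤ Φ (rho fun _ => -1)

/-- **A3** (module `Comb`). -/
def St_Comb : Prop :=
  ∀ (V : Type) [AddCommGroup V] [Module (ZMod 2) V] [Finite V] (x : V → ℝ),
    0 < finrank (ZMod 2) V → (∀ v, v ≠ 0 → x v = 1 ∨ x v = -1) →
    Submodule.span (ZMod 2) {v | v ≠ 0 ∧ x v = -1} = ⊤ →
    (∀ v, v ≠ 0 → x v = -1) ∨
      ∃ T : Submodule (ZMod 2) V, T ≠ ⊥ ∧ T ≠ ⊤ ∧
        Submodule.span (ZMod 2) {v | v ∈ T ∧ v ≠ 0 ∧ x v = -1} = T ∧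
        Submodule.span (ZMod 2) {q | q ≠ 0 ∧ pw T.mkQ x q = -1} = ⊤

/-- **A4a** (module `Res`): evaluation of a functional at weights in terms of the functional
induced on a subspace `T`; `w₁` is `w` off `T` and `1` on `T`. -/
def St_ResEval : Prop :=
  ∀ (V : Type) [AddCommGroup V] [Module (ZMod 2) V] [Finite V] (T : Submodule (ZMod 2) V)
    (Φ : (Submodule (ZMod 2) V → ℝ) →ₗ[ℝ] ℝ) (w w₁ : V → ℝ),
    (∀ v, v ∈ T → v ≠ 0 → w₁ v = 1) → (∀ v, v ∉ T → w₁ v = w v) →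
    Φ (rho w) = res T (rho w₁) Φ (rho fun v : T => w v)

/-- **A4a** (module `Res`): the top coefficient of the functional induced on `T`. -/
def St_ResTop : Prop :=
  ∀ (V : Type) [AddCommGroup V] [Module (ZMod 2) V] [Finite V] (T : Submodule (ZMod 2) V)
    (Φ : (Submodule (ZMod 2) V → ℝ) →ₗ[ℝ] ℝ) (w₁ : V → ℝ),
    (∀ v, v ∈ T → v ≠ 0 → w₁ v = 1) →
    coef (res T (rho w₁) Φ) ⊤ = push T.mkQ Φ (rho (pw T.mkQ w₁))

/-- **A4a** (module `Res`): the functional induced on a quotient `V₁` of the subspace `T`;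
`K` is the kernel of `π`, and `ι` embeds `V₁` in `V ⧸ K`. -/
def St_ResPush : Prop :=
  ∀ (V : Type) [AddCommGroup V] [Module (ZMod 2) V] [Finite V] (T : Submodule (ZMod 2) V)
    (Φ : (Submodule (ZMod 2) V → ℝ) →ₗ[ℝ] ℝ) (w₁ : V → ℝ),
    (∀ v, v ∈ T → v ≠ 0 → w₁ v = 1) →
    ∀ (V₁ : Type) [AddCommGroup V₁] [Module (ZMod 2) V₁] [Finite V₁] (π : T →ₗ[ZMod 2] V₁),
      Function.Surjective π →
      ∃ ι : V₁ →ₗ[ZMod 2] V ⧸ (LinearMap.ker π).map T.subtype, Function.Injective ι ∧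
        (∀ t : T, ι (π t) = ((LinearMap.ker π).map T.subtype).mkQ t) ∧
        ∀ w' : V₁ → ℝ, push π (res T (rho w₁) Φ) (rho w') =
          push ((LinearMap.ker π).map T.subtype).mkQ Φ
            (rho fun q => pw ((LinearMap.ker π).map T.subtype).mkQ w₁ q * pw ι w' q)

/-- **A4b** (module `Mixed`): weights `±1` or small, the vectors with weight `-1` or small weight
span and there is a small one; positivity for weights `±1` in smaller dimensions is assumed. -/
def St_Mixed : Prop :=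
  ∀ η : ℝ, 0 ≤ η → η < 1 →
    ∀ (V : Type) [AddCommGroup V] [Module (ZMod 2) V] [Finite V],
      (∀ (V' : Type) [AddCommGroup V'] [Module (ZMod 2) V'] [Finite V']
        (Ψ : (Submodule (ZMod 2) V' → ℝ) →ₗ[ℝ] ℝ) (x : V' → ℝ),
        finrank (ZMod 2) V' < finrank (ZMod 2) V → Pos η Ψ →
        (∀ v, v ≠ 0 → x v = 1 ∨ x v = -1) →
        Submodule.span (ZMod 2) {v | v ≠ 0 ∧ x v = -1} = ⊤ → 0 ≤ Ψ (rho x)) →
      ∀ (Φ : (Submodule (ZMod 2) V → ℝ) →ₗ[ℝ] ℝ), Pos η Φ →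
        ∀ w : V → ℝ, (∀ v, v ≠ 0 → w v = 1 ∨ w v = -1 ∨ |w v| ≤ η) →
          Submodule.span (ZMod 2) {v | v ≠ 0 ∧ (w v = -1 ∨ |w v| ≤ η)} = ⊤ →
          (∃ v, v ≠ 0 ∧ |w v| ≤ η) → 0 ≤ Φ (rho w)

/-- **A4c** (module `ThmC`). -/
def St_ThmC : Prop :=
  ∀ η t : ℝ, Real.sqrt 2 - 1 ≤ η → η < 1 → 0 ≤ t → t ^ 2 = 1 - η →
    ∀ (V : Type) [AddCommGroup V] [Module (ZMod 2) V] [Finite V]
      (Φ : (Submodule (ZMod 2) V → ℝ) →ₗ[ℝ] ℝ), Pos η Φ → 0 < finrank (ZMod 2) V →
      ∀ x : V → ℝ, (∀ v, v ≠ 0 → x v = 1 ∨ x v = -1) →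
        Submodule.span (ZMod 2) {v | v ≠ 0 ∧ x v = -1} = ⊤ →
        Real.sqrt 2 * t ^ finrank (ZMod 2) V * coef Φ ⊤ ≤ Φ (rho x)

/-! ## Forms -/

section Forms

variable {D : Type} [AddCommGroup D] [Module (ZMod 2) D]

/-- dimension of `G` plus dimension of its radical -/
noncomputable def expo (β : D →ₗ[ZMod 2] D →ₗ[ZMod 2] ZMod 2) (G : Submodule (ZMod 2) D) : ℕ :=
  finrank (ZMod 2) G + finrank (ZMod 2) (rad β G)

/-- the state sum of a list of functionals with weights on `G` -/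
noncomputable def Zs (β : D →ₗ[ZMod 2] D →ₗ[ZMod 2] ZMod 2) (s : ℝ) :
    List (Dual (ZMod 2) D × ℝ) → Submodule (ZMod 2) D → ℝ
  | [], G => (-s) ^ expo β G
  | p :: l, G => Zs β s l G + (p.2 - 1) * Zs β s l (G ⊓ LinearMap.ker p.1)

/-- the common kernel in `G` of the functionals of a list -/
def cl : List (Dual (ZMod 2) D × ℝ) → Submodule (ZMod 2) D → Submodule (ZMod 2) D
  | [], G => G
  | p :: l, G => cl l (G ⊓ LinearMap.ker p.1)

end Forms

/-- **B1** (module `Sign`). -/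
def St_Sign : Prop :=
  ∀ (D : Type) [AddCommGroup D] [Module (ZMod 2) D] [Module.Finite (ZMod 2) D]
    (β : D →ₗ[ZMod 2] D →ₗ[ZMod 2] ZMod 2), (∀ a b, β a b = β b a) →
    ∀ s : ℝ, 0 < s → s ≤ 1 → ∀ (l : List (Dual (ZMod 2) D × ℝ)) (G : Submodule (ZMod 2) D),
      (∀ p ∈ l, 0 ≤ p.2 ∧ p.2 ≤ 1 - s ^ 2) →
      0 ≤ (-1) ^ (finrank (ZMod 2) G + finrank (ZMod 2) (rad β G ⊓ cl l G : Submodule (ZMod 2) D)) *
        Zs β s l G

/-- **B2a** (module `Link`): existence of the functional. -/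
def St_Exist : Prop :=
  ∀ (V : Type) [AddCommGroup V] [Module (ZMod 2) V] [Finite V] (g : Submodule (ZMod 2) V → ℝ),
    ∃ Φ : (Submodule (ZMod 2) V → ℝ) →ₗ[ℝ] ℝ, ∀ U f,
      (∀ U', (U ≤ U' → f U' = 1) ∧ (¬ U ≤ U' → f U' = 0)) → Φ f = g U

/-- **B2b** (module `Link`): positivity of the functional of a form. -/
def St_FormPos : Prop :=
  ∀ (D : Type) [AddCommGroup D] [Module (ZMod 2) D] [Module.Finite (ZMod 2) D]
    [Finite (Dual (ZMod 2) D)]
    (β : D →ₗ[ZMod 2] D →ₗ[ZMod 2] ZMod 2), (∀ a b, β a b = β b a) →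
    ∀ η s : ℝ, 0 ≤ η → η < 1 → 0 < s → s ^ 2 = 1 - η →
    ∀ Φ : (Submodule (ZMod 2) (Dual (ZMod 2) D) → ℝ) →ₗ[ℝ] ℝ,
      (∀ U f, (∀ U', (U ≤ U' → f U' = 1) ∧ (¬ U ≤ U' → f U' = 0)) →
        Φ f = (-1) ^ finrank (ZMod 2) D * (-s) ^ expo β U.dualCoannihilator) →
      Pos η Φ

end Pool.Agent.UNI
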