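import Pool.Agent.UNI.Alg

/-!
# UNI: the combinatorial lemma
-/

set_option autoImplicit false

open Module

namespace Pool.Agent.UNI

private theorem Comb_zmod2 (c : ZMod 2) : c = 0 ∨ c = 1 := by
  fin_cases c
  · exact Or.inl rfl
  · exact Or.inr rfl

private theorem Comb_mem_sup {V : Type} [AddCommGroup V] [Module (ZMod 2) V]
    {T : Submodule (ZMod 2) V} {s v : V} :
    v ∈ T ⊔ Submodule.span (ZMod 2) {s} ↔ v ∈ T ∨ v - s ∈ T := by
  constructor
  · intro h
    obtain ⟨t, ht, y, hy, rfl⟩ := Submodule.mem_sup.mp h
    obtain ⟨c, rfl⟩ := Submodule.mem_span_singleton.mp hy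
    rcases Comb_zmod2 c with rfl | rfl
    · left
      rw [zero_smul, add_zero]
      exact ht
    · right
      rw [one_smul, add_sub_cancel_right]
      exact ht
  · rintro (h | h)
    · exact Submodule.mem_sup_left h
    · have h1 : v = (v - s) + s := by rw [sub_add_cancel]
      rw [h1]
      exact Submodule.add_mem_sup h (Submodule.mem_span_singleton_self s)

private theorem Comb_add_self {V : Type} [AddCommGroup V] [Module (ZMod 2) V] (v : V) :
    v + v = 0 := by
  have h : (1 + 1 : ZMod 2) = 0 := rfl
  have h1 : ((1 + 1 : ZMod 2)) • v = v + v := by rw [add_smul, one_smul]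
  rw [← h1, h, zero_smul]

/-- the connectivity lemma -/
private theorem Comb_conn {V : Type} [AddCommGroup V] [Module (ZMod 2) V]
    (T : Submodule (ZMod 2) V) (S : Set V) (g : V → ℝ)
    (hspan : T ⊔ Submodule.span (ZMod 2) S = ⊤)
    (hT : ∀ u t, t ∈ T → g (u + t) = g u)
    (hS : ∀ s ∈ S, s ∉ T → ∀ u, u ∉ T ⊔ Submodule.span (ZMod 2) {s} → g (u + s) = g u)
    (s0 : V) (hs0 : s0 ∈ S) (hs0T : s0 ∉ T) (v : V) (hv : v ∉ T) : g v = g s0 := by
  let C : Set V := {u | u ∈ T ∨ g u = g s0}
  let P : Submodule (ZMod 2) V :=
    { carrier := {a | ∀ u ∈ C, u + a ∈ C}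
      add_mem' := fun {a b} ha hb u hu => by
        rw [← add_assoc]
        exact hb _ (ha u hu)
      zero_mem' := fun u hu => by rwa [add_zero]
      smul_mem' := fun c a ha u hu => by
        rcases Comb_zmod2 c with rfl | rfl
        · rwa [zero_smul, add_zero]
        · rw [one_smul]
          exact ha u hu }
  have hTP : T ≤ P := by
    intro t ht u hu
    rcases hu with hu | hu
    · exact Or.inl (T.add_mem hu ht)
    · exact Or.inr ((hT u t ht).trans hu)
  have hSP : Submodule.span (ZMod 2) S ≤ P := by
    rw [Submodule.span_le]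
    intro s hs u hu
    by_cases hsT : s ∈ T
    · exact hTP hsT u hu
    · rcases hu with hu | hu
      · right
        have h1 : g (u + s) = g s := by rw [add_comm]; exact hT s u hu
        rw [h1]
        by_cases h2 : s ∈ T ⊔ Submodule.span (ZMod 2) {s0}
        · rcases Comb_mem_sup.mp h2 with h3 | h3
          · exact absurd h3 hsT
          · have h4 := hT s0 (s - s0) h3
            rwa [add_sub_cancel] at h4
        · have h3 := hS s0 hs0 hs0T s h2
          have h4 : s0 ∉ T ⊔ Submodule.span (ZMod 2) {s} := by
            intro h5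
            rcases Comb_mem_sup.mp h5 with h6 | h6
            · exact hs0T h6
            · refine h2 (Comb_mem_sup.mpr (Or.inr ?_))
              have h7 := T.neg_mem h6
              rwa [neg_sub] at h7
          have h5 := hS s hs hsT s0 h4
          rw [← h3, ← h5, add_comm]
      · by_cases hsu : u ∈ T ⊔ Submodule.span (ZMod 2) {s}
        · rcases Comb_mem_sup.mp hsu with h3 | h3
          · right
            have h1 : g (u + s) = g s := by rw [add_comm]; exact hT s u h3
            rw [h1]
            by_cases h2 : s ∈ T ⊔ Submodule.span (ZMod 2) {s0}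
            · rcases Comb_mem_sup.mp h2 with h3 | h3
              · exact absurd h3 hsT
              · have h4 := hT s0 (s - s0) h3
                rwa [add_sub_cancel] at h4
            · have h3 := hS s0 hs0 hs0T s h2
              have h4 : s0 ∉ T ⊔ Submodule.span (ZMod 2) {s} := by
                intro h5
                rcases Comb_mem_sup.mp h5 with h6 | h6
                · exact hs0T h6
                · refine h2 (Comb_mem_sup.mpr (Or.inr ?_))
                  have h7 := T.neg_mem h6
                  rwa [neg_sub] at h7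
              have h5 := hS s hs hsT s0 h4
              rw [← h3, ← h5, add_comm]
          · left
            have h4 : u + s = (u - s) + (s + s) := by abel
            rw [h4, Comb_add_self, add_zero]
            exact h3
        · right
          rw [hS s hs hsT u hsu]
          exact hu
  have hP : P = ⊤ := top_le_iff.mp (hspan ▸ sup_le hTP hSP)
  have h1 : v ∈ P := by rw [hP]; exact Submodule.mem_top
  have h2 : (0 : V) + v ∈ C := h1 0 (Or.inl T.zero_mem)
  rw [zero_add] at h2
  rcases h2 with h2 | h2
  · exact absurd h2 hv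
  · exact h2

section

variable {V : Type} [AddCommGroup V] [Module (ZMod 2) V] [Finite V]

private theorem Comb_mem_fib {T : Submodule (ZMod 2) V} {u v : V} :
    v ∈ fib T.mkQ (T.mkQ u) ↔ v - u ∈ T := by
  rw [mem_fib, Submodule.mkQ_apply, Submodule.mkQ_apply, Submodule.Quotient.eq]

private theorem Comb_pm (T : Submodule (ZMod 2) V) (x : V → ℝ)
    (hx : ∀ v, v ≠ 0 → x v = 1 ∨ x v = -1) {u : V} (hu : u ∉ T) :
    pw T.mkQ x (T.mkQ u) = 1 ∨ pw T.mkQ x (T.mkQ u) = -1 := by
  classical
  rw [pw_apply]
  refine Finset.prod_induction x (fun r => r = 1 ∨ r = -1) ?_ (Or.inl rfl) ?_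
  · rintro a b (rfl | rfl) (rfl | rfl)
    · exact Or.inl (by norm_num)
    · exact Or.inr (by norm_num)
    · exact Or.inr (by norm_num)
    · exact Or.inl (by norm_num)
  · intro v hv
    refine hx v ?_
    rintro rfl
    rw [Comb_mem_fib, zero_sub] at hv
    exact hu (by simpa using T.neg_mem hv)

private theorem Comb_split (T : Submodule (ZMod 2) V) (x : V → ℝ) {s : V} (hs : s ∉ T) (u : V) :
    pw (T ⊔ Submodule.span (ZMod 2) {s}).mkQ x ((T ⊔ Submodule.span (ZMod 2) {s}).mkQ u) =
      pw T.mkQ x (T.mkQ u) * pw T.mkQ x (T.mkQ (u + s)) := by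
  classical
  rw [pw_apply, pw_apply, pw_apply, ← Finset.prod_union]
  · refine Finset.prod_congr ?_ (fun _ _ => rfl)
    ext v
    rw [Finset.mem_union, Comb_mem_fib, Comb_mem_fib, Comb_mem_fib, Comb_mem_sup, sub_sub]
  · rw [Finset.disjoint_left]
    intro v h1 h2
    rw [Comb_mem_fib] at h1 h2
    have h3 := T.sub_mem h1 h2
    have h4 : v - u - (v - (u + s)) = s := by abel
    rw [h4] at h3
    exact hs h3

private theorem Comb_bot (x : V → ℝ) (u : V) :
    pw (⊥ : Submodule (ZMod 2) V).mkQ x ((⊥ : Submodule (ZMod 2) V).mkQ u) = x u := by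
  classical
  rw [pw_apply]
  have h : fib (⊥ : Submodule (ZMod 2) V).mkQ ((⊥ : Submodule (ZMod 2) V).mkQ u) = {u} := by
    ext v
    rw [Comb_mem_fib, Submodule.mem_bot, Finset.mem_singleton, sub_eq_zero]
  rw [h, Finset.prod_singleton]

end

theorem thm_Comb : St_Comb := by
  intro V _ _ _ x hdim hx hspan
  have : Module.Finite (ZMod 2) V := Module.Finite.of_finite
  by_contra hcon
  rw [not_or] at hcon
  obtain ⟨hcon1, hcon2⟩ := hcon
  apply hcon1
  -- the claim for the proper nonzero flats
  have key : ∀ T : Submodule (ZMod 2) V, T ≠ ⊥ → T ≠ ⊤ →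
      Submodule.span (ZMod 2) {v | v ∈ T ∧ v ≠ 0 ∧ x v = -1} = T →
      ∀ v, v ∉ T → pw T.mkQ x (T.mkQ v) = 1 := by
    intro T
    induction T using WellFoundedGT.induction with
    | _ T ih =>
      intro hT1 hT2 hflat v hv
      by_contra hv1
      have hvm : pw T.mkQ x (T.mkQ v) = -1 := (Comb_pm T x hx hv).resolve_left hv1
      have hconst : ∀ s0, (s0 ≠ 0 ∧ x s0 = -1) → s0 ∉ T → ∀ u, u ∉ T →
          pw T.mkQ x (T.mkQ u) = pw T.mkQ x (T.mkQ s0) := by
        intro s0 hs0 hs0T u hu
        refine Comb_conn T {w | w ≠ 0 ∧ x w = -1} (fun w => pw T.mkQ x (T.mkQ w)) ?_ ?_ ?_ s0 hs0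
          hs0T u hu
        · rw [hspan, sup_top_eq]
        · intro w t ht
          have h1 : T.mkQ (w + t) = T.mkQ w := by
            rw [map_add]
            have h2 : T.mkQ t = 0 := by
              rw [Submodule.mkQ_apply, Submodule.Quotient.mk_eq_zero]
              exact ht
            rw [h2, add_zero]
          show pw T.mkQ x (T.mkQ (w + t)) = pw T.mkQ x (T.mkQ w)
          rw [h1]
        · intro s hs hsT w hw
          show pw T.mkQ x (T.mkQ (w + s)) = pw T.mkQ x (T.mkQ w)
          have hle : T ≤ T ⊔ Submodule.span (ZMod 2) {s} := le_sup_left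
          have hsmem : s ∈ T ⊔ Submodule.span (ZMod 2) {s} :=
            Submodule.mem_sup_right (Submodule.mem_span_singleton_self s)
          have hlt : T < T ⊔ Submodule.span (ZMod 2) {s} :=
            lt_of_le_of_ne hle (fun h => hsT (h ▸ hsmem))
          have h1 := ih (T ⊔ Submodule.span (ZMod 2) {s}) hlt
            (fun h => hT1 (le_bot_iff.mp (h ▸ hle)))
            (fun h => hw (by rw [h]; exact Submodule.mem_top)) (by
              apply le_antisymm
              · rw [Submodule.span_le]
                exact fun a ha => ha.1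
              · refine sup_le ?_ ?_
                · conv_lhs => rw [← hflat]
                  refine Submodule.span_mono ?_
                  intro a ha
                  exact ⟨hle ha.1, ha.2⟩
                · rw [Submodule.span_le, Set.singleton_subset_iff]
                  exact Submodule.subset_span ⟨hsmem, hs⟩) w hw
          rw [Comb_split T x hsT w] at h1
          have hwT : w ∉ T := fun h => hw (hle h)
          have hwsT : w + s ∉ T := by
            intro h
            apply hw
            have h2 := (T ⊔ Submodule.span (ZMod 2) {s}).sub_mem (hle h) hsmem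
            rwa [add_sub_cancel_right] at h2
          rcases Comb_pm T x hx hwT with h2 | h2 <;> rcases Comb_pm T x hx hwsT with h3 | h3
          · rw [h2, h3]
          · rw [h2, h3] at h1
            norm_num at h1
          · rw [h2, h3] at h1
            norm_num at h1
          · rw [h2, h3]
      -- there is a vector of weight `-1` off `T`
      obtain ⟨s0, hs0, hs0T⟩ : ∃ s0, (s0 ≠ 0 ∧ x s0 = -1) ∧ s0 ∉ T := by
        by_contra h1
        push Not at h1
        apply hT2
        rw [← top_le_iff, ← hspan, Submodule.span_le]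
        exact fun a ha => h1 a ha
      have hall : ∀ u, u ∉ T → pw T.mkQ x (T.mkQ u) = -1 := by
        intro u hu
        rw [hconst s0 hs0 hs0T u hu, ← hconst s0 hs0 hs0T v hv, hvm]
      apply hcon2
      refine ⟨T, hT1, hT2, hflat, ?_⟩
      rw [← top_le_iff]
      intro q _
      by_cases hq : q = 0
      · rw [hq]
        exact Submodule.zero_mem _
      · obtain ⟨u, rfl⟩ := T.mkQ_surjective q
        refine Submodule.subset_span ⟨hq, hall u ?_⟩
        intro hu
        apply hq
        rw [Submodule.mkQ_apply, Submodule.Quotient.mk_eq_zero]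
        exact hu
  -- the vectors of weight `-1`
  obtain ⟨s0, hs0⟩ : ∃ s0 : V, s0 ≠ 0 ∧ x s0 = -1 := by
    by_contra h1
    push Not at h1
    have h2 : {v : V | v ≠ 0 ∧ x v = -1} = ∅ := by
      ext a
      simp only [Set.mem_ofPred_eq, Set.mem_empty_iff_false, iff_false, not_and]
      exact h1 a
    rw [h2, Submodule.span_empty] at hspan
    have h3 : finrank (ZMod 2) (⊤ : Submodule (ZMod 2) V) = 0 := by
      rw [← hspan, finrank_bot]
    rw [finrank_top] at h3
    omega
  intro v hv
  rw [← hs0.2]
  refine Comb_conn (⊥ : Submodule (ZMod 2) V) {w | w ≠ 0 ∧ x w = -1} x ?_ ?_ ?_ s0 hs0 ?_ v ?_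
  · rw [hspan, sup_top_eq]
  · intro u t ht
    rw [Submodule.mem_bot] at ht
    rw [ht, add_zero]
  · intro s hs hsT u hu
    have hsmem : s ∈ (⊥ : Submodule (ZMod 2) V) ⊔ Submodule.span (ZMod 2) {s} :=
      Submodule.mem_sup_right (Submodule.mem_span_singleton_self s)
    have h1 := key (⊥ ⊔ Submodule.span (ZMod 2) {s})
      (fun h => hs.1 (by rw [h, Submodule.mem_bot] at hsmem; exact hsmem))
      (fun h => hu (by rw [h]; exact Submodule.mem_top)) (by
        apply le_antisymm
        · rw [Submodule.span_le]
          exact fun a ha => ha.1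
        · refine sup_le bot_le ?_
          rw [Submodule.span_le, Set.singleton_subset_iff]
          exact Submodule.subset_span ⟨hsmem, hs⟩) u hu
    rw [Comb_split ⊥ x hsT u, Comb_bot, Comb_bot] at h1
    have hu0 : u ≠ 0 := by
      rintro rfl
      exact hu (Submodule.zero_mem _)
    have hus0 : u + s ≠ 0 := by
      intro h
      apply hu
      have h2 : u = -s := eq_neg_of_add_eq_zero_left h
      rw [h2]
      exact Submodule.neg_mem _ hsmem
    rcases hx u hu0 with h2 | h2 <;> rcases hx (u + s) hus0 with h3 | h3
    · rw [h2, h3]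
    · rw [h2, h3] at h1
      norm_num at h1
    · rw [h2, h3] at h1
      norm_num at h1
    · rw [h2, h3]
  · rw [Submodule.mem_bot]
    exact hs0.1
  · rw [Submodule.mem_bot]
    exact hv

end Pool.Agent.UNI
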