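import Pool.Agent.UNI.Alg

/-!
# UNI [Complete]: all weights are `-1`
-/

set_option autoImplicit false
set_option linter.unusedSectionVars false

open Module

namespace Pool.Agent.UNI

section Complete

private lemma Cpl_two (x : ZMod 2) : x = 0 ∨ x = 1 := by
  fin_cases x
  · exact Or.inl rfl
  · exact Or.inr rfl

variable {V : Type} [AddCommGroup V] [Module (ZMod 2) V]
variable {V₁ : Type} [AddCommGroup V₁] [Module (ZMod 2) V₁]

private lemma Cpl_add_self (v : V) : v + v = 0 := ZModModule.add_self v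

private lemma Cpl_neg (v : V) : -v = v := by
  rw [neg_eq_iff_add_eq_zero]
  exact Cpl_add_self v

private lemma Cpl_mem_span {v u : V} : u ∈ Submodule.span (ZMod 2) {v} ↔ u = 0 ∨ u = v := by
  rw [Submodule.mem_span_singleton]
  constructor
  · rintro ⟨a, rfl⟩
    rcases Cpl_two a with rfl | rfl
    · exact Or.inl (zero_smul _ _)
    · exact Or.inr (one_smul _ _)
  · rintro (rfl | rfl)
    · exact ⟨0, zero_smul _ _⟩
    · exact ⟨1, one_smul _ _⟩

private lemma Cpl_del_ne {U U' : Submodule (ZMod 2) V} (h : U' ≠ U) : del U U' = 0 := by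
  unfold del
  rw [if_neg h]

private lemma Cpl_del_self {U : Submodule (ZMod 2) V} : del U U = 1 := by
  unfold del
  rw [if_pos rfl]

/-! ## coefficients -/

private lemma Cpl_up_bot (π : V →ₗ[ZMod 2] V₁) : up π (del ⊥) = del (LinearMap.ker π) := by
  funext U
  by_cases h : LinearMap.ker π ≤ U
  · rw [up_apply_of_le h]
    unfold del
    have h1 : U.map π = ⊥ ↔ U = LinearMap.ker π := by
      rw [← le_bot_iff, Submodule.map_le_iff_le_comap]
      constructor
      · intro h2
        exact le_antisymm h2 h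
      · rintro rfl
        exact le_rfl
    by_cases h2 : U = LinearMap.ker π
    · rw [if_pos (h1.mpr h2), if_pos h2]
    · rw [if_neg (fun h3 => h2 (h1.mp h3)), if_neg h2]
  · rw [up_apply_of_not_le h]
    unfold del
    rw [if_neg]
    rintro rfl
    exact h le_rfl

private lemma Cpl_push_bot (π : V →ₗ[ZMod 2] V₁) (Φ : (Submodule (ZMod 2) V → ℝ) →ₗ[ℝ] ℝ) :
    push π Φ (del ⊥) = coef Φ (LinearMap.ker π) := by
  rw [push_apply, Cpl_up_bot]
  rfl

private lemma Cpl_coef_bot (Φ : (Submodule (ZMod 2) V → ℝ) →ₗ[ℝ] ℝ) :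
    coef Φ ⊥ = Φ (del ⊥) := by
  unfold coef
  rw [finrank_bot, pow_zero, one_mul]

variable [Finite V]

private lemma Cpl_coef_push (Φ : (Submodule (ZMod 2) V → ℝ) →ₗ[ℝ] ℝ)
    (U : Submodule (ZMod 2) V) (Q : Submodule (ZMod 2) (V ⧸ U)) :
    coef (push U.mkQ Φ) Q = coef Φ (Q.comap U.mkQ) := by
  have h1 := Cpl_push_bot Q.mkQ (push U.mkQ Φ)
  rw [Submodule.ker_mkQ, push_push U.mkQ Q.mkQ U.mkQ_surjective, Cpl_push_bot] at h1
  rw [← h1, LinearMap.ker_comp, Submodule.ker_mkQ]

private lemma Cpl_coef_push_top (Φ : (Submodule (ZMod 2) V → ℝ) →ₗ[ℝ] ℝ)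
    (U : Submodule (ZMod 2) V) : coef (push U.mkQ Φ) ⊤ = coef Φ ⊤ := by
  rw [Cpl_coef_push, Submodule.comap_top]

private lemma Cpl_coef_push_bot (Φ : (Submodule (ZMod 2) V → ℝ) →ₗ[ℝ] ℝ)
    (U : Submodule (ZMod 2) V) : coef (push U.mkQ Φ) ⊥ = coef Φ U := by
  rw [Cpl_coef_push, ← LinearMap.ker, Submodule.ker_mkQ]

private lemma Cpl_nz_bot : nz (⊥ : Submodule (ZMod 2) V) = ∅ := by
  ext v
  rw [mem_nz]
  simp

private lemma Cpl_exists_nz {U : Submodule (ZMod 2) V} (h : U ≠ ⊥) : ∃ v ∈ nz U, v ≠ 0 := by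
  obtain ⟨v, hv, hv0⟩ := Submodule.exists_mem_ne_zero_of_ne_bot h
  exact ⟨v, mem_nz.mpr ⟨hv, hv0⟩, hv0⟩

private lemma Cpl_rho_zero : rho (fun _ : V => (0 : ℝ)) = del ⊥ := by
  funext U
  rw [rho_apply]
  unfold del
  by_cases h : U = ⊥
  · rw [if_pos h, h, Cpl_nz_bot, Finset.prod_empty]
  · rw [if_neg h]
    obtain ⟨v, hv, -⟩ := Cpl_exists_nz h
    exact Finset.prod_eq_zero hv rfl

private lemma Cpl_bot_nonneg {η : ℝ} (hη : 0 ≤ η) {Φ : (Submodule (ZMod 2) V → ℝ) →ₗ[ℝ] ℝ}
    (h : Pos η Φ) : 0 ≤ coef Φ ⊥ := by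
  rw [Cpl_coef_bot, ← Cpl_rho_zero]
  refine h.self _ (fun v _ => Or.inr ⟨le_rfl, hη⟩) ?_
  rw [eq_top_iff]
  intro v _
  by_cases hv : v = 0
  · rw [hv]; exact zero_mem _
  · exact Submodule.subset_span ⟨hv, hη⟩

private lemma Cpl_nonneg {η : ℝ} (hη : 0 ≤ η) {Φ : (Submodule (ZMod 2) V → ℝ) →ₗ[ℝ] ℝ}
    (h : Pos η Φ) (U : Submodule (ZMod 2) V) : 0 ≤ coef Φ U := by
  rw [← Cpl_coef_push_bot]
  exact Cpl_bot_nonneg hη (h.push U.mkQ U.mkQ_surjective)

private lemma Cpl_coef_span (Φ : (Submodule (ZMod 2) V → ℝ) →ₗ[ℝ] ℝ) {v : V} (hv : v ≠ 0) :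
    Φ (del (Submodule.span (ZMod 2) {v})) = -coef Φ (Submodule.span (ZMod 2) {v}) := by
  unfold coef
  rw [finrank_span_singleton hv, pow_one]
  ring

open Classical in
private lemma Cpl_D {η : ℝ} (hη : 0 ≤ η) {Φ : (Submodule (ZMod 2) V → ℝ) →ₗ[ℝ] ℝ}
    (h : Pos η Φ) (f : V →ₗ[ZMod 2] ZMod 2) {v₁ : V} (hv₁ : f v₁ = 1) :
    ∑ v ∈ fib f 1, coef Φ (Submodule.span (ZMod 2) {v}) ≤
      coef Φ ⊥ + (1 - η) * coef Φ (Submodule.span (ZMod 2) {v₁}) := by
  set w : V → ℝ := fun v => if f v = 0 then 0 else if v = v₁ then η else 1 with hw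
  have hv₁0 : v₁ ≠ 0 := by
    rintro rfl
    rw [map_zero] at hv₁
    exact zero_ne_one hv₁
  have hne : ∀ v ∈ fib f 1, v ≠ 0 := by
    rintro v hv rfl
    rw [mem_fib, map_zero] at hv
    exact zero_ne_one hv
  have key : rho w = del ⊥ + ∑ v ∈ fib f 1, (if v = v₁ then η else 1) •
      del (Submodule.span (ZMod 2) {v}) := by
    funext U
    rw [Pi.add_apply, Finset.sum_apply, rho_apply]
    by_cases h0 : U = ⊥
    · rw [h0, Cpl_nz_bot, Finset.prod_empty, Finset.sum_eq_zero, Cpl_del_self, add_zero]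
      intro v hv
      rw [Pi.smul_apply, Cpl_del_ne, smul_zero]
      intro h1
      exact hne v hv (by simpa using h1.symm)
    · have hd : del ⊥ U = 0 := by rw [del, if_neg h0]
      rw [hd, zero_add]
      by_cases h1 : ∃ u ∈ U, u ≠ 0 ∧ f u = 0
      · obtain ⟨u, hu, hu0, hfu⟩ := h1
        rw [Finset.prod_eq_zero (mem_nz.mpr ⟨hu, hu0⟩) (by rw [hw]; simp [hfu])]
        symm
        apply Finset.sum_eq_zero
        intro v hv
        rw [Pi.smul_apply, Cpl_del_ne, smul_zero]
        rintro rfl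
        rcases Cpl_mem_span.mp hu with h2 | h2
        · exact hu0 h2
        · rw [mem_fib, ← h2, hfu] at hv
          exact zero_ne_one hv
      · push Not at h1
        obtain ⟨v₀, hv₀, hv₀0⟩ := Submodule.exists_mem_ne_zero_of_ne_bot h0
        have hf₀ : f v₀ = 1 := (Cpl_two _).resolve_left (h1 v₀ hv₀ hv₀0)
        have hU : U = Submodule.span (ZMod 2) {v₀} := by
          apply le_antisymm
          · intro u hu
            rw [Cpl_mem_span]
            by_contra h2
            push Not at h2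
            have hfu : f u = 1 := (Cpl_two _).resolve_left (h1 u hu h2.1)
            refine h1 (u + v₀) (U.add_mem hu hv₀) ?_ ?_
            · intro h3
              apply h2.2
              rw [← Cpl_neg v₀, ← add_eq_zero_iff_eq_neg]
              exact h3
            · rw [map_add, hfu, hf₀]
              exact Cpl_add_self _
          · rw [Submodule.span_singleton_le_iff_mem]
            exact hv₀
        have hnz : nz U = {v₀} := by
          ext u
          rw [mem_nz, Finset.mem_singleton, hU, Cpl_mem_span]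
          constructor
          · rintro ⟨h2 | h2, h3⟩
            · exact absurd h2 h3
            · exact h2
          · rintro rfl
            exact ⟨Or.inr rfl, hv₀0⟩
        rw [hnz, Finset.prod_singleton, Finset.sum_eq_single v₀]
        · rw [Pi.smul_apply, ← hU, Cpl_del_self, smul_eq_mul, mul_one, hw]
          simp [hf₀]
        · intro v hv hvv
          rw [Pi.smul_apply, Cpl_del_ne, smul_zero]
          intro h2
          have h3 : v ∈ U := by
            rw [h2]
            exact Submodule.mem_span_singleton_self v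
          rw [hU, Cpl_mem_span] at h3
          rcases h3 with h3 | h3
          · exact hne v hv h3
          · exact hvv h3
        · intro h2
          exact absurd (mem_fib.mpr hf₀) h2
  have hpos : 0 ≤ Φ (rho w) := by
    refine h.self w (fun v _ => ?_) ?_
    · rw [hw]
      simp only
      split_ifs
      · exact Or.inr ⟨le_rfl, hη⟩
      · exact Or.inr ⟨hη, le_rfl⟩
      · exact Or.inl rfl
    · rw [eq_top_iff]
      intro v _
      have hv1 : v₁ ∈ Submodule.span (ZMod 2) {v | v ≠ 0 ∧ w v ≤ η} := by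
        apply Submodule.subset_span
        refine ⟨hv₁0, ?_⟩
        rw [hw]
        simp [hv₁]
      have hk : ∀ u, f u = 0 → u ∈ Submodule.span (ZMod 2) {v | v ≠ 0 ∧ w v ≤ η} := by
        intro u hu
        by_cases hu0 : u = 0
        · rw [hu0]; exact zero_mem _
        · apply Submodule.subset_span
          refine ⟨hu0, ?_⟩
          rw [hw]
          simpa [hu] using hη
      rcases Cpl_two (f v) with h2 | h2
      · exact hk v h2
      · have h3 : f (v + v₁) = 0 := by
          rw [map_add, h2, hv₁]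
          exact Cpl_add_self _
        have h4 := Submodule.add_mem _ (hk _ h3) hv1
        rwa [add_assoc, Cpl_add_self, add_zero] at h4
  rw [key, map_add, map_sum, ← Cpl_coef_bot] at hpos
  have h5 : ∑ v ∈ fib f 1, Φ ((if v = v₁ then η else 1) • del (Submodule.span (ZMod 2) {v})) =
      -∑ v ∈ fib f 1, coef Φ (Submodule.span (ZMod 2) {v}) +
        (1 - η) * coef Φ (Submodule.span (ZMod 2) {v₁}) := by
    have h6 : ∀ v ∈ fib f 1, Φ ((if v = v₁ then η else 1) • del (Submodule.span (ZMod 2) {v})) =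
        -coef Φ (Submodule.span (ZMod 2) {v}) +
          (if v = v₁ then (1 - η) * coef Φ (Submodule.span (ZMod 2) {v₁}) else 0) := by
      intro v hv
      rw [map_smul, Cpl_coef_span Φ (hne v hv), smul_eq_mul]
      split_ifs with h7
      · rw [h7]; ring
      · ring
    rw [Finset.sum_congr rfl h6, Finset.sum_add_distrib, Finset.sum_neg_distrib,
      Finset.sum_ite_eq' (fib f 1) v₁, if_pos (mem_fib.mpr hv₁)]
  rw [h5] at hpos
  linarith

/-! ## dimensions and functionals -/

private lemma Cpl_exists_dual {v : V} (hv : v ≠ 0) : ∃ f : V →ₗ[ZMod 2] ZMod 2, f v = 1 := by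
  have : Module.Finite (ZMod 2) V := Module.Finite.of_finite
  by_contra h
  push Not at h
  exact hv ((Module.forall_dual_apply_eq_zero_iff (ZMod 2) v).mp fun f =>
    (Cpl_two (f v)).resolve_right (h f))

private lemma Cpl_card_fib (f : V →ₗ[ZMod 2] ZMod 2) {v₁ : V} (hv₁ : f v₁ = 1) {m : ℕ}
    (hm : finrank (ZMod 2) V = m + 1) : (fib f 1).card = 2 ^ m := by
  have : Module.Finite (ZMod 2) V := Module.Finite.of_finite
  have hf : f ≠ 0 := by
    rintro rfl
    rw [LinearMap.zero_apply] at hv₁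
    exact zero_ne_one hv₁
  have h1 := Module.Dual.finrank_ker_add_one_of_ne_zero hf
  have h2 : Nat.card (LinearMap.ker f) = 2 ^ m := by
    rw [Module.natCard_eq_pow_finrank (K := ZMod 2), Nat.card_zmod]
    congr 1
    omega
  rw [← h2]
  unfold fib
  rw [← Set.ncard_eq_toFinset_card, ← Nat.card_coe_set_eq]
  refine Nat.card_congr ⟨fun v => ⟨v.1 + v₁, ?_⟩, fun v => ⟨v.1 + v₁, ?_⟩, ?_, ?_⟩
  · have := v.2
    rw [LinearMap.mem_ker, map_add, hv₁, show f v.1 = 1 from v.2]
    exact Cpl_add_self _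
  · have h3 := v.2
    rw [LinearMap.mem_ker] at h3
    show f (v.1 + v₁) = 1
    rw [map_add, h3, hv₁, zero_add]
  · intro v
    apply Subtype.ext
    show v.1 + v₁ + v₁ = v.1
    rw [add_assoc, Cpl_add_self, add_zero]
  · intro v
    apply Subtype.ext
    show v.1 + v₁ + v₁ = v.1
    rw [add_assoc, Cpl_add_self, add_zero]

private lemma Cpl_quot {v : V} (hv : v ≠ 0) {m : ℕ} (hm : finrank (ZMod 2) V = m + 1) :
    finrank (ZMod 2) (V ⧸ Submodule.span (ZMod 2) {v}) = m := by
  have : Module.Finite (ZMod 2) V := Module.Finite.of_finite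
  have h1 := Submodule.finrank_quotient_add_finrank (Submodule.span (ZMod 2) {v})
  rw [finrank_span_singleton hv] at h1
  omega

/-- the constants of the bound -/
private noncomputable def Cpl_b (η : ℝ) : ℕ → ℝ
  | 0 => 1
  | d + 1 => (2 ^ d - 1 + η) * Cpl_b η d

private lemma Cpl_b_nonneg {η : ℝ} (hη : 0 ≤ η) (d : ℕ) : 0 ≤ Cpl_b η d := by
  induction d with
  | zero => exact zero_le_one
  | succ d ih =>
    have h1 : (1 : ℝ) ≤ 2 ^ d := one_le_pow₀ (by norm_num)
    exact mul_nonneg (by linarith) ih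

private lemma Cpl_bound {η : ℝ} (hη : 0 ≤ η) (m : ℕ) :
    ∀ (V : Type) [AddCommGroup V] [Module (ZMod 2) V] [Finite V]
      (Φ : (Submodule (ZMod 2) V → ℝ) →ₗ[ℝ] ℝ), Pos η Φ → finrank (ZMod 2) V = m →
      Cpl_b η m * coef Φ ⊤ ≤ coef Φ ⊥ := by
  induction m with
  | zero =>
    intro V _ _ _ Φ h hm
    have : Module.Finite (ZMod 2) V := Module.Finite.of_finite
    have h1 : Subsingleton V := Module.finrank_zero_iff.mp hm
    have h2 : (⊤ : Submodule (ZMod 2) V) = ⊥ := by
      rw [Submodule.eq_bot_iff]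
      intro x _
      exact Subsingleton.elim _ _
    rw [h2]
    exact (one_mul _).le
  | succ m ih =>
    intro V _ _ _ Φ h hm
    classical
    have : Module.Finite (ZMod 2) V := Module.Finite.of_finite
    obtain ⟨v₁, hv₁⟩ : ∃ v : V, v ≠ 0 := by
      apply (finrank_pos_iff_exists_ne_zero (R := ZMod 2)).mp
      omega
    obtain ⟨f, hf⟩ := Cpl_exists_dual hv₁
    have hD := Cpl_D hη h f hf
    have hA : ∀ v ∈ fib f 1, Cpl_b η m * coef Φ ⊤ ≤ coef Φ (Submodule.span (ZMod 2) {v}) := by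
      intro v hv
      have hv0 : v ≠ 0 := by
        rintro rfl
        rw [mem_fib, map_zero] at hv
        exact zero_ne_one hv
      have h3 := ih _ (push (Submodule.span (ZMod 2) {v}).mkQ Φ)
        (h.push _ (Submodule.mkQ_surjective _)) (Cpl_quot hv0 hm)
      rwa [Cpl_coef_push_top, Cpl_coef_push_bot] at h3
    have hmem : v₁ ∈ fib f 1 := mem_fib.mpr hf
    rw [← Finset.add_sum_erase _ _ hmem] at hD
    have hS : ((2 : ℝ) ^ m - 1) * (Cpl_b η m * coef Φ ⊤) ≤
        ∑ v ∈ (fib f 1).erase v₁, coef Φ (Submodule.span (ZMod 2) {v}) := by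
      have h4 := Finset.card_nsmul_le_sum ((fib f 1).erase v₁)
        (fun v => coef Φ (Submodule.span (ZMod 2) {v})) (Cpl_b η m * coef Φ ⊤)
        fun v hv => hA v (Finset.mem_of_mem_erase hv)
      rw [Finset.card_erase_of_mem hmem, Cpl_card_fib f hf hm, nsmul_eq_mul,
        Nat.cast_sub Nat.one_le_two_pow] at h4
      push_cast at h4
      exact h4
    have h5 := mul_le_mul_of_nonneg_left (hA v₁ hmem) hη
    show (2 ^ m - 1 + η) * Cpl_b η m * coef Φ ⊤ ≤ _
    nlinarith [hD, hS, h5]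

private lemma Cpl_half {η : ℝ} (hη : 1 / 3 ≤ η) {Φ : (Submodule (ZMod 2) V → ℝ) →ₗ[ℝ] ℝ}
    (h : Pos η Φ) (hη1 : η < 1) (hm : 2 ≤ finrank (ZMod 2) V) (f : V →ₗ[ZMod 2] ZMod 2) :
    2 * ∑ v ∈ fib f 1, coef Φ (Submodule.span (ZMod 2) {v}) ≤ 3 * coef Φ ⊥ := by
  classical
  have : Module.Finite (ZMod 2) V := Module.Finite.of_finite
  have hη0 : 0 ≤ η := by linarith
  have h0 := Cpl_nonneg hη0 h ⊥
  by_cases hf : ∃ v₁, f v₁ = 1
  · obtain ⟨v₁, hv₁⟩ := hf
    obtain ⟨k, hk, hk0⟩ : ∃ k, f k = 0 ∧ k ≠ 0 := by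
      have hf0 : f ≠ 0 := by
        rintro rfl
        rw [LinearMap.zero_apply] at hv₁
        exact zero_ne_one hv₁
      have h1 := Module.Dual.finrank_ker_add_one_of_ne_zero hf0
      have h2 : LinearMap.ker f ≠ ⊥ := by
        intro h3
        rw [h3, finrank_bot] at h1
        omega
      obtain ⟨k, hk, hk0⟩ := Submodule.exists_mem_ne_zero_of_ne_bot h2
      exact ⟨k, hk, hk0⟩
    have hv₂ : f (v₁ + k) = 1 := by rw [map_add, hv₁, hk, add_zero]
    have hne : v₁ ≠ v₁ + k := by
      intro h3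
      apply hk0
      rwa [left_eq_add] at h3
    have hD1 := Cpl_D hη0 h f hv₁
    have hD2 := Cpl_D hη0 h f hv₂
    have hsum : coef Φ (Submodule.span (ZMod 2) {v₁}) +
        coef Φ (Submodule.span (ZMod 2) {v₁ + k}) ≤
        ∑ v ∈ fib f 1, coef Φ (Submodule.span (ZMod 2) {v}) := by
      rw [← Finset.sum_pair (f := fun v => coef Φ (Submodule.span (ZMod 2) {v})) hne]
      apply Finset.sum_le_sum_of_subset_of_nonneg
      · intro v hv
        rw [Finset.mem_insert, Finset.mem_singleton] at hv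
        rcases hv with rfl | rfl
        · exact mem_fib.mpr hv₁
        · exact mem_fib.mpr hv₂
      · intro v _ _
        exact Cpl_nonneg hη0 h _
    set S := ∑ v ∈ fib f 1, coef Φ (Submodule.span (ZMod 2) {v}) with hS
    have h6 : (1 - η) * (coef Φ (Submodule.span (ZMod 2) {v₁}) +
        coef Φ (Submodule.span (ZMod 2) {v₁ + k})) ≤ (1 - η) * S :=
      mul_le_mul_of_nonneg_left hsum (by linarith)
    have h7 : (1 + η) * S ≤ 2 * coef Φ ⊥ := by nlinarith
    have h8 : 0 ≤ (η - 1 / 3) * coef Φ ⊥ := mul_nonneg (by linarith) h0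
    nlinarith
  · push Not at hf
    have h1 : fib f 1 = ∅ := by
      ext v
      rw [mem_fib]
      simp [hf v]
    rw [h1, Finset.sum_empty]
    linarith

/-- exactly half of the functionals are one at a nonzero vector -/
private lemma Cpl_dual_half [Fintype (V →ₗ[ZMod 2] ZMod 2)] {v : V} (hv : v ≠ 0) :
    2 * ∑ f : V →ₗ[ZMod 2] ZMod 2, (if f v = 1 then (1 : ℝ) else 0) =
      Fintype.card (V →ₗ[ZMod 2] ZMod 2) := by
  obtain ⟨f₀, hf₀⟩ := Cpl_exists_dual hv
  have h1 : ∑ f : V →ₗ[ZMod 2] ZMod 2, (if f v = 1 then (1 : ℝ) else 0) =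
      ∑ f : V →ₗ[ZMod 2] ZMod 2, (if f v = 0 then (1 : ℝ) else 0) := by
    rw [← Equiv.sum_comp (Equiv.addRight f₀)]
    refine Finset.sum_congr rfl fun f _ => ?_
    have h2 : (Equiv.addRight f₀ f) v = f v + 1 := by
      rw [Equiv.coe_addRight, LinearMap.add_apply, hf₀]
    rw [h2]
    rcases Cpl_two (f v) with h3 | h3
    · rw [h3, if_pos (zero_add _), if_pos rfl]
    · rw [h3, Cpl_add_self, if_neg zero_ne_one, if_neg one_ne_zero]
  rw [two_mul]
  nth_rewrite 2 [h1]
  rw [← Finset.sum_add_distrib]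
  have h4 : ∀ f ∈ (Finset.univ : Finset (V →ₗ[ZMod 2] ZMod 2)),
      (if f v = 1 then (1 : ℝ) else 0) + (if f v = 0 then (1 : ℝ) else 0) = 1 := by
    intro f _
    rcases Cpl_two (f v) with h3 | h3
    · rw [h3, if_neg zero_ne_one, if_pos rfl, zero_add]
    · rw [h3, if_pos rfl, if_neg one_ne_zero, add_zero]
  rw [Finset.sum_congr rfl h4, Finset.sum_const, nsmul_eq_mul, mul_one, Finset.card_univ]

private lemma Cpl_four {η : ℝ} (hη : 1 / 3 ≤ η) (hη1 : η < 1)
    {Φ : (Submodule (ZMod 2) V → ℝ) →ₗ[ℝ] ℝ} (h : Pos η Φ) (hm : 0 < finrank (ZMod 2) V) :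
    ∑ v ∈ nz (⊤ : Submodule (ZMod 2) V), coef Φ (Submodule.span (ZMod 2) {v}) ≤
      3 * coef Φ ⊥ := by
  classical
  have : Module.Finite (ZMod 2) V := Module.Finite.of_finite
  have hη0 : 0 ≤ η := by linarith
  have h0 := Cpl_nonneg hη0 h ⊥
  by_cases hm2 : 2 ≤ finrank (ZMod 2) V
  · have : Finite (V →ₗ[ZMod 2] ZMod 2) := Module.finite_of_finite (ZMod 2)
    letI : Fintype (V →ₗ[ZMod 2] ZMod 2) := Fintype.ofFinite _
    set c : ℝ := ((Fintype.card (V →ₗ[ZMod 2] ZMod 2) : ℕ) : ℝ) with hc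
    have hcpos : 0 < c := by
      rw [hc]
      have : 0 < Fintype.card (V →ₗ[ZMod 2] ZMod 2) := Fintype.card_pos
      exact_mod_cast this
    have h1 : ∑ f : V →ₗ[ZMod 2] ZMod 2,
        2 * ∑ v ∈ fib f 1, coef Φ (Submodule.span (ZMod 2) {v}) ≤ c * (3 * coef Φ ⊥) := by
      have h2 : ∑ f : V →ₗ[ZMod 2] ZMod 2,
          2 * ∑ v ∈ fib f 1, coef Φ (Submodule.span (ZMod 2) {v}) ≤
          ∑ _f : V →ₗ[ZMod 2] ZMod 2, 3 * coef Φ ⊥ :=
        Finset.sum_le_sum fun f _ => Cpl_half hη h hη1 hm2 f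
      rwa [Finset.sum_const, nsmul_eq_mul, Finset.card_univ] at h2
    have h3 : ∑ f : V →ₗ[ZMod 2] ZMod 2,
        2 * ∑ v ∈ fib f 1, coef Φ (Submodule.span (ZMod 2) {v}) =
        c * ∑ v ∈ nz (⊤ : Submodule (ZMod 2) V), coef Φ (Submodule.span (ZMod 2) {v}) := by
      have h4 : ∀ f : V →ₗ[ZMod 2] ZMod 2,
          ∑ v ∈ fib f 1, coef Φ (Submodule.span (ZMod 2) {v}) =
          ∑ v ∈ nz (⊤ : Submodule (ZMod 2) V),
            (if f v = 1 then (1 : ℝ) else 0) * coef Φ (Submodule.span (ZMod 2) {v}) := by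
        intro f
        have h5 : fib f 1 = (nz (⊤ : Submodule (ZMod 2) V)).filter (fun v => f v = 1) := by
          ext v
          rw [mem_fib, Finset.mem_filter, mem_nz]
          constructor
          · intro h6
            refine ⟨⟨Submodule.mem_top, ?_⟩, h6⟩
            rintro rfl
            rw [map_zero] at h6
            exact zero_ne_one h6
          · exact fun h6 => h6.2
        rw [h5, Finset.sum_filter]
        refine Finset.sum_congr rfl fun v _ => ?_
        split_ifs
        · rw [one_mul]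
        · rw [zero_mul]
      simp only [h4]
      rw [← Finset.mul_sum, Finset.sum_comm, Finset.mul_sum, Finset.mul_sum]
      refine Finset.sum_congr rfl fun v hv => ?_
      rw [← Finset.sum_mul, ← mul_assoc, Cpl_dual_half (mem_nz.mp hv).2]
    rw [h3] at h1
    exact le_of_mul_le_mul_left h1 hcpos
  · have hm1 : finrank (ZMod 2) V = 0 + 1 := by omega
    obtain ⟨v₁, hv₁⟩ : ∃ v : V, v ≠ 0 :=
      (finrank_pos_iff_exists_ne_zero (R := ZMod 2)).mp hm
    have hspan : Submodule.span (ZMod 2) {v₁} = ⊤ := by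
      apply Submodule.eq_top_of_finrank_eq
      rw [finrank_span_singleton hv₁, hm1]
    have h2 : nz (⊤ : Submodule (ZMod 2) V) = {v₁} := by
      ext v
      rw [mem_nz, Finset.mem_singleton, ← hspan, Cpl_mem_span]
      constructor
      · rintro ⟨h3 | h3, h4⟩
        · exact absurd h3 h4
        · exact h3
      · rintro rfl
        exact ⟨Or.inr rfl, hv₁⟩
    have h3 := Cpl_bound hη0 1 V Φ h (by omega)
    have h4 : Cpl_b η 1 = η := by
      show (2 ^ 0 - 1 + η) * 1 = η
      ring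
    have h5 := Cpl_nonneg hη0 h ⊤
    rw [h2, Finset.sum_singleton, hspan]
    rw [h4] at h3
    have h6 : 0 ≤ (η - 1 / 3) * coef Φ ⊤ := mul_nonneg (by linarith) h5
    nlinarith

/-! ## layers -/

private lemma Cpl_up_layer [Fintype (Submodule (ZMod 2) V)]
    [DecidableEq (Submodule (ZMod 2) V)] [DecidableRel (α := Submodule (ZMod 2) V) (· ≤ ·)]
    {η : ℝ} (hη : 1 / 3 ≤ η) (hη1 : η < 1)
    {Φ : (Submodule (ZMod 2) V → ℝ) →ₗ[ℝ] ℝ} (h : Pos η Φ) (U : Submodule (ZMod 2) V) :
    ∑ U' ∈ Finset.univ.filter (fun U' : Submodule (ZMod 2) V =>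
      U ≤ U' ∧ finrank (ZMod 2) U' = finrank (ZMod 2) U + 1), coef Φ U' ≤ 3 * coef Φ U := by
  classical
  have : Module.Finite (ZMod 2) V := Module.Finite.of_finite
  have hη0 : 0 ≤ η := by linarith
  set S := Finset.univ.filter (fun U' : Submodule (ZMod 2) V =>
      U ≤ U' ∧ finrank (ZMod 2) U' = finrank (ZMod 2) U + 1) with hS
  by_cases hd : 0 < finrank (ZMod 2) (V ⧸ U)
  · have h1 := Cpl_four hη hη1 (h.push U.mkQ U.mkQ_surjective) hd
    rw [Cpl_coef_push_bot] at h1
    refine le_trans ?_ h1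
    have hinj : Set.InjOn (fun q : V ⧸ U => (Submodule.span (ZMod 2) {q}).comap U.mkQ)
        (nz (⊤ : Submodule (ZMod 2) (V ⧸ U)) : Set (V ⧸ U)) := by
      intro q hq q' hq' hqq
      have h2 := Submodule.comap_injective_of_surjective U.mkQ_surjective hqq
      have h3 : q ∈ Submodule.span (ZMod 2) {q'} := by
        rw [← h2]
        exact Submodule.mem_span_singleton_self q
      rcases Cpl_mem_span.mp h3 with h4 | h4
      · exact absurd h4 (mem_nz.mp hq).2
      · exact h4
    have h5 : ∑ q ∈ nz (⊤ : Submodule (ZMod 2) (V ⧸ U)),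
        coef (push U.mkQ Φ) (Submodule.span (ZMod 2) {q}) =
        ∑ U' ∈ (nz (⊤ : Submodule (ZMod 2) (V ⧸ U))).image
          (fun q => (Submodule.span (ZMod 2) {q}).comap U.mkQ), coef Φ U' := by
      rw [Finset.sum_image hinj]
      exact Finset.sum_congr rfl fun q _ => Cpl_coef_push Φ U _
    rw [h5]
    apply Finset.sum_le_sum_of_subset_of_nonneg
    · intro U' hU'
      rw [hS, Finset.mem_filter] at hU'
      obtain ⟨-, hle, hdim⟩ := hU'
      obtain ⟨v, hv, hvU⟩ : ∃ v ∈ U', v ∉ U := by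
        by_contra hcon
        push Not at hcon
        have : U' = U := le_antisymm hcon hle
        rw [this] at hdim
        omega
      rw [Finset.mem_image]
      have hq0 : U.mkQ v ≠ 0 := by
        rw [Submodule.mkQ_apply, Ne, Submodule.Quotient.mk_eq_zero]
        exact hvU
      refine ⟨U.mkQ v, mem_nz.mpr ⟨Submodule.mem_top, hq0⟩, ?_⟩
      apply Submodule.eq_of_le_of_finrank_le
      · intro x hx
        rw [Submodule.mem_comap, Cpl_mem_span] at hx
        rcases hx with hx | hx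
        · rw [Submodule.mkQ_apply, Submodule.Quotient.mk_eq_zero] at hx
          exact hle hx
        · rw [Submodule.mkQ_apply, Submodule.mkQ_apply, Submodule.Quotient.eq] at hx
          have := U'.add_mem (hle hx) hv
          rwa [sub_add_cancel] at this
      · have h6 : U < (Submodule.span (ZMod 2) {U.mkQ v}).comap U.mkQ := by
          rw [lt_iff_le_and_ne]
          constructor
          · intro x hx
            have h8 : U.mkQ x = 0 := by
              rw [Submodule.mkQ_apply, Submodule.Quotient.mk_eq_zero]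
              exact hx
            rw [Submodule.mem_comap, h8]
            exact zero_mem _
          · intro h7
            apply hvU
            rw [h7, Submodule.mem_comap]
            exact Submodule.mem_span_singleton_self _
        have := Submodule.finrank_lt_finrank_of_lt h6
        omega
    · intro U' _ _
      exact Cpl_nonneg hη0 h U'
  · have h1 : S = ∅ := by
      rw [hS, Finset.filter_eq_empty_iff]
      rintro U' - ⟨_, h3⟩
      have h4 := Submodule.finrank_quotient_add_finrank U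
      have h5 := Submodule.finrank_le U'
      omega
    rw [h1, Finset.sum_empty]
    exact mul_nonneg (by norm_num) (Cpl_nonneg hη0 h U)

private lemma Cpl_down [Fintype (Submodule (ZMod 2) V)]
    [DecidableEq (Submodule (ZMod 2) V)] [DecidableRel (α := Submodule (ZMod 2) V) (· ≤ ·)]
    {u : ℕ} (hu : 1 ≤ u) (U' : Submodule (ZMod 2) V) (hU' : finrank (ZMod 2) U' = u + 1) :
    3 ≤ (Finset.univ.filter (fun U : Submodule (ZMod 2) V =>
      U ≤ U' ∧ finrank (ZMod 2) U = u)).card := by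
  classical
  have : Module.Finite (ZMod 2) V := Module.Finite.of_finite
  have : Finite (U' →ₗ[ZMod 2] ZMod 2) := Module.finite_of_finite (ZMod 2)
  letI : Fintype (U' →ₗ[ZMod 2] ZMod 2) := Fintype.ofFinite _
  have hcard : Fintype.card (U' →ₗ[ZMod 2] ZMod 2) = 2 ^ (u + 1) := by
    have h1 := Module.card_eq_pow_finrank (K := ZMod 2) (V := Module.Dual (ZMod 2) U')
    rw [Subspace.dual_finrank_eq, hU', ZMod.card] at h1
    exact h1
  have h2 : 4 ≤ 2 ^ (u + 1) := by
    calc 4 = 2 ^ (1 + 1) := by norm_num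
      _ ≤ 2 ^ (u + 1) := Nat.pow_le_pow_right (by norm_num) (by omega)
  have h3 : ((Finset.univ : Finset (U' →ₗ[ZMod 2] ZMod 2)).erase 0).card = 2 ^ (u + 1) - 1 := by
    rw [Finset.card_erase_of_mem (Finset.mem_univ _), Finset.card_univ, hcard]
  refine le_trans (by omega : 3 ≤ 2 ^ (u + 1) - 1) ?_
  rw [← h3]
  apply Finset.card_le_card_of_injOn (fun f => (LinearMap.ker f).map U'.subtype)
  · intro f hf
    rw [Finset.mem_coe, Finset.mem_erase] at hf
    rw [Finset.mem_coe, Finset.mem_filter]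
    refine ⟨Finset.mem_univ _, Submodule.map_subtype_le _ _, ?_⟩
    rw [Submodule.finrank_map_subtype_eq]
    have := Module.Dual.finrank_ker_add_one_of_ne_zero hf.1
    omega
  · intro f _ f' _ hff
    have h4 := Submodule.map_injective_of_injective U'.injective_subtype hff
    apply LinearMap.ext
    intro x
    have h5 : f x = 0 ↔ f' x = 0 := by
      rw [← LinearMap.mem_ker, h4, LinearMap.mem_ker]
    rcases Cpl_two (f x) with h6 | h6 <;> rcases Cpl_two (f' x) with h7 | h7
    · rw [h6, h7]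
    · rw [h5.mp h6] at h7
      exact absurd h7 zero_ne_one
    · rw [h5.mpr h7] at h6
      exact absurd h6 zero_ne_one
    · rw [h6, h7]

private lemma Cpl_layer [Fintype (Submodule (ZMod 2) V)]
    [DecidableEq (Submodule (ZMod 2) V)] [DecidableRel (α := Submodule (ZMod 2) V) (· ≤ ·)]
    {η : ℝ} (hη : 1 / 3 ≤ η) (hη1 : η < 1)
    {Φ : (Submodule (ZMod 2) V → ℝ) →ₗ[ℝ] ℝ} (h : Pos η Φ) {u : ℕ} (hu : 1 ≤ u) :
    ∑ U ∈ Finset.univ.filter (fun U : Submodule (ZMod 2) V =>
        finrank (ZMod 2) U = u + 1), coef Φ U ≤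
      ∑ U ∈ Finset.univ.filter (fun U : Submodule (ZMod 2) V =>
        finrank (ZMod 2) U = u), coef Φ U := by
  have hη0 : 0 ≤ η := by linarith
  have h1 : 3 * ∑ U ∈ Finset.univ.filter (fun U : Submodule (ZMod 2) V =>
        finrank (ZMod 2) U = u + 1), coef Φ U ≤
      ∑ U' ∈ Finset.univ.filter (fun U : Submodule (ZMod 2) V => finrank (ZMod 2) U = u + 1),
        ∑ _U ∈ Finset.univ.filter (fun U : Submodule (ZMod 2) V =>
          U ≤ U' ∧ finrank (ZMod 2) U = u), coef Φ U' := by
    rw [Finset.mul_sum]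
    apply Finset.sum_le_sum
    intro U' hU'
    rw [Finset.sum_const, nsmul_eq_mul]
    have h2 := Cpl_down hu U' (Finset.mem_filter.mp hU').2
    exact mul_le_mul_of_nonneg_right (by exact_mod_cast h2) (Cpl_nonneg hη0 h U')
  have h3 : ∑ U' ∈ Finset.univ.filter (fun U : Submodule (ZMod 2) V =>
        finrank (ZMod 2) U = u + 1),
        ∑ _U ∈ Finset.univ.filter (fun U : Submodule (ZMod 2) V =>
          U ≤ U' ∧ finrank (ZMod 2) U = u), coef Φ U' =
      ∑ U ∈ Finset.univ.filter (fun U : Submodule (ZMod 2) V => finrank (ZMod 2) U = u),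
        ∑ U' ∈ Finset.univ.filter (fun U' : Submodule (ZMod 2) V =>
          U ≤ U' ∧ finrank (ZMod 2) U' = u + 1), coef Φ U' := by
    apply Finset.sum_comm'
    intro U' U
    simp only [Finset.mem_filter, Finset.mem_univ, true_and]
    tauto
  have h4 : ∑ U ∈ Finset.univ.filter (fun U : Submodule (ZMod 2) V => finrank (ZMod 2) U = u),
        ∑ U' ∈ Finset.univ.filter (fun U' : Submodule (ZMod 2) V =>
          U ≤ U' ∧ finrank (ZMod 2) U' = u + 1), coef Φ U' ≤
      3 * ∑ U ∈ Finset.univ.filter (fun U : Submodule (ZMod 2) V => finrank (ZMod 2) U = u),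
        coef Φ U := by
    rw [Finset.mul_sum]
    apply Finset.sum_le_sum
    intro U hU
    have h5 := Cpl_up_layer hη hη1 h U
    rwa [(Finset.mem_filter.mp hU).2] at h5
  linarith

private lemma Cpl_alt {a : ℕ → ℝ} (h0 : ∀ u, 0 ≤ a u) (h1 : ∀ u, 1 ≤ u → a (u + 1) ≤ a u)
    (N : ℕ) : ∑ u ∈ Finset.range (N + 1), (-1) ^ u * a u ≤ a 0 := by
  have h2 : ∀ k : ℕ, ∑ u ∈ Finset.range (2 * k + 1), (-1) ^ u * a u ≤ a 0 := by
    intro k
    induction k with
    | zero =>
      rw [Nat.mul_zero, zero_add, Finset.sum_range_one, pow_zero, one_mul]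
    | succ k ih =>
      have e : 2 * (k + 1) + 1 = 2 * k + 1 + 1 + 1 := by ring
      rw [e, Finset.sum_range_succ, Finset.sum_range_succ]
      have e1 : ((-1 : ℝ)) ^ (2 * k + 1) = -1 := by
        rw [pow_succ, pow_mul]
        norm_num
      have e2 : ((-1 : ℝ)) ^ (2 * k + 1 + 1) = 1 := by
        rw [pow_succ, e1]
        norm_num
      rw [e1, e2]
      have := h1 (2 * k + 1) (by omega)
      linarith
  rcases Nat.even_or_odd' N with ⟨k, rfl | rfl⟩
  · exact h2 k
  · rw [Finset.sum_range_succ]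
    have e1 : ((-1 : ℝ)) ^ (2 * k + 1) = -1 := by
      rw [pow_succ, pow_mul]
      norm_num
    rw [e1]
    have := h0 (2 * k + 1)
    have := h2 k
    linarith

private lemma Cpl_card_nz (U : Submodule (ZMod 2) V) :
    (nz U).card + 1 = 2 ^ finrank (ZMod 2) U := by
  classical
  have : Module.Finite (ZMod 2) V := Module.Finite.of_finite
  have h1 : Nat.card U = 2 ^ finrank (ZMod 2) U := by
    rw [Module.natCard_eq_pow_finrank (K := ZMod 2), Nat.card_zmod]
  rw [← h1]
  have h2 : (0 : V) ∉ nz U := fun h => (mem_nz.mp h).2 rfl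
  have h5 : Nat.card U = (U : Set V).ncard := Nat.card_coe_set_eq (U : Set V)
  rw [← Finset.card_insert_of_notMem h2, h5, Set.ncard_eq_toFinset_card _ (Set.toFinite _)]
  congr 1
  ext v
  rw [Finset.mem_insert, mem_nz, Set.Finite.mem_toFinset, SetLike.mem_coe]
  constructor
  · rintro (rfl | h3)
    · exact U.zero_mem
    · exact h3.1
  · intro h3
    by_cases h4 : v = 0
    · exact Or.inl h4
    · exact Or.inr ⟨h3, h4⟩

private lemma Cpl_minus {η : ℝ} (hη : 1 / 3 ≤ η) (hη1 : η < 1)
    {Φ : (Submodule (ZMod 2) V → ℝ) →ₗ[ℝ] ℝ} (h : Pos η Φ) :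
    coef Φ ⊥ ≤ Φ (rho fun _ => -1) := by
  classical
  have : Module.Finite (ZMod 2) V := Module.Finite.of_finite
  letI : Fintype (Submodule (ZMod 2) V) := Fintype.ofFinite _
  have hη0 : 0 ≤ η := by linarith
  set a : ℕ → ℝ := fun u => ∑ U ∈ Finset.univ.filter (fun U : Submodule (ZMod 2) V =>
        finrank (ZMod 2) U = u), coef Φ U with ha
  have ha0 : a 0 = coef Φ ⊥ := by
    have h1 : Finset.univ.filter (fun U : Submodule (ZMod 2) V => finrank (ZMod 2) U = 0) =
        {⊥} := by
      ext U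
      rw [Finset.mem_filter, Finset.mem_singleton, Submodule.finrank_eq_zero]
      exact ⟨fun h => h.2, fun h => ⟨Finset.mem_univ _, h⟩⟩
    rw [ha]
    simp only
    rw [h1, Finset.sum_singleton]
  have key : rho (fun _ : V => (-1 : ℝ)) = (2 : ℝ) • del ⊥ - ∑ U, del U := by
    funext U
    rw [Pi.sub_apply, Pi.smul_apply, Finset.sum_apply, rho_apply, Finset.prod_const]
    have h2 : ∑ U', del U' U = (1 : ℝ) := by
      rw [Finset.sum_eq_single U]
      · exact Cpl_del_self
      · intro U' _ hU'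
        exact Cpl_del_ne hU'.symm
      · intro h3
        exact absurd (Finset.mem_univ _) h3
    rw [h2]
    by_cases hU : U = ⊥
    · rw [hU, Cpl_nz_bot, Finset.card_empty, Cpl_del_self]
      norm_num
    · rw [Cpl_del_ne hU]
      have h3 := Cpl_card_nz U
      have h4 : 0 < finrank (ZMod 2) U := by
        rw [Nat.pos_iff_ne_zero]
        intro h5
        exact hU (Submodule.finrank_eq_zero.mp h5)
      obtain ⟨k, hk⟩ := Nat.exists_eq_succ_of_ne_zero h4.ne'
      rw [hk, Nat.succ_eq_add_one, pow_succ] at h3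
      have h5 : 1 ≤ 2 ^ k := Nat.one_le_two_pow
      have h6 : (nz U).card = 2 * (2 ^ k - 1) + 1 := by omega
      rw [h6, pow_succ, pow_mul]
      norm_num
  have h3 : Φ (∑ U, del U) ≤ coef Φ ⊥ := by
    rw [map_sum]
    have h4 : ∀ U ∈ (Finset.univ : Finset (Submodule (ZMod 2) V)), Φ (del U) =
        (-1) ^ finrank (ZMod 2) U * coef Φ U := by
      intro U _
      unfold coef
      rw [← mul_assoc, ← mul_pow]
      norm_num
    rw [Finset.sum_congr rfl h4]
    have h5 : ∀ U ∈ (Finset.univ : Finset (Submodule (ZMod 2) V)), finrank (ZMod 2) U ∈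
        Finset.range (finrank (ZMod 2) V + 1) := by
      intro U _
      rw [Finset.mem_range]
      have := Submodule.finrank_le U
      omega
    rw [← Finset.sum_fiberwise_of_maps_to h5]
    have h6 : ∀ u ∈ Finset.range (finrank (ZMod 2) V + 1),
        ∑ U ∈ Finset.univ.filter (fun U : Submodule (ZMod 2) V => finrank (ZMod 2) U = u),
          (-1) ^ finrank (ZMod 2) U * coef Φ U = (-1) ^ u * a u := by
      intro u _
      rw [ha]
      simp only
      rw [Finset.mul_sum]
      refine Finset.sum_congr rfl fun U hU => ?_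
      rw [(Finset.mem_filter.mp hU).2]
    rw [Finset.sum_congr rfl h6, ← ha0]
    apply Cpl_alt
    · intro u
      exact Finset.sum_nonneg fun U _ => Cpl_nonneg hη0 h U
    · intro u hu
      exact Cpl_layer hη hη1 h hu
  rw [key, map_sub, map_smul, ← Cpl_coef_bot, smul_eq_mul]
  linarith

/-! ## small dimensions -/

private lemma Cpl_one {η : ℝ} (hη : 0 ≤ η) {Φ : (Submodule (ZMod 2) V → ℝ) →ₗ[ℝ] ℝ}
    (h : Pos η Φ) (hm : finrank (ZMod 2) V = 1) (w : V → ℝ) {v : V} (hv : v ≠ 0) :
    (η - w v) * coef Φ ⊤ ≤ Φ (rho w) := by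
  have : Module.Finite (ZMod 2) V := Module.Finite.of_finite
  have hspan : Submodule.span (ZMod 2) {v} = ⊤ := by
    apply Submodule.eq_top_of_finrank_eq
    rw [finrank_span_singleton hv, hm]
  have hnz : nz (⊤ : Submodule (ZMod 2) V) = {v} := by
    ext x
    rw [mem_nz, Finset.mem_singleton, ← hspan, Cpl_mem_span]
    constructor
    · rintro ⟨h3 | h3, h4⟩
      · exact absurd h3 h4
      · exact h3
    · rintro rfl
      exact ⟨Or.inr rfl, hv⟩
  have hbt : (⊤ : Submodule (ZMod 2) V) ≠ ⊥ := by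
    rw [← hspan, Ne, Submodule.span_singleton_eq_bot]
    exact hv
  have key : rho w = del ⊥ + w v • del ⊤ := by
    funext U
    rw [Pi.add_apply, Pi.smul_apply, rho_apply]
    by_cases hU : U = ⊥
    · rw [hU, Cpl_nz_bot, Finset.prod_empty, Cpl_del_self, Cpl_del_ne hbt.symm, smul_zero,
        add_zero]
    · have hU' : U = ⊤ := by
        obtain ⟨x, hx, hx0⟩ := Submodule.exists_mem_ne_zero_of_ne_bot hU
        have h1 : x ∈ Submodule.span (ZMod 2) {v} := by
          rw [hspan]
          exact Submodule.mem_top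
        rcases Cpl_mem_span.mp h1 with h2 | h2
        · exact absurd h2 hx0
        · rw [eq_top_iff, ← hspan, Submodule.span_singleton_le_iff_mem, ← h2]
          exact hx
      rw [hU', hnz, Finset.prod_singleton, Cpl_del_self, Cpl_del_ne hbt, smul_eq_mul, mul_one,
        zero_add]
  have h1 : Φ (del ⊤) = -coef Φ ⊤ := by
    rw [← hspan]
    exact Cpl_coef_span Φ hv
  have h2 := Cpl_bound hη 1 V Φ h hm
  have h3 : Cpl_b η 1 = η := by
    show (2 ^ 0 - 1 + η) * 1 = η
    ring
  rw [h3] at h2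
  rw [key, map_add, map_smul, h1, ← Cpl_coef_bot, smul_eq_mul]
  linarith

private lemma Cpl_pushOne {η : ℝ} (hη : 0 ≤ η) {Φ : (Submodule (ZMod 2) V → ℝ) →ₗ[ℝ] ℝ}
    (h : Pos η Φ) (hm : finrank (ZMod 2) V = 2) (w : V → ℝ) {v x : V} (hv : v ≠ 0)
    (hx : x ≠ 0) (hxv : x ≠ v) :
    (η - w x * w (x + v)) * coef Φ ⊤ ≤
      push (Submodule.span (ZMod 2) {v}).mkQ Φ (rho (pw (Submodule.span (ZMod 2) {v}).mkQ w)) := by
  classical
  set U := Submodule.span (ZMod 2) {v} with hU
  have hq : U.mkQ x ≠ 0 := by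
    rw [Submodule.mkQ_apply, Ne, Submodule.Quotient.mk_eq_zero, hU, Cpl_mem_span]
    push Not
    exact ⟨hx, hxv⟩
  have h1 := Cpl_one hη (h.push U.mkQ U.mkQ_surjective) (Cpl_quot hv hm) (pw U.mkQ w) hq
  have h2 : pw U.mkQ w (U.mkQ x) = w x * w (x + v) := by
    have h3 : fib U.mkQ (U.mkQ x) = {x, x + v} := by
      ext y
      rw [mem_fib, Finset.mem_insert, Finset.mem_singleton, Submodule.mkQ_apply,
        Submodule.mkQ_apply, Submodule.Quotient.eq, hU, Cpl_mem_span, sub_eq_zero,
        sub_eq_iff_eq_add, add_comm v x]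
    rw [pw_apply, h3, Finset.prod_pair]
    intro h4
    apply hv
    rwa [left_eq_add] at h4
  rw [h2, Cpl_coef_push_top] at h1
  exact h1

end Complete

theorem thm_Complete (h : St_Step) : St_Complete := by
  intro η t hη hη1 ht0 ht V _ _ _ Φ hP hm
  classical
  have : Module.Finite (ZMod 2) V := Module.Finite.of_finite
  set s : ℝ := Real.sqrt 2 with hs
  have hs2 : s * s = 2 := Real.mul_self_sqrt (by norm_num)
  have hs0 : 0 ≤ s := Real.sqrt_nonneg 2
  have hs1 : 4 / 3 ≤ s := by
    by_contra hcon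
    push Not at hcon
    nlinarith
  have hs3 : s ≤ 2 := by
    by_contra hcon
    push Not at hcon
    nlinarith
  have hη3 : 1 / 3 ≤ η := by linarith
  have hη0 : 0 ≤ η := by linarith
  have ht1 : t ≤ 1 := by
    by_contra hcon
    push Not at hcon
    nlinarith
  have hA := Cpl_nonneg hη0 hP ⊤
  have hcase : finrank (ZMod 2) V = 1 ∨ finrank (ZMod 2) V = 2 ∨ 3 ≤ finrank (ZMod 2) V := by
    omega
  rcases hcase with h1 | h2 | h3
  · obtain ⟨v, hv⟩ : ∃ v : V, v ≠ 0 :=
      (finrank_pos_iff_exists_ne_zero (R := ZMod 2)).mp hm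
    have h4 := Cpl_one hη0 hP h1 (fun _ => -1) hv
    rw [h1, pow_one]
    have h5 : s * t ≤ η + 1 := by nlinarith
    have h6 := mul_le_mul_of_nonneg_right h5 hA
    linarith
  · obtain ⟨a, ha⟩ : ∃ v : V, v ≠ 0 :=
      (finrank_pos_iff_exists_ne_zero (R := ZMod 2)).mp hm
    obtain ⟨q, hq⟩ : ∃ q : V ⧸ Submodule.span (ZMod 2) {a}, q ≠ 0 := by
      apply (finrank_pos_iff_exists_ne_zero (R := ZMod 2)).mp
      rw [Cpl_quot ha h2]
      exact one_pos
    obtain ⟨b, rfl⟩ := Submodule.mkQ_surjective _ q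
    have hb' : b ∉ Submodule.span (ZMod 2) {a} := by
      intro h4
      apply hq
      rw [Submodule.mkQ_apply, Submodule.Quotient.mk_eq_zero]
      exact h4
    have hb : b ≠ 0 ∧ b ≠ a := by
      rw [Cpl_mem_span] at hb'
      push Not at hb'
      exact hb'
    have hall : ∀ v : V, v = 0 ∨ v = a ∨ v = b ∨ v = a + b := by
      intro v
      have h4 : (Submodule.span (ZMod 2) {a}).mkQ v ∈
          Submodule.span (ZMod 2) {(Submodule.span (ZMod 2) {a}).mkQ b} := by
        have h5 : Submodule.span (ZMod 2) {(Submodule.span (ZMod 2) {a}).mkQ b} = ⊤ := by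
          apply Submodule.eq_top_of_finrank_eq
          rw [finrank_span_singleton hq, Cpl_quot ha h2]
        rw [h5]
        exact Submodule.mem_top
      rw [Cpl_mem_span] at h4
      rcases h4 with h4 | h4
      · rw [Submodule.mkQ_apply, Submodule.Quotient.mk_eq_zero, Cpl_mem_span] at h4
        tauto
      · rw [Submodule.mkQ_apply, Submodule.mkQ_apply, Submodule.Quotient.eq, Cpl_mem_span,
          sub_eq_zero, sub_eq_iff_eq_add] at h4
        tauto
    have hab : a + b ≠ 0 := by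
      intro h4
      apply hb.2
      rw [← Cpl_neg b]
      exact (eq_neg_of_add_eq_zero_left h4).symm
    have haab : a ≠ a + b := by
      intro h4
      apply hb.1
      rwa [left_eq_add] at h4
    have hbab : b ≠ a + b := by
      intro h4
      apply ha
      rwa [right_eq_add] at h4
    set w₀ : V → ℝ := fun _ => -1 with hw₀
    set w₁ : V → ℝ := Function.update w₀ a η with hw₁
    set w₂ : V → ℝ := Function.update w₁ b η with hw₂
    set w₃ : V → ℝ := Function.update w₂ (a + b) 1 with hw₃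
    have e1 := h V Φ a w₀ w₁ ha fun u hu => (Function.update_of_ne hu _ _).symm
    have e2 := h V Φ b w₁ w₂ hb.1 fun u hu => (Function.update_of_ne hu _ _).symm
    have e3 := h V Φ (a + b) w₂ w₃ hab fun u hu => (Function.update_of_ne hu _ _).symm
    have v1a : w₁ a = η := Function.update_self _ _ _
    have v1b : w₁ b = -1 := by rw [hw₁, Function.update_of_ne hb.2]
    have v1c : w₁ (a + b) = -1 := by rw [hw₁, Function.update_of_ne haab.symm]
    have v2b : w₂ b = η := Function.update_self _ _ _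
    have v2a : w₂ a = η := by rw [hw₂, Function.update_of_ne hb.2.symm, v1a]
    have v2c : w₂ (a + b) = -1 := by rw [hw₂, Function.update_of_ne hbab.symm, v1c]
    have v3c : w₃ (a + b) = 1 := Function.update_self _ _ _
    have v3a : w₃ a = η := by rw [hw₃, Function.update_of_ne haab, v2a]
    have v3b : w₃ b = η := by rw [hw₃, Function.update_of_ne hbab, v2b]
    have p1 := Cpl_pushOne hη0 hP h2 w₀ ha hb.1 hb.2
    have p2 := Cpl_pushOne hη0 hP h2 w₁ hb.1 ha hb.2.symm
    have p3 := Cpl_pushOne hη0 hP h2 w₂ hab ha haab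
    have v4 : a + (a + b) = b := by rw [← add_assoc, Cpl_add_self, zero_add]
    rw [v1a, v1c] at p2
    rw [v4, v2a, v2b] at p3
    have p1' : (η - 1) * coef Φ ⊤ ≤ push (Submodule.span (ZMod 2) {a}).mkQ Φ
        (rho (pw (Submodule.span (ZMod 2) {a}).mkQ w₀)) := by
      have h5 : η - w₀ b * w₀ (b + a) = η - 1 := by rw [hw₀]; norm_num
      rwa [h5] at p1
    rw [v1a, show w₀ a = -1 from rfl] at e1
    rw [v2b, v1b] at e2
    rw [v3c, v2c] at e3
    have hpos : 0 ≤ Φ (rho w₃) := by
      refine hP.self w₃ (fun v hv => ?_) ?_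
      · rcases hall v with h5 | h5 | h5 | h5
        · exact absurd h5 hv
        · rw [h5, v3a]
          exact Or.inr ⟨hη0, le_rfl⟩
        · rw [h5, v3b]
          exact Or.inr ⟨hη0, le_rfl⟩
        · rw [h5, v3c]
          exact Or.inl rfl
      · rw [eq_top_iff]
        intro v _
        have ha' : a ∈ Submodule.span (ZMod 2) {v | v ≠ 0 ∧ w₃ v ≤ η} :=
          Submodule.subset_span ⟨ha, v3a.le⟩
        have hb'' : b ∈ Submodule.span (ZMod 2) {v | v ≠ 0 ∧ w₃ v ≤ η} :=
          Submodule.subset_span ⟨hb.1, v3b.le⟩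
        rcases hall v with h5 | h5 | h5 | h5
        · rw [h5]
          exact zero_mem _
        · rw [h5]
          exact ha'
        · rw [h5]
          exact hb''
        · rw [h5]
          exact Submodule.add_mem _ ha' hb''
    rw [h2, ht, e1, e2, e3]
    have q1 := mul_le_mul_of_nonneg_left p1' (by linarith : 0 ≤ η + 1)
    have q2 := mul_le_mul_of_nonneg_left p2 (by linarith : 0 ≤ η + 1)
    have hfin : 0 ≤ (η ^ 2 + 4 * η - 1 - s * (1 - η)) * coef Φ ⊤ := by
      apply mul_nonneg _ hA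
      have h6 : 0 ≤ (3 * s + 2) * (η - (s - 1)) := mul_nonneg (by linarith) (by linarith)
      nlinarith [sq_nonneg (η - (s - 1))]
    nlinarith
  · have h4 := Cpl_bound hη0 _ V Φ hP rfl
    have h5 := Cpl_minus hη3 hη1 hP
    have hb3 : ∀ d : ℕ, 2 ≤ Cpl_b η (3 + d) := by
      intro d
      induction d with
      | zero =>
        show 2 ≤ (2 ^ 2 - 1 + η) * ((2 ^ 1 - 1 + η) * ((2 ^ 0 - 1 + η) * 1))
        have h6 : 2 - s ≤ (1 + η) * η := by nlinarith
        have h7 : (2 + s) * (2 - s) ≤ (3 + η) * ((1 + η) * η) :=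
          mul_le_mul (by linarith) h6 (by linarith) (by linarith)
        nlinarith
      | succ d ih =>
        show 2 ≤ (2 ^ (3 + d) - 1 + η) * Cpl_b η (3 + d)
        have h6 : (2 : ℝ) ≤ 2 ^ (3 + d) := by
          calc (2 : ℝ) = 2 ^ 1 := by norm_num
            _ ≤ 2 ^ (3 + d) := pow_le_pow_right₀ (by norm_num) (by omega)
        nlinarith
    obtain ⟨d, hd⟩ := Nat.exists_eq_add_of_le h3
    have h6 := hb3 d
    rw [← hd] at h6
    have h7 : t ^ finrank (ZMod 2) V ≤ 1 := pow_le_one₀ ht0 ht1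
    have h8 : s * t ^ finrank (ZMod 2) V ≤ 2 := by
      have h9 : 0 ≤ t ^ finrank (ZMod 2) V := pow_nonneg ht0 _
      nlinarith
    have h9 := mul_le_mul_of_nonneg_right (h8.trans h6) hA
    linarith

end Pool.Agent.UNI
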