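import Pool.Agent.UNI.Alg

/-!
# UNI: the algebraic theorem from Theorem C
-/

set_option autoImplicit false

open Module

namespace Pool.Agent.UNI

theorem final_sqrt {x : ℝ} (hx : 1 + 1 / Real.sqrt 2 ≤ x) :
    0 < x ∧ Real.sqrt 2 - 1 ≤ 1 - 1 / x ∧ 1 - 1 / x < 1 := by
  have h2 : 0 < Real.sqrt 2 := Real.sqrt_pos.mpr (by norm_num)
  have h3 : Real.sqrt 2 * Real.sqrt 2 = 2 := Real.mul_self_sqrt (by norm_num)
  have h4 : 1 / Real.sqrt 2 = Real.sqrt 2 / 2 := by
    rw [div_eq_div_iff h2.ne' (by norm_num)]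
    linarith
  rw [h4] at hx
  have hx0 : 0 < x := by linarith
  refine ⟨hx0, ?_, ?_⟩
  · have h5 : 1 / x ≤ 2 - Real.sqrt 2 := by
      rw [div_le_iff₀ hx0]
      have h6 : 0 ≤ 2 - Real.sqrt 2 := by nlinarith
      nlinarith
    linarith
  · have : 0 < 1 / x := by positivity
    linarith

theorem thm_UA_of (h1 : St_ThmC) (h2 : St_Exist) (h3 : St_FormPos) : St_UA := by
  intro D _ _ _ β hβ X hX0 hX hm x hx
  classical
  obtain ⟨hx0, hη1, hη2⟩ := final_sqrt hx
  have hfin : Finite (Dual (ZMod 2) D) := Module.finite_of_finite (ZMod 2)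
  set m := finrank (ZMod 2) D with hmdef
  have hsx : 0 < Real.sqrt x := Real.sqrt_pos.mpr hx0
  set s : ℝ := (Real.sqrt x)⁻¹ with hs
  have hs0 : 0 < s := inv_pos.mpr hsx
  have hs2 : s ^ 2 = 1 - (1 - 1 / x) := by
    rw [hs, inv_pow, Real.sq_sqrt hx0.le]
    ring
  have hη0 : (0 : ℝ) ≤ 1 - 1 / x := by
    have h4 : (1 : ℝ) ≤ Real.sqrt 2 := by
      rw [Real.one_le_sqrt]; norm_num
    linarith
  obtain ⟨Φ, hΦ⟩ := h2 (Dual (ZMod 2) D)
    (fun U => (-1) ^ finrank (ZMod 2) D * (-s) ^ expo β U.dualCoannihilator)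
  have hPos : Pos (1 - 1 / x) Φ := h3 D β hβ (1 - 1 / x) s hη0 hη2 hs0 hs2 Φ hΦ
  have hdual : finrank (ZMod 2) (Dual (ZMod 2) D) = m := Subspace.dual_finrank_eq
  -- the top coefficient
  have htop : coef Φ ⊤ = 1 := by
    have h5 : Φ (del ⊤) = (-1) ^ finrank (ZMod 2) D *
        (-s) ^ expo β (⊤ : Submodule (ZMod 2) (Dual (ZMod 2) D)).dualCoannihilator := by
      refine hΦ ⊤ (del ⊤) (fun U' => ⟨fun h => ?_, fun h => ?_⟩)
      · simp [del, top_le_iff.mp h]
      · have h6 : U' ≠ ⊤ := fun h' => h (by rw [h'])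
        simp [del, h6]
    have h7 : expo β (⊤ : Submodule (ZMod 2) (Dual (ZMod 2) D)).dualCoannihilator = 0 := by
      have h8 : (⊤ : Submodule (ZMod 2) (Dual (ZMod 2) D)).dualCoannihilator = ⊥ :=
        Submodule.dualCoannihilator_top
      rw [h8, expo]
      have h9 : rad β (⊥ : Submodule (ZMod 2) D) = ⊥ := by
        rw [eq_bot_iff]
        intro y hy
        exact hy.1
      rw [h9, finrank_bot]
    rw [coef, h5, h7, finrank_top, hdual, pow_zero, mul_one, ← pow_add, ← hmdef]
    exact Even.neg_one_pow ⟨m, rfl⟩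
  -- the weights
  set xw : Dual (ZMod 2) D → ℝ := fun v => if v ∈ X then -1 else 1 with hxw
  have hspan : Submodule.span (ZMod 2) {v | v ≠ 0 ∧ xw v = -1} = ⊤ := by
    have h5 : {v : Dual (ZMod 2) D | v ≠ 0 ∧ xw v = -1} = (X : Set (Dual (ZMod 2) D)) := by
      ext v
      simp only [Set.mem_ofPred_eq, hxw, Finset.mem_coe]
      constructor
      · rintro ⟨_, h⟩
        by_contra hv
        rw [if_neg hv] at h
        norm_num at h
      · intro hv
        refine ⟨?_, by rw [if_pos hv]⟩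
        rintro rfl
        exact hX0 hv
    rw [h5]
    have h6 : (Submodule.span (ZMod 2) (X : Set (Dual (ZMod 2) D))).dualCoannihilator = ⊥ := by
      rw [← hX]
      ext y
      rw [Submodule.mem_dualCoannihilator]
      constructor
      · intro h u hu
        exact h u (Submodule.subset_span hu)
      · intro h φ hφ
        induction hφ using Submodule.span_induction with
        | mem u hu => exact h u hu
        | zero => rfl
        | add a b _ _ ha hb => rw [LinearMap.add_apply, ha, hb, add_zero]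
        | smul c a _ ha => rw [LinearMap.smul_apply, ha, smul_zero]
    have h7 := Subspace.dualCoannihilator_dualAnnihilator_eq
      (W := Submodule.span (ZMod 2) (X : Set (Dual (ZMod 2) D)))
    rw [h6] at h7
    rw [← h7]
    exact Submodule.dualAnnihilator_bot
  have hxw1 : ∀ v, v ≠ 0 → xw v = 1 ∨ xw v = -1 := by
    intro v _
    simp only [hxw]
    by_cases hv : v ∈ X
    · right; rw [if_pos hv]
    · left; rw [if_neg hv]
  have hmain := h1 (1 - 1 / x) s hη1 hη2 hs0.le hs2 (Dual (ZMod 2) D) Φ hPos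
    (by rw [hdual]; exact hm) xw hxw1 hspan
  rw [htop, hdual, mul_one] at hmain
  -- the state sum
  have hsum : rho xw = ∑ U ∈ X.powerset, ((-2 : ℝ) ^ U.card) •
      (fun U' : Submodule (ZMod 2) (Dual (ZMod 2) D) =>
        if Submodule.span (ZMod 2) (U : Set (Dual (ZMod 2) D)) ≤ U' then (1 : ℝ) else 0) := by
    funext U'
    rw [Finset.sum_apply]
    have h5 : rho xw U' = ∏ v ∈ X, (1 + if v ∈ U' then (-2 : ℝ) else 0) := by
      rw [rho_apply]
      simp only [hxw]
      rw [← Finset.prod_filter]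
      have h6 : (nz U').filter (fun v => v ∈ X) = X.filter (fun v => v ∈ U') := by
        ext v
        simp only [Finset.mem_filter, mem_nz]
        constructor
        · rintro ⟨⟨h, _⟩, h'⟩
          exact ⟨h', h⟩
        · rintro ⟨h, h'⟩
          refine ⟨⟨h', ?_⟩, h⟩
          rintro rfl
          exact hX0 h
      rw [h6, Finset.prod_filter]
      refine Finset.prod_congr rfl (fun v _ => ?_)
      by_cases hv : v ∈ U'
      · rw [if_pos hv, if_pos hv]; norm_num
      · rw [if_neg hv, if_neg hv]; norm_num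
    rw [h5, Finset.prod_one_add]
    refine Finset.sum_congr rfl (fun U _ => ?_)
    rw [Pi.smul_apply, smul_eq_mul]
    by_cases hU : Submodule.span (ZMod 2) (U : Set (Dual (ZMod 2) D)) ≤ U'
    · rw [if_pos hU, mul_one]
      have h6 : ∀ v ∈ U, (if v ∈ U' then (-2 : ℝ) else 0) = -2 := by
        intro v hv
        rw [if_pos (hU (Submodule.subset_span hv))]
      rw [Finset.prod_congr rfl h6, Finset.prod_const]
    · rw [if_neg hU, mul_zero]
      rw [Submodule.span_le, Set.not_subset] at hU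
      obtain ⟨v, hv, hv'⟩ := hU
      exact Finset.prod_eq_zero hv (if_neg hv')
  have hval : Φ (rho xw) = (-1) ^ m * ∑ U ∈ X.powerset, (-2 : ℝ) ^ U.card *
      (-s) ^ expo β (ck U) := by
    rw [hsum, map_sum, Finset.mul_sum]
    refine Finset.sum_congr rfl (fun U _ => ?_)
    rw [map_smul, smul_eq_mul]
    have h5 := hΦ (Submodule.span (ZMod 2) (U : Set (Dual (ZMod 2) D)))
      (fun U' : Submodule (ZMod 2) (Dual (ZMod 2) D) =>
        if Submodule.span (ZMod 2) (U : Set (Dual (ZMod 2) D)) ≤ U' then (1 : ℝ) else 0)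
      (fun U' => ⟨fun h => if_pos h, fun h => if_neg h⟩)
    have h6 : (Submodule.span (ZMod 2) (U : Set (Dual (ZMod 2) D))).dualCoannihilator = ck U := by
      ext y
      rw [Submodule.mem_dualCoannihilator]
      constructor
      · intro h u hu
        exact h u (Submodule.subset_span hu)
      · intro h φ hφ
        induction hφ using Submodule.span_induction with
        | mem u hu => exact h u hu
        | zero => rfl
        | add a b _ _ ha hb => rw [LinearMap.add_apply, ha, hb, add_zero]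
        | smul c a _ ha => rw [LinearMap.smul_apply, ha, smul_zero]
    rw [h5, h6]
    ring
  -- the weights of the statement
  have hz : (-Real.sqrt x) ≠ 0 := neg_ne_zero.mpr hsx.ne'
  have hwt : ∀ U : Finset (Dual (ZMod 2) D), wt β (-Real.sqrt x) (ck U) =
      (-Real.sqrt x) ^ m * (-s) ^ expo β (ck U) := by
    intro U
    rw [wt, ← hmdef]
    have h5 : (m : ℤ) - (finrank (ZMod 2) (ck U) : ℤ) - (finrank (ZMod 2) (rad β (ck U)) : ℤ) =
        (m : ℤ) - ((expo β (ck U) : ℕ) : ℤ) := by
      rw [expo]; push_cast; ring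
    rw [h5, zpow_sub₀ hz, zpow_natCast, zpow_natCast, div_eq_mul_inv, ← inv_pow]
    have h6 : (-Real.sqrt x)⁻¹ = -s := by rw [hs, inv_neg]
    rw [h6]
  have hfinal : ∑ U ∈ X.powerset, (-2 : ℝ) ^ U.card * wt β (-Real.sqrt x) (ck U) =
      (Real.sqrt x) ^ m * Φ (rho xw) := by
    rw [hval, Finset.mul_sum, Finset.mul_sum]
    refine Finset.sum_congr rfl (fun U _ => ?_)
    rw [hwt, neg_pow (Real.sqrt x)]
    ring
  rw [hfinal, abs_mul, abs_of_pos (pow_pos hsx m)]
  have h8 : Real.sqrt 2 * s ^ m ≤ |Φ (rho xw)| := hmain.trans (le_abs_self _)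
  have h9 : Real.sqrt x ^ m * s ^ m = 1 := by
    rw [← mul_pow, hs, mul_inv_cancel₀ hsx.ne', one_pow]
  calc Real.sqrt 2 = Real.sqrt x ^ m * (Real.sqrt 2 * s ^ m) := by
        rw [mul_left_comm, h9, mul_one]
    _ ≤ Real.sqrt x ^ m * |Φ (rho xw)| := mul_le_mul_of_nonneg_left h8 (pow_pos hsx m).le

end Pool.Agent.UNI
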