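import Pool.Agent.UNI.Alg

/-!
# UNI [Link]: the functional of a symmetric form exists and is positive
-/

set_option autoImplicit false

open Module

namespace Pool.Agent.UNI

private theorem Link_finite (V : Type) [AddCommGroup V] [Module (ZMod 2) V] [Finite V] :
    Finite (Submodule (ZMod 2) V) :=
  Finite.of_injective (fun U : Submodule (ZMod 2) V => (U : Set V)) SetLike.coe_injective

/-- **B2a** -/
theorem thm_Exist : St_Exist := by
  classical
  intro V _ _ _ g
  have hfin := Link_finite V
  have : Fintype (Submodule (ZMod 2) V) := Fintype.ofFinite _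
  have hwf : WellFounded (fun U' U : Submodule (ZMod 2) V => U' > U) := wellFounded_gt
  let c : Submodule (ZMod 2) V → ℝ :=
    hwf.fix fun U ih => g U - ∑ U' : Submodule (ZMod 2) V, if h : U' > U then ih U' h else 0
  have hc : ∀ U, c U = g U - ∑ U' : Submodule (ZMod 2) V, if U' > U then c U' else 0 := by
    intro U
    have h1 : c U = g U - ∑ U' : Submodule (ZMod 2) V, if _h : U' > U then c U' else 0 :=
      hwf.fix_eq _ U
    rw [h1]
    congr 1
  refine ⟨∑ U : Submodule (ZMod 2) V, c U • LinearMap.proj U, ?_⟩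
  intro U f hf
  rw [LinearMap.sum_apply]
  have h1 : ∀ U' : Submodule (ZMod 2) V, (c U' • (LinearMap.proj U' :
      (Submodule (ZMod 2) V → ℝ) →ₗ[ℝ] ℝ)) f =
      (if U' = U then c U' else 0) + (if U' > U then c U' else 0) := by
    intro U'
    rw [LinearMap.smul_apply, LinearMap.proj_apply, smul_eq_mul]
    by_cases h2 : U ≤ U'
    · rw [(hf U').1 h2, mul_one]
      rcases h2.eq_or_lt with h3 | h3
      · subst h3
        rw [if_pos rfl, if_neg (lt_irrefl _), add_zero]
      · rw [if_neg h3.ne', if_pos h3, zero_add]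
    · rw [(hf U').2 h2, mul_zero, if_neg (fun h => h2 h.ge), if_neg (fun h => h2 (le_of_lt h)),
        add_zero]
  rw [Finset.sum_congr rfl fun U' _ => h1 U', Finset.sum_add_distrib, Finset.sum_ite_eq',
    if_pos (Finset.mem_univ _), hc U]
  ring

open Classical in
/-- the functions on the subspaces given by a subspace and a list -/
private noncomputable def Link_ff {D : Type} [AddCommGroup D] [Module (ZMod 2) D]
    (K : Submodule (ZMod 2) (Dual (ZMod 2) D)) (l : List (Dual (ZMod 2) D × ℝ)) :
    Submodule (ZMod 2) (Dual (ZMod 2) D) → ℝ :=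
  fun U => if K ≤ U then (l.map fun p => 1 + (p.2 - 1) * (if p.1 ∈ U then 1 else 0)).prod else 0

private theorem Link_cl {D : Type} [AddCommGroup D] [Module (ZMod 2) D]
    (l : List (Dual (ZMod 2) D × ℝ)) : ∀ (G : Submodule (ZMod 2) D) (x : D),
      x ∈ cl l G ↔ x ∈ G ∧ ∀ p ∈ l, p.1 x = 0 := by
  induction l with
  | nil =>
    intro G x
    simp [cl]
  | cons p l ih =>
    intro G x
    rw [cl, ih]
    simp [and_assoc]

private theorem Link_list {D : Type} [AddCommGroup D] [Module (ZMod 2) D]
    (β : D →ₗ[ZMod 2] D →ₗ[ZMod 2] ZMod 2) (s : ℝ)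
    (Φ : (Submodule (ZMod 2) (Dual (ZMod 2) D) → ℝ) →ₗ[ℝ] ℝ)
    (hΦ : ∀ U f, (∀ U', (U ≤ U' → f U' = 1) ∧ (¬ U ≤ U' → f U' = 0)) →
      Φ f = (-1) ^ finrank (ZMod 2) D * (-s) ^ expo β U.dualCoannihilator)
    (l : List (Dual (ZMod 2) D × ℝ)) :
    ∀ K : Submodule (ZMod 2) (Dual (ZMod 2) D),
      Φ (Link_ff K l) = (-1) ^ finrank (ZMod 2) D * Zs β s l K.dualCoannihilator := by
  classical
  induction l with
  | nil =>
    intro K
    rw [Zs]
    refine hΦ K _ fun U' => ⟨fun h => ?_, fun h => ?_⟩
    · simp [Link_ff, h]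
    · simp [Link_ff, h]
  | cons p l ih =>
    intro K
    have h1 : Link_ff K (p :: l) = Link_ff K l +
        (p.2 - 1) • Link_ff (K ⊔ Submodule.span (ZMod 2) {p.1}) l := by
      funext U
      have h2 : K ⊔ Submodule.span (ZMod 2) {p.1} ≤ U ↔ K ≤ U ∧ p.1 ∈ U := by
        rw [sup_le_iff, Submodule.span_le, Set.singleton_subset_iff]
        rfl
      by_cases hK : K ≤ U
      · by_cases hp : p.1 ∈ U
        · simp only [Link_ff, Pi.add_apply, Pi.smul_apply, smul_eq_mul, if_pos hK,
            if_pos (h2.mpr ⟨hK, hp⟩), List.map_cons, List.prod_cons, if_pos hp]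
          ring
        · have h3 : ¬ K ⊔ Submodule.span (ZMod 2) {p.1} ≤ U := fun h => hp (h2.mp h).2
          simp only [Link_ff, Pi.add_apply, Pi.smul_apply, smul_eq_mul, if_pos hK,
            if_neg h3, List.map_cons, List.prod_cons, if_neg hp]
          ring
      · have h3 : ¬ K ⊔ Submodule.span (ZMod 2) {p.1} ≤ U := fun h => hK (h2.mp h).1
        simp only [Link_ff, Pi.add_apply, Pi.smul_apply, smul_eq_mul, if_neg hK, if_neg h3]
        ring
    have h4 : (K ⊔ Submodule.span (ZMod 2) {p.1}).dualCoannihilator =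
        K.dualCoannihilator ⊓ LinearMap.ker p.1 := by
      ext x
      rw [Submodule.mem_dualCoannihilator, Submodule.mem_inf, Submodule.mem_dualCoannihilator,
        LinearMap.mem_ker]
      constructor
      · intro h
        exact ⟨fun φ hφ => h φ ((le_sup_left : K ≤ _) hφ),
          h p.1 ((le_sup_right : Submodule.span (ZMod 2) {p.1} ≤ _)
            (Submodule.mem_span_singleton_self _))⟩
      · rintro ⟨h, h'⟩ φ hφ
        obtain ⟨φ1, hφ1, φ2, hφ2, rfl⟩ := Submodule.mem_sup.mp hφ
        obtain ⟨c, rfl⟩ := Submodule.mem_span_singleton.mp hφ2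
        rw [LinearMap.add_apply, LinearMap.smul_apply, h φ1 hφ1, h', smul_zero, add_zero]
    rw [h1, map_add, map_smul, ih K, ih (K ⊔ Submodule.span (ZMod 2) {p.1}), h4, Zs, smul_eq_mul]
    ring

/-- **B2b** -/
theorem thm_FormPos (h : St_Sign) : St_FormPos := by
  classical
  intro D _ _ _ _ β hβ η s hη0 hη1 hs hs2 Φ hΦ V₁ _ _ _ π hπ w hw hspan
  choose σ hσ using hπ
  let S1 : Finset V₁ := (Set.toFinite {q : V₁ | q ≠ 0 ∧ w q ≤ η}).toFinset
  have hS1 : ∀ q, q ∈ S1 ↔ q ≠ 0 ∧ w q ≤ η := fun q => by simp [S1]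
  let l : List (Dual (ZMod 2) D × ℝ) := S1.toList.map fun q => (σ q, w q)
  have hup : up π (rho w) = Link_ff (LinearMap.ker π) l := by
    funext U
    by_cases hU : LinearMap.ker π ≤ U
    · rw [up_apply_of_le hU, rho_apply]
      simp only [Link_ff, if_pos hU, l, List.map_map]
      rw [Finset.prod_map_toList]
      have hmem : ∀ q, σ q ∈ U ↔ q ∈ U.map π := by
        intro q
        constructor
        · intro hq
          exact ⟨σ q, hq, hσ q⟩
        · rintro ⟨u, hu, rfl⟩
          have h1 : σ (π u) - u ∈ LinearMap.ker π := by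
            rw [LinearMap.mem_ker, map_sub, hσ, sub_self]
          have h2 := U.add_mem (hU h1) hu
          rwa [sub_add_cancel] at h2
      have h1 : ∀ q ∈ S1, ((fun p : Dual (ZMod 2) D × ℝ =>
          1 + (p.2 - 1) * (if p.1 ∈ U then 1 else 0)) ∘ fun q => (σ q, w q)) q =
          if q ∈ U.map π then w q else 1 := by
        intro q _
        simp only [Function.comp_apply]
        by_cases hq : q ∈ U.map π
        · rw [if_pos hq, if_pos ((hmem q).mpr hq)]
          ring
        · rw [if_neg hq, if_neg (fun h => hq ((hmem q).mp h))]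
          ring
      rw [Finset.prod_congr rfl h1, ← Finset.prod_filter]
      symm
      refine Finset.prod_subset ?_ ?_
      · intro q hq
        rw [Finset.mem_filter, hS1] at hq
        exact mem_nz.mpr ⟨hq.2, hq.1.1⟩
      · intro q hq hq'
        have h2 := mem_nz.mp hq
        rcases hw q h2.2 with h3 | ⟨-, h3⟩
        · exact h3
        · exfalso
          apply hq'
          rw [Finset.mem_filter, hS1]
          exact ⟨⟨h2.2, h3⟩, h2.1⟩
    · rw [up_apply_of_not_le hU]
      simp only [Link_ff, if_neg hU]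
  rw [push_apply, hup, Link_list β s Φ hΦ l]
  set G : Submodule (ZMod 2) D := (LinearMap.ker π).dualCoannihilator with hG
  have hdim : finrank (ZMod 2) (LinearMap.ker π) + finrank (ZMod 2) G = finrank (ZMod 2) D :=
    Subspace.finrank_add_finrank_dualCoannihilator_eq (LinearMap.ker π)
  have hs1 : s ≤ 1 := by nlinarith
  have hsign := h D β hβ s hs hs1 l G (by
    intro p hp
    obtain ⟨q, hq, rfl⟩ := List.mem_map.mp hp
    rw [Finset.mem_toList, hS1] at hq
    rcases hw q hq.1 with h3 | h3
    · exfalso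
      have := hq.2
      rw [h3] at this
      linarith
    · refine ⟨h3.1, ?_⟩
      have := h3.2
      show w q ≤ 1 - s ^ 2
      linarith)
  have hcl : cl l G = ⊥ := by
    rw [eq_bot_iff]
    intro x hx
    rw [Link_cl] at hx
    obtain ⟨hxG, hxl⟩ := hx
    rw [hG, Submodule.mem_dualCoannihilator] at hxG
    rw [Submodule.mem_bot, ← Module.forall_dual_apply_eq_zero_iff (ZMod 2)]
    intro φ
    have h1 : π φ ∈ (LinearMap.ker (Dual.eval (ZMod 2) D x)).map π := by
      have h2 : (⊤ : Submodule (ZMod 2) V₁) ≤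
          (LinearMap.ker (Dual.eval (ZMod 2) D x)).map π := by
        rw [← hspan, Submodule.span_le]
        intro q hq
        refine ⟨σ q, ?_, hσ q⟩
        rw [SetLike.mem_coe, LinearMap.mem_ker, Dual.eval_apply]
        exact hxl (σ q, w q) (List.mem_map.mpr ⟨q, Finset.mem_toList.mpr ((hS1 q).mpr hq), rfl⟩)
      exact h2 trivial
    obtain ⟨ψ, hψ, hψ'⟩ := h1
    rw [SetLike.mem_coe, LinearMap.mem_ker, Dual.eval_apply] at hψ
    have h3 : (φ - ψ) x = 0 := hxG (φ - ψ) (by rw [LinearMap.mem_ker, map_sub, hψ', sub_self])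
    rw [LinearMap.sub_apply, hψ, sub_zero] at h3
    exact h3
  rw [hcl, inf_bot_eq, finrank_bot, add_zero] at hsign
  have h4 : (-1 : ℝ) ^ finrank (ZMod 2) (LinearMap.ker π) *
      ((-1) ^ finrank (ZMod 2) D * Zs β s l G) =
      (-1) ^ finrank (ZMod 2) G * Zs β s l G := by
    rw [← hdim, pow_add, ← mul_assoc, ← mul_assoc, ← pow_add, ← two_mul, pow_mul]
    norm_num
  rw [h4]
  exact hsign

end Pool.Agent.UNI
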