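import Pool.Agent.UNI.Alg

/-!
# UNI [Mixed]: weights `-1` and small
-/

set_option autoImplicit false

open Module

namespace Pool.Agent.UNI

/-- the set of the allowed weights -/
private def Mixed_Z (η a : ℝ) : Prop := a = 1 ∨ a = -1 ∨ |a| ≤ η

private theorem Mixed_Z_abs {η a : ℝ} (hη : η < 1) (h : Mixed_Z η a) : |a| ≤ 1 := by
  rcases h with h | h | h
  · rw [h, abs_one]
  · rw [h, abs_neg, abs_one]
  · exact h.trans hη.le

private theorem Mixed_Z_small {η a b : ℝ} (hη : η < 1) (h : Mixed_Z η a) (h' : |b| ≤ η) :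
    |a * b| ≤ η := by
  rw [abs_mul]
  have h1 := Mixed_Z_abs hη h
  have h2 := abs_nonneg a
  have h3 := abs_nonneg b
  nlinarith

private theorem Mixed_Z_mul {η a b : ℝ} (hη : η < 1) (h : Mixed_Z η a) (h' : Mixed_Z η b) :
    Mixed_Z η (a * b) := by
  rcases h' with h1 | h1 | h1
  · rw [h1, mul_one]
    exact h
  · rw [h1]
    rcases h with h | h | h
    · right; left
      rw [h]; norm_num
    · left
      rw [h]; norm_num
    · right; right
      rw [mul_neg, mul_one, abs_neg]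
      exact h
  · right; right
    exact Mixed_Z_small hη h h1

private theorem Mixed_Z_prod {ι : Type} {η : ℝ} (hη : η < 1) (s : Finset ι) (f : ι → ℝ)
    (h : ∀ i ∈ s, Mixed_Z η (f i)) : Mixed_Z η (∏ i ∈ s, f i) :=
  Finset.prod_induction f (Mixed_Z η) (fun _ _ => Mixed_Z_mul hη) (Or.inl rfl) h

private theorem Mixed_Z_prod_small {ι : Type} {η : ℝ} (hη : η < 1) (s : Finset ι) (f : ι → ℝ)
    (h : ∀ i ∈ s, Mixed_Z η (f i)) (i : ι) (hi : i ∈ s) (hs : |f i| ≤ η) :
    |∏ i ∈ s, f i| ≤ η := by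
  classical
  rw [← Finset.prod_erase_mul s f hi]
  exact Mixed_Z_small hη (Mixed_Z_prod hη _ f fun j hj => h j (Finset.mem_of_mem_erase hj)) hs

/-- **A4b** -/
theorem thm_Mixed (h1 : St_One) (h2 : St_ResEval) (h3 : St_ResPush) : St_Mixed := by
  classical
  intro η hη0 hη1 V _ _ _ hpos Φ hΦ w hw hspan hex
  have : Module.Finite (ZMod 2) V := Module.Finite.of_finite
  set S0 : Submodule (ZMod 2) V := Submodule.span (ZMod 2) {v | v ≠ 0 ∧ |w v| ≤ η} with hS0
  have hfin : Finite (Submodule (ZMod 2) V) :=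
    Finite.of_injective (fun U : Submodule (ZMod 2) V => (U : Set V)) SetLike.coe_injective
  -- a maximal subspace
  let PT : Submodule (ZMod 2) V → Prop := fun T => Disjoint T S0 ∧
    T ≤ Submodule.span (ZMod 2) {v | v ∈ T ∧ v ≠ 0 ∧ w v = -1}
  have hPT0 : PT ⊥ := ⟨disjoint_bot_left, bot_le⟩
  obtain ⟨T, hT⟩ := (Set.toFinite {T | PT T}).exists_maximal ⟨⊥, hPT0⟩
  have hTd : Disjoint T S0 := hT.prop.1
  have hTs : T ≤ Submodule.span (ZMod 2) {v | v ∈ T ∧ v ≠ 0 ∧ w v = -1} := hT.prop.2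
  have hsup : T ⊔ S0 = ⊤ := by
    by_contra hne
    have hn : ∃ n, n ≠ 0 ∧ w n = -1 ∧ n ∉ T ⊔ S0 := by
      by_contra hcon
      push Not at hcon
      apply hne
      rw [eq_top_iff, ← hspan, Submodule.span_le]
      rintro v ⟨hv, hv' | hv'⟩
      · exact hcon v hv hv'
      · exact (le_sup_right : S0 ≤ T ⊔ S0) (Submodule.subset_span ⟨hv, hv'⟩)
    obtain ⟨n, hn0, hn1, hnT⟩ := hn
    have hPT' : PT (T ⊔ Submodule.span (ZMod 2) {n}) := by
      constructor
      · rw [Submodule.disjoint_def]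
        intro x hx hxS
        obtain ⟨t, ht, y, hy, rfl⟩ := Submodule.mem_sup.mp hx
        obtain ⟨c, rfl⟩ := Submodule.mem_span_singleton.mp hy
        have hc : c = 0 ∨ c = 1 := by
          fin_cases c
          · left; rfl
          · right; rfl
        rcases hc with rfl | rfl
        · rw [zero_smul, add_zero] at hxS ⊢
          exact Submodule.disjoint_def.mp hTd t ht hxS
        · exfalso
          apply hnT
          rw [one_smul] at hxS
          have h4 : n = -t + (t + n) := by abel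
          rw [h4]
          exact Submodule.add_mem_sup (T.neg_mem ht) hxS
      · rw [sup_le_iff]
        constructor
        · refine hTs.trans (Submodule.span_mono ?_)
          rintro v ⟨hv, hv'⟩
          exact ⟨(le_sup_left : T ≤ _) hv, hv'⟩
        · rw [Submodule.span_le, Set.singleton_subset_iff]
          refine Submodule.subset_span ⟨?_, hn0, hn1⟩
          exact (le_sup_right : Submodule.span (ZMod 2) {n} ≤ _)
            (Submodule.mem_span_singleton_self n)
    have h4 := hT.le_of_ge hPT' le_sup_left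
    apply hnT
    exact (le_sup_left : T ≤ T ⊔ S0) (h4 ((le_sup_right : Submodule.span (ZMod 2) {n} ≤ _)
      (Submodule.mem_span_singleton_self n)))
  have hsmallT : ∀ v, v ≠ 0 → |w v| ≤ η → v ∉ T := by
    intro v hv hv' hvT
    exact hv (Submodule.disjoint_def.mp hTd v hvT (Submodule.subset_span ⟨hv, hv'⟩))
  have hTtop : T ≠ ⊤ := by
    rintro rfl
    obtain ⟨v, hv, hv'⟩ := hex
    exact hsmallT v hv hv' trivial
  have hTdim : finrank (ZMod 2) T < finrank (ZMod 2) V := 
    Submodule.finrank_lt hTtop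
  let w₁ : V → ℝ := fun v => if v ∈ T then 1 else w v
  have hw₁a : ∀ v, v ∈ T → v ≠ 0 → w₁ v = 1 := fun v hv _ => if_pos hv
  have hw₁b : ∀ v, v ∉ T → w₁ v = w v := fun v hv => if_neg hv
  rw [h2 V T Φ w w₁ hw₁a hw₁b]
  refine hpos T (res T (rho w₁) Φ) (fun v : T => w v) hTdim ?_ ?_ ?_
  · -- positivity
    intro V₁ _ _ _ π hπ w' hw' hs'
    let K : Submodule (ZMod 2) V := (LinearMap.ker π).map T.subtype
    have h3' : ∃ ι : V₁ →ₗ[ZMod 2] V ⧸ K, Function.Injective ι ∧
        (∀ t : T, ι (π t) = K.mkQ t) ∧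
        ∀ w' : V₁ → ℝ, push π (res T (rho w₁) Φ) (rho w') =
          push K.mkQ Φ (rho fun q => pw K.mkQ w₁ q * pw ι w' q) :=
      h3 V T Φ w₁ hw₁a V₁ π hπ
    obtain ⟨ι, hιinj, hι, hpush⟩ := h3'
    rw [hpush w']
    have hKT : K ≤ T := by
      rintro x ⟨t, -, rfl⟩
      exact t.2
    have hmk : ∀ (q : V ⧸ K), q ≠ 0 → ∀ v, K.mkQ v = q → v ≠ 0 := by
      rintro q hq v hv rfl
      exact hq (by rw [← hv, map_zero])
    have hZ1 : ∀ v, v ≠ 0 → Mixed_Z η (w₁ v) := by
      intro v hv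
      by_cases hvT : v ∈ T
      · left
        exact hw₁a v hvT hv
      · rw [hw₁b v hvT]
        exact hw v hv
    have hZ2 : ∀ v, v ≠ 0 → Mixed_Z η (w' v) := by
      intro v hv
      rcases hw' v hv with h4 | ⟨h4, h5⟩
      · exact Or.inl h4
      · exact Or.inr (Or.inr (by rwa [abs_of_nonneg h4]))
    have hpw1 : ∀ q : V ⧸ K, q ≠ 0 → Mixed_Z η (pw K.mkQ w₁ q) := by
      intro q hq
      refine Mixed_Z_prod hη1 _ _ fun v hv => hZ1 v (hmk q hq v (mem_fib.mp hv))
    have hpw2 : ∀ q : V ⧸ K, q ≠ 0 → Mixed_Z η (pw ι w' q) := by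
      intro q hq
      refine Mixed_Z_prod hη1 _ _ fun v hv => hZ2 v ?_
      rintro rfl
      rw [mem_fib, map_zero] at hv
      exact hq hv.symm
    refine h1 η hη0 hη1 (V ⧸ K) (push K.mkQ Φ) (hΦ.push K.mkQ (Submodule.mkQ_surjective K)) _
      (fun q hq => Mixed_Z_mul hη1 (hpw1 q hq) (hpw2 q hq)) ?_
    -- the small vectors span
    rw [eq_top_iff]
    set SS := Submodule.span (ZMod 2) {q : V ⧸ K | q ≠ 0 ∧
      |pw K.mkQ w₁ q * pw ι w' q| ≤ η} with hSS
    have hA : LinearMap.range ι ≤ SS := by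
      rw [LinearMap.range_eq_map, ← hs', Submodule.map_span, Submodule.span_le]
      rintro _ ⟨q1, ⟨hq1, hq1'⟩, rfl⟩
      have hne : ι q1 ≠ 0 := by
        intro h4
        exact hq1 (hιinj (by rw [h4, map_zero]))
      refine Submodule.subset_span ⟨hne, Mixed_Z_small hη1 (hpw1 _ hne) ?_⟩
      refine Mixed_Z_prod_small hη1 _ _ (fun v hv => hZ2 v ?_) q1 (mem_fib.mpr rfl) ?_
      · rintro rfl
        rw [mem_fib, map_zero] at hv
        exact hne hv.symm
      · rcases hw' q1 hq1 with h4 | ⟨h4, h5⟩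
        · rw [h4] at hq1'
          exact absurd hq1' (not_le.mpr hη1)
        · rwa [abs_of_nonneg h4]
    have hB : T.map K.mkQ ≤ SS := by
      rintro _ ⟨t, ht, rfl⟩
      have h4 := hι ⟨t, ht⟩
      exact hA ⟨π ⟨t, ht⟩, h4⟩
    have hC : S0.map K.mkQ ≤ SS := by
      rw [hS0, Submodule.map_span, Submodule.span_le]
      rintro _ ⟨v, ⟨hv, hv'⟩, rfl⟩
      have hvT := hsmallT v hv hv'
      have hne : K.mkQ v ≠ 0 := by
        intro h4
        rw [Submodule.mkQ_apply, Submodule.Quotient.mk_eq_zero] at h4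
        exact hvT (hKT h4)
      refine Submodule.subset_span ⟨hne, ?_⟩
      rw [mul_comm]
      refine Mixed_Z_small hη1 (hpw2 _ hne) ?_
      refine Mixed_Z_prod_small hη1 _ _ (fun u hu => hZ1 u (hmk _ hne u (mem_fib.mp hu))) v
        (mem_fib.mpr rfl) ?_
      rwa [hw₁b v hvT]
    rintro q -
    obtain ⟨v, rfl⟩ := Submodule.mkQ_surjective K q
    have hv : v ∈ T ⊔ S0 := by rw [hsup]; trivial
    obtain ⟨t, ht, y, hy, rfl⟩ := Submodule.mem_sup.mp hv
    rw [map_add]
    exact SS.add_mem (hB ⟨t, ht, rfl⟩) (hC ⟨y, hy, rfl⟩)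
  · -- weights
    intro v hv
    have hv' : (v : V) ≠ 0 := fun h => hv (Subtype.ext h)
    rcases hw v hv' with h4 | h4 | h4
    · exact Or.inl h4
    · exact Or.inr h4
    · exact absurd v.2 (hsmallT v hv' h4)
  · -- span
    apply Submodule.map_injective_of_injective (f := T.subtype) T.injective_subtype
    rw [Submodule.map_subtype_top, Submodule.map_span]
    apply le_antisymm
    · rw [Submodule.span_le]
      rintro _ ⟨v, -, rfl⟩
      exact v.2
    · refine hTs.trans (Submodule.span_mono ?_)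
      rintro v ⟨hv, hv0, hv1⟩
      exact ⟨⟨v, hv⟩, ⟨fun h => hv0 (congrArg Subtype.val h), hv1⟩, rfl⟩

end Pool.Agent.UNI
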