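import Pool.Agent.UNI.Alg

/-!
# UNI, module Res: functionals induced on subspaces
-/

set_option autoImplicit false

open Module

namespace Pool.Agent.UNI

private theorem Res_apply {V : Type} [AddCommGroup V] [Module (ZMod 2) V]
    (T : Submodule (ZMod 2) V) (g : Submodule (ZMod 2) V → ℝ)
    (Φ : (Submodule (ZMod 2) V → ℝ) →ₗ[ℝ] ℝ) (f : Submodule (ZMod 2) T → ℝ) :
    res T g Φ f = Φ fun U => g U * f (U.comap T.subtype) := rfl

theorem thm_ResEval : St_ResEval := by
  classical
  intro V _ _ _ T Φ w w₁ h1 h2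
  rw [Res_apply]
  congr 1
  funext U
  rw [rho_apply, rho_apply, rho_apply]
  have h3 : ∏ t ∈ nz (U.comap T.subtype), w (t : V) = ∏ v ∈ (nz U).filter (fun v => v ∈ T), w v := by
    refine Finset.prod_nbij (fun t => (t : V)) ?_ ?_ ?_ (fun _ _ => rfl)
    · intro t ht
      rw [mem_nz, Submodule.mem_comap] at ht
      rw [Finset.mem_filter, mem_nz]
      exact ⟨⟨ht.1, fun h => ht.2 (Subtype.ext h)⟩, t.2⟩
    · intro t _ t' _ h
      exact Subtype.ext h
    · intro v hv
      rw [Finset.mem_coe, Finset.mem_filter, mem_nz] at hv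
      refine ⟨⟨v, hv.2⟩, ?_, rfl⟩
      rw [Finset.mem_coe, mem_nz, Submodule.mem_comap]
      exact ⟨hv.1.1, fun h => hv.1.2 (congrArg Subtype.val h)⟩
  rw [h3, Finset.prod_filter, ← Finset.prod_mul_distrib]
  refine Finset.prod_congr rfl fun v hv => ?_
  by_cases hT : v ∈ T
  · rw [if_pos hT, h1 v hT (mem_nz.mp hv).2, one_mul]
  · rw [if_neg hT, h2 v hT, mul_one]

theorem thm_ResTop : St_ResTop := by
  classical
  intro V _ _ _ T Φ w₁ h1
  rw [coef, Res_apply, push_apply, Submodule.ker_mkQ, finrank_top]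
  congr 2
  funext U
  by_cases hT : T ≤ U
  · have h2 : U.comap T.subtype = ⊤ := by
      rw [eq_top_iff]
      rintro t -
      exact hT t.2
    rw [up_apply_of_le (by rwa [Submodule.ker_mkQ]), rho_pw T.mkQ w₁ (fun v hv hv0 => by
      rw [← LinearMap.mem_ker, Submodule.ker_mkQ] at hv
      exact h1 v hv hv0), Submodule.comap_map_eq_self (by rwa [Submodule.ker_mkQ]), h2]
    simp [del]
  · have h2 : U.comap T.subtype ≠ ⊤ := by
      intro h
      apply hT
      intro v hv
      have h3 : (⟨v, hv⟩ : T) ∈ U.comap T.subtype := h ▸ Submodule.mem_top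
      exact h3
    rw [up_apply_of_not_le (by rwa [Submodule.ker_mkQ])]
    simp [del, h2]

theorem thm_ResPush : St_ResPush := by
  classical
  intro V _ _ _ T Φ w₁ h1 V₁ _ _ _ π hπ
  set K := (LinearMap.ker π).map T.subtype with hK
  have hKT : K ≤ T := by
    rw [hK]
    rintro _ ⟨t, -, rfl⟩
    exact t.2
  let ι : V₁ →ₗ[ZMod 2] V ⧸ K :=
    (Submodule.mapQ (LinearMap.ker π) K T.subtype (Submodule.le_comap_map _ _)) ∘ₗ
      (π.quotKerEquivOfSurjective hπ).symm.toLinearMap
  have hι : ∀ t : T, ι (π t) = K.mkQ t := by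
    intro t
    have h2 : (π.quotKerEquivOfSurjective hπ).symm (π t) = (LinearMap.ker π).mkQ t := by
      rw [LinearEquiv.symm_apply_eq]
      rfl
    show Submodule.mapQ (LinearMap.ker π) K T.subtype (Submodule.le_comap_map _ _)
      ((π.quotKerEquivOfSurjective hπ).symm (π t)) = _
    rw [h2]
    rfl
  have hinj : Function.Injective ι := by
    rw [← LinearMap.ker_eq_bot, LinearMap.ker_eq_bot']
    intro x hx
    obtain ⟨t, rfl⟩ := hπ x
    rw [hι, ← LinearMap.mem_ker, Submodule.ker_mkQ] at hx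
    obtain ⟨t', ht', h2⟩ := hx
    have h3 : t' = t := Subtype.ext h2
    rw [← h3]
    exact ht'
  refine ⟨ι, hinj, hι, fun w' => ?_⟩
  rw [push_apply, push_apply, Res_apply, Submodule.ker_mkQ]
  have hfr : finrank (ZMod 2) (LinearMap.ker π) = finrank (ZMod 2) K :=
    (Submodule.equivMapOfInjective T.subtype T.injective_subtype (LinearMap.ker π)).finrank_eq
  rw [hfr]
  congr 2
  funext U
  by_cases hKU : K ≤ U
  · have h2 : LinearMap.ker π ≤ U.comap T.subtype := Submodule.map_le_iff_le_comap.mp hKU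
    have hKU' : LinearMap.ker K.mkQ ≤ U := by rwa [Submodule.ker_mkQ]
    rw [up_apply_of_le h2, up_apply_of_le hKU']
    have h3 : rho (fun q => pw K.mkQ w₁ q * pw ι w' q) (U.map K.mkQ) =
        rho (pw K.mkQ w₁) (U.map K.mkQ) * rho (pw ι w') (U.map K.mkQ) :=
      Finset.prod_mul_distrib
    rw [h3, rho_pw K.mkQ w₁ (fun v hv hv0 => by
      rw [← LinearMap.mem_ker, Submodule.ker_mkQ] at hv
      exact h1 v (hKT hv) hv0), Submodule.comap_map_eq_self hKU',
      rho_pw ι w' (fun v hv hv0 => absurd (hinj (by rw [hv, map_zero])) hv0)]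
    congr 2
    ext x
    obtain ⟨t, rfl⟩ := hπ x
    rw [Submodule.mem_comap, hι]
    constructor
    · rintro ⟨t', ht', h4⟩
      have h5 : t - t' ∈ LinearMap.ker π := by
        rw [LinearMap.mem_ker, map_sub, h4, sub_self]
      have h6 : ((t - t' : T) : V) ∈ U := hKU ⟨t - t', h5, rfl⟩
      have h7 : (t : V) ∈ U := by
        have := U.add_mem h6 ht'
        simpa using this
      exact Submodule.mem_map_of_mem h7
    · intro h4
      have h5 : (t : V) ∈ (U.map K.mkQ).comap K.mkQ := h4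
      rw [Submodule.comap_map_eq_self hKU'] at h5
      exact Submodule.mem_map_of_mem h5
  · have h2 : ¬ LinearMap.ker π ≤ U.comap T.subtype := fun h =>
      hKU (Submodule.map_le_iff_le_comap.mpr h)
    rw [up_apply_of_not_le h2, up_apply_of_not_le (by rwa [Submodule.ker_mkQ]), mul_zero]

end Pool.Agent.UNI
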