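import Pool.Agent.UNI.Alg

/-!
# UNI: the sign of the state sum of a list of functionals
-/

set_option autoImplicit false

open Module

namespace Pool.Agent.UNI

section

variable {D : Type} [AddCommGroup D] [Module (ZMod 2) D]

private theorem Sign_zmod2 (c : ZMod 2) : c = 0 ∨ c = 1 := by
  fin_cases c
  · exact Or.inl rfl
  · exact Or.inr rfl

private theorem Sign_mem_rad {β : D →ₗ[ZMod 2] D →ₗ[ZMod 2] ZMod 2} {Y : Submodule (ZMod 2) D}
    {y : D} : y ∈ rad β Y ↔ y ∈ Y ∧ ∀ y' ∈ Y, β y' y = 0 := Iff.rfl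

private theorem Sign_rad_le (β : D →ₗ[ZMod 2] D →ₗ[ZMod 2] ZMod 2) (Y : Submodule (ZMod 2) D) :
    rad β Y ≤ Y := fun _ h => h.1

private theorem Sign_cl_le (l : List (Dual (ZMod 2) D × ℝ)) :
    ∀ G : Submodule (ZMod 2) D, cl l G ≤ G := by
  induction l with
  | nil => exact fun G => le_refl G
  | cons p l ih => exact fun G => (ih _).trans inf_le_left

private theorem Sign_cl_inf (l : List (Dual (ZMod 2) D × ℝ)) :
    ∀ G K : Submodule (ZMod 2) D, cl l (G ⊓ K) = cl l G ⊓ K := by
  induction l with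
  | nil => exact fun G K => rfl
  | cons p l ih =>
    intro G K
    show cl l (G ⊓ K ⊓ LinearMap.ker p.1) = cl l (G ⊓ LinearMap.ker p.1) ⊓ K
    rw [inf_right_comm, ih]

private theorem Sign_finrank_sup [Module.Finite (ZMod 2) D] (W : Submodule (ZMod 2) D) {v : D}
    (hv : v ∉ W) :
    finrank (ZMod 2) (W ⊔ Submodule.span (ZMod 2) {v} : Submodule (ZMod 2) D) =
      finrank (ZMod 2) W + 1 := by
  have hv0 : v ≠ 0 := by
    rintro rfl
    exact hv W.zero_mem
  have h1 := Submodule.finrank_sup_add_finrank_inf_eq W (Submodule.span (ZMod 2) {v})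
  have h2 : W ⊓ Submodule.span (ZMod 2) {v} = ⊥ := by
    rw [eq_bot_iff]
    rintro a ⟨ha, ha'⟩
    obtain ⟨c, rfl⟩ := Submodule.mem_span_singleton.mp ha'
    rcases Sign_zmod2 c with rfl | rfl
    · rw [zero_smul]
      exact Submodule.zero_mem _
    · rw [one_smul] at ha
      exact absurd ha hv
  rw [h2, finrank_bot, add_zero, finrank_span_singleton hv0] at h1
  exact h1

private theorem Sign_finrank_ker [Module.Finite (ZMod 2) D] (G : Submodule (ZMod 2) D)
    (y : Dual (ZMod 2) D) {g : D} (hg : g ∈ G) (hy : y g = 1) :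
    finrank (ZMod 2) G = finrank (ZMod 2) (G ⊓ LinearMap.ker y : Submodule (ZMod 2) D) + 1 := by
  have h1 : g ∉ G ⊓ LinearMap.ker y := by
    rintro ⟨_, h2⟩
    rw [SetLike.mem_coe, LinearMap.mem_ker, hy] at h2
    exact one_ne_zero h2
  rw [← Sign_finrank_sup _ h1]
  have h2 : G = G ⊓ LinearMap.ker y ⊔ Submodule.span (ZMod 2) {g} := by
    apply le_antisymm
    · intro a ha
      rcases Sign_zmod2 (y a) with h | h
      · exact Submodule.mem_sup_left ⟨ha, h⟩
      · have h3 : a = (a - g) + g := by rw [sub_add_cancel]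
        rw [h3]
        refine Submodule.add_mem_sup ⟨G.sub_mem ha hg, ?_⟩ (Submodule.mem_span_singleton_self g)
        rw [SetLike.mem_coe, LinearMap.mem_ker, map_sub, h, hy, sub_self]
    · refine sup_le inf_le_left ?_
      rw [Submodule.span_le, Set.singleton_subset_iff]
      exact hg
  conv_lhs => rw [h2]

/-- the radical of a hyperplane, when the radical is not contained in it -/
private theorem Sign_rad_ker {β : D →ₗ[ZMod 2] D →ₗ[ZMod 2] ZMod 2} (hβ : ∀ a b, β a b = β b a)
    {G : Submodule (ZMod 2) D} {y : Dual (ZMod 2) D} {r : D} (hr : r ∈ rad β G) (hy : y r = 1) :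
    rad β (G ⊓ LinearMap.ker y) = rad β G ⊓ LinearMap.ker y := by
  apply le_antisymm
  · intro x hx
    refine ⟨⟨hx.1.1, ?_⟩, hx.1.2⟩
    intro g hg
    rcases Sign_zmod2 (y g) with h | h
    · exact hx.2 g ⟨hg, h⟩
    · have h1 := hx.2 (g - r) ⟨G.sub_mem hg hr.1, by
        rw [SetLike.mem_coe, LinearMap.mem_ker, map_sub, h, hy, sub_self]⟩
      rw [map_sub, LinearMap.sub_apply] at h1
      have h2 : β r x = 0 := by
        rw [hβ]
        exact hr.2 x hx.1.1
      rw [h2, sub_zero] at h1
      exact h1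
  · rintro x ⟨hx, hx'⟩
    exact ⟨⟨hx.1, hx'⟩, fun g hg => hx.2 g hg.1⟩

private theorem Sign_R [Module.Finite (ZMod 2) D] {β : D →ₗ[ZMod 2] D →ₗ[ZMod 2] ZMod 2}
    (hβ : ∀ a b, β a b = β b a) (s : ℝ) (l : List (Dual (ZMod 2) D × ℝ)) :
    ∀ (G : Submodule (ZMod 2) D) (y : Dual (ZMod 2) D) (r : D), r ∈ rad β G → r ∈ cl l G →
      y r = 1 → Zs β s l G = s ^ 2 * Zs β s l (G ⊓ LinearMap.ker y) := by
  induction l with
  | nil =>
    intro G y r hr _ hy
    show (-s) ^ expo β G = s ^ 2 * (-s) ^ expo β (G ⊓ LinearMap.ker y)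
    have h1 : expo β G = 2 + expo β (G ⊓ LinearMap.ker y) := by
      unfold expo
      rw [Sign_rad_ker hβ hr hy, Sign_finrank_ker G y hr.1 hy, Sign_finrank_ker (rad β G) y hr hy]
      ring
    rw [h1, pow_add]
    congr 1
    ring
  | cons p l ih =>
    intro G y r hr hcl hy
    have hcl' : r ∈ cl l (G ⊓ LinearMap.ker p.1) := hcl
    have h0 := hcl'
    rw [Sign_cl_inf] at h0
    have h1 := ih G y r hr h0.1 hy
    have h2 := ih (G ⊓ LinearMap.ker p.1) y r ⟨⟨hr.1, h0.2⟩, fun g hg => hr.2 g hg.1⟩ hcl' hy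
    show Zs β s l G + (p.2 - 1) * Zs β s l (G ⊓ LinearMap.ker p.1) =
      s ^ 2 * (Zs β s l (G ⊓ LinearMap.ker y) +
        (p.2 - 1) * Zs β s l (G ⊓ LinearMap.ker y ⊓ LinearMap.ker p.1))
    rw [h1, h2, inf_right_comm]
    ring

private theorem Sign_Q [Module.Finite (ZMod 2) D] {β : D →ₗ[ZMod 2] D →ₗ[ZMod 2] ZMod 2}
    (hβ : ∀ a b, β a b = β b a) (s : ℝ) (l : List (Dual (ZMod 2) D × ℝ)) :
    ∀ (G : Submodule (ZMod 2) D) (y : Dual (ZMod 2) D) (x : D), x ∈ cl l G → y x = 0 →
      (∀ g ∈ G, β g x = y g) → Zs β s l G = Zs β s l (G ⊓ LinearMap.ker y) := by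
  induction l with
  | nil =>
    intro G y x hx hyx hxy
    have hxG : x ∈ G := hx
    show (-s) ^ expo β G = (-s) ^ expo β (G ⊓ LinearMap.ker y)
    by_cases h : ∃ g ∈ G, y g = 1
    · obtain ⟨g, hg, hyg⟩ := h
      have hxr : x ∉ rad β G := by
        intro h1
        have h2 := h1.2 g hg
        rw [hxy g hg, hyg] at h2
        exact one_ne_zero h2
      have h1 : rad β (G ⊓ LinearMap.ker y) = rad β G ⊔ Submodule.span (ZMod 2) {x} := by
        apply le_antisymm
        · intro z hz
          rcases Sign_zmod2 (β g z) with h | h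
          · refine Submodule.mem_sup_left ⟨hz.1.1, ?_⟩
            intro a ha
            rcases Sign_zmod2 (y a) with h2 | h2
            · exact hz.2 a ⟨ha, h2⟩
            · have h3 := hz.2 (a - g) ⟨G.sub_mem ha hg, by
                rw [SetLike.mem_coe, LinearMap.mem_ker, map_sub, h2, hyg, sub_self]⟩
              rw [map_sub, LinearMap.sub_apply, h, sub_zero] at h3
              exact h3
          · have h3 : z = (z - x) + x := by rw [sub_add_cancel]
            rw [h3]
            refine Submodule.add_mem_sup ⟨G.sub_mem hz.1.1 hxG, ?_⟩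
              (Submodule.mem_span_singleton_self x)
            intro a ha
            rw [map_sub, hxy a ha]
            rcases Sign_zmod2 (y a) with h2 | h2
            · rw [hz.2 a ⟨ha, h2⟩, h2, sub_self]
            · have h4 := hz.2 (a - g) ⟨G.sub_mem ha hg, by
                rw [SetLike.mem_coe, LinearMap.mem_ker, map_sub, h2, hyg, sub_self]⟩
              rw [map_sub, LinearMap.sub_apply, h] at h4
              rw [h2]
              exact h4
        · refine sup_le ?_ ?_
          · intro z hz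
            refine ⟨⟨hz.1, ?_⟩, fun a ha => hz.2 a ha.1⟩
            rw [SetLike.mem_coe, LinearMap.mem_ker, ← hxy z hz.1, hβ]
            exact hz.2 x hxG
          · rw [Submodule.span_le, Set.singleton_subset_iff]
            exact ⟨⟨hxG, hyx⟩, fun a ha => (hxy a ha.1).trans ha.2⟩
      have h2 : expo β G = expo β (G ⊓ LinearMap.ker y) := by
        unfold expo
        rw [h1, Sign_finrank_sup _ hxr, Sign_finrank_ker G y hg hyg]
        ring
      rw [h2]
    · have h1 : G ⊓ LinearMap.ker y = G := by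
        rw [inf_eq_left]
        intro g hg
        rcases Sign_zmod2 (y g) with h2 | h2
        · exact h2
        · exact absurd ⟨g, hg, h2⟩ h
      rw [h1]
  | cons p l ih =>
    intro G y x hcl hyx hxy
    have hcl' : x ∈ cl l (G ⊓ LinearMap.ker p.1) := hcl
    have h0 := hcl'
    rw [Sign_cl_inf] at h0
    have h1 := ih G y x h0.1 hyx hxy
    have h2 := ih (G ⊓ LinearMap.ker p.1) y x hcl' hyx (fun g hg => hxy g hg.1)
    show Zs β s l G + (p.2 - 1) * Zs β s l (G ⊓ LinearMap.ker p.1) =
      Zs β s l (G ⊓ LinearMap.ker y) +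
        (p.2 - 1) * Zs β s l (G ⊓ LinearMap.ker y ⊓ LinearMap.ker p.1)
    rw [h1, h2, inf_right_comm]

end

theorem thm_Sign : St_Sign := by
  intro D _ _ _ β hβ s hs0 hs1 l
  induction l with
  | nil =>
    intro G _
    show 0 ≤ (-1) ^ (finrank (ZMod 2) G + finrank (ZMod 2) (rad β G ⊓ G : Submodule (ZMod 2) D)) *
      (-s) ^ expo β G
    rw [inf_eq_left.mpr (Sign_rad_le β G)]
    unfold expo
    rw [← mul_pow]
    have h : (-1 : ℝ) * -s = s := by ring
    rw [h]
    positivity
  | cons p l ih =>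
    intro G hl
    have hp := hl p (List.mem_cons_self)
    have hl' : ∀ q ∈ l, 0 ≤ q.2 ∧ q.2 ≤ 1 - s ^ 2 := fun q hq => hl q (List.mem_cons_of_mem _ hq)
    have hs2 : 0 ≤ s ^ 2 := by positivity
    show 0 ≤ (-1) ^ (finrank (ZMod 2) G + finrank (ZMod 2)
      (rad β G ⊓ cl l (G ⊓ LinearMap.ker p.1) : Submodule (ZMod 2) D)) *
      (Zs β s l G + (p.2 - 1) * Zs β s l (G ⊓ LinearMap.ker p.1))
    have hG := ih G hl'
    have hG1 := ih (G ⊓ LinearMap.ker p.1) hl'
    by_cases h0 : ∃ g ∈ G, p.1 g = 1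
    · obtain ⟨g, hg, hyg⟩ := h0
      have hdim := Sign_finrank_ker G p.1 hg hyg
      by_cases hi : ∃ r ∈ rad β G ⊓ cl l G, p.1 r = 1
      · obtain ⟨r, hr, hyr⟩ := hi
        rw [Sign_R hβ s l G p.1 r hr.1 hr.2 hyr]
        have h1 : rad β (G ⊓ LinearMap.ker p.1) ⊓ cl l (G ⊓ LinearMap.ker p.1) =
            rad β G ⊓ cl l (G ⊓ LinearMap.ker p.1) := by
          rw [Sign_rad_ker hβ hr.1 hyr, inf_assoc, inf_eq_right.mpr
            ((Sign_cl_le l (G ⊓ LinearMap.ker p.1)).trans inf_le_right)]
        rw [h1] at hG1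
        rw [hdim]
        have h2 : (-1 : ℝ) ^ (finrank (ZMod 2) (G ⊓ LinearMap.ker p.1 : Submodule (ZMod 2) D) + 1 +
            finrank (ZMod 2) (rad β G ⊓ cl l (G ⊓ LinearMap.ker p.1) : Submodule (ZMod 2) D)) *
            (s ^ 2 * Zs β s l (G ⊓ LinearMap.ker p.1) +
              (p.2 - 1) * Zs β s l (G ⊓ LinearMap.ker p.1)) =
            (1 - s ^ 2 - p.2) * ((-1 : ℝ) ^ (finrank (ZMod 2)
              (G ⊓ LinearMap.ker p.1 : Submodule (ZMod 2) D) + finrank (ZMod 2)
              (rad β G ⊓ cl l (G ⊓ LinearMap.ker p.1) : Submodule (ZMod 2) D)) *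
              Zs β s l (G ⊓ LinearMap.ker p.1)) := by
          rw [add_right_comm, pow_succ]
          ring
        rw [h2]
        exact mul_nonneg (by linarith [hp.2]) hG1
      · have hN : rad β G ⊓ cl l G = rad β G ⊓ cl l (G ⊓ LinearMap.ker p.1) := by
          rw [Sign_cl_inf, ← inf_assoc]
          symm
          rw [inf_eq_left]
          intro r hr
          rcases Sign_zmod2 (p.1 r) with h | h
          · exact h
          · exact absurd ⟨r, hr, h⟩ hi
        rw [hN] at hG
        by_cases hii : ∃ x ∈ cl l (G ⊓ LinearMap.ker p.1), ∀ a ∈ G, β a x = p.1 a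
        · obtain ⟨x, hx, hxy⟩ := hii
          have hx' := hx
          rw [Sign_cl_inf] at hx'
          rw [← Sign_Q hβ s l G p.1 x hx'.1 hx'.2 hxy]
          have h2 : ∀ c z : ℝ, c * (z + (p.2 - 1) * z) = p.2 * (c * z) := fun c z => by ring
          rw [h2]
          exact mul_nonneg hp.1 hG
        · have h1 : rad β (G ⊓ LinearMap.ker p.1) ⊓ cl l (G ⊓ LinearMap.ker p.1) =
              rad β G ⊓ cl l (G ⊓ LinearMap.ker p.1) := by
            apply le_antisymm
            · rintro x ⟨hx, hx'⟩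
              refine ⟨⟨hx.1.1, ?_⟩, hx'⟩
              by_contra hcon
              push Not at hcon
              obtain ⟨b, hb, hbx⟩ := hcon
              have hbx1 : β b x = 1 := (Sign_zmod2 _).resolve_left hbx
              have hyb : p.1 b = 1 := by
                rcases Sign_zmod2 (p.1 b) with h | h
                · exact absurd (hx.2 b ⟨hb, h⟩) hbx
                · exact h
              refine hii ⟨x, hx', ?_⟩
              intro a ha
              rcases Sign_zmod2 (p.1 a) with h | h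
              · rw [h]
                exact hx.2 a ⟨ha, h⟩
              · have h3 := hx.2 (a - b) ⟨G.sub_mem ha hb, by
                  rw [SetLike.mem_coe, LinearMap.mem_ker, map_sub, h, hyb, sub_self]⟩
                rw [map_sub, LinearMap.sub_apply, sub_eq_zero] at h3
                rw [h3, hbx1, h]
            · rintro x ⟨hx, hx'⟩
              have h3 := Sign_cl_le l (G ⊓ LinearMap.ker p.1) hx'
              exact ⟨⟨h3, fun a ha => hx.2 a ha.1⟩, hx'⟩
          rw [h1] at hG1
          rw [mul_add]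
          refine add_nonneg hG ?_
          rw [hdim]
          have h2 : (-1 : ℝ) ^ (finrank (ZMod 2) (G ⊓ LinearMap.ker p.1 : Submodule (ZMod 2) D) +
              1 + finrank (ZMod 2)
                (rad β G ⊓ cl l (G ⊓ LinearMap.ker p.1) : Submodule (ZMod 2) D)) *
              ((p.2 - 1) * Zs β s l (G ⊓ LinearMap.ker p.1)) =
              (1 - p.2) * ((-1 : ℝ) ^ (finrank (ZMod 2)
                (G ⊓ LinearMap.ker p.1 : Submodule (ZMod 2) D) + finrank (ZMod 2)
                (rad β G ⊓ cl l (G ⊓ LinearMap.ker p.1) : Submodule (ZMod 2) D)) *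
                Zs β s l (G ⊓ LinearMap.ker p.1)) := by
            rw [add_right_comm, pow_succ]
            ring
          rw [h2]
          exact mul_nonneg (by linarith [hp.2]) hG1
    · have h1 : G ⊓ LinearMap.ker p.1 = G := by
        rw [inf_eq_left]
        intro g hg
        rcases Sign_zmod2 (p.1 g) with h2 | h2
        · exact h2
        · exact absurd ⟨g, hg, h2⟩ h0
      rw [h1]
      have h2 : ∀ c z : ℝ, c * (z + (p.2 - 1) * z) = p.2 * (c * z) := fun c z => by ring
      rw [h2]
      exact mul_nonneg hp.1 hG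

end Pool.Agent.UNI
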