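import Pool.Agent.UNI.Alg

/-!
# UNI: Theorem C (module ThmC)
-/

set_option autoImplicit false

open Module

namespace Pool.Agent.UNI

section aux

variable {V : Type} [AddCommGroup V] [Module (ZMod 2) V] [Finite V]
variable {V₁ : Type} [AddCommGroup V₁] [Module (ZMod 2) V₁]

theorem ThmC_pm {π : V →ₗ[ZMod 2] V₁} {w : V → ℝ} {q : V₁}
    (h : ∀ v, π v = q → w v = 1 ∨ w v = -1) : pw π w q = 1 ∨ pw π w q = -1 := by
  rw [pw_apply]
  refine Finset.prod_induction w (fun a => a = 1 ∨ a = -1) ?_ (Or.inl rfl) ?_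
  · rintro a b (rfl | rfl) (rfl | rfl) <;> norm_num
  · intro v hv
    exact h v (mem_fib.mp hv)

theorem ThmC_congr {π : V →ₗ[ZMod 2] V₁} {w w' : V → ℝ} {q : V₁}
    (h : ∀ v, π v = q → w v = w' v) : pw π w q = pw π w' q := by
  rw [pw_apply, pw_apply]
  exact Finset.prod_congr rfl fun v hv => h v (mem_fib.mp hv)

theorem ThmC_inj {ι : V →ₗ[ZMod 2] V₁} (hι : Function.Injective ι) (w : V → ℝ) (v : V) :
    pw ι w (ι v) = w v := by
  rw [pw_apply]
  have h : fib ι (ι v) = {v} := by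
    ext u
    rw [mem_fib, Finset.mem_singleton]
    exact hι.eq_iff
  rw [h, Finset.prod_singleton]

theorem ThmC_out {ι : V →ₗ[ZMod 2] V₁} (w : V → ℝ) (q : V₁) (h : ∀ v, ι v ≠ q) :
    pw ι w q = 1 := by
  rw [pw_apply]
  refine Finset.prod_eq_one fun v hv => ?_
  exact absurd (mem_fib.mp hv) (h v)

/-- some class in a product which is not one -/
theorem ThmC_neg {V₂ : Type} [AddCommGroup V₂] [Module (ZMod 2) V₂] [Finite V₁]
    (π : V →ₗ[ZMod 2] V₁) (p : V₁ →ₗ[ZMod 2] V₂) (x : V → ℝ) (q : V₂)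
    (h : pw (p ∘ₗ π) x q = -1) (hx : ∀ v, p (π v) = q → x v = 1 ∨ x v = -1) :
    ∃ r, p r = q ∧ pw π x r = -1 := by
  classical
  by_contra hcon
  push Not at hcon
  have h1 : pw (p ∘ₗ π) x q = ∏ r ∈ fib p q, pw π x r := by
    rw [pw_apply]
    have h2 : ∀ v ∈ fib (p ∘ₗ π) q, π v ∈ fib p q := by
      intro v hv
      have h3 : (p ∘ₗ π) v = q := mem_fib.mp hv
      exact mem_fib.mpr h3
    rw [← Finset.prod_fiberwise_of_maps_to h2]
    refine Finset.prod_congr rfl fun r hr => ?_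
    rw [pw_apply]
    refine Finset.prod_congr ?_ fun _ _ => rfl
    ext v
    rw [Finset.mem_filter, mem_fib, mem_fib]
    constructor
    · exact fun h => h.2
    · intro h3
      refine ⟨?_, h3⟩
      rw [LinearMap.comp_apply, h3]
      exact mem_fib.mp hr
  rw [Finset.prod_eq_one] at h1
  · rw [h1] at h
    norm_num at h
  · intro r hr
    have hr' : p r = q := mem_fib.mp hr
    rcases ThmC_pm (π := π) (w := x) (q := r) (fun v hv => hx v (by rw [hv, hr'])) with h3 | h3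
    · exact h3
    · exact absurd h3 (hcon r hr')

omit [Finite V] in
theorem ThmC_coef {η : ℝ} {Φ : (Submodule (ZMod 2) V → ℝ) →ₗ[ℝ] ℝ} (h : Pos η Φ) :
    0 ≤ coef Φ ⊤ := by
  have h1 := h PUnit (0 : V →ₗ[ZMod 2] PUnit) (fun _ => ⟨0, Subsingleton.elim _ _⟩) (fun _ => 1)
    (fun v _ => Or.inl rfl) (Subsingleton.elim _ _)
  rw [push_apply] at h1
  have h2 : up (0 : V →ₗ[ZMod 2] PUnit) (rho fun _ => 1) = del ⊤ := by
    funext U
    by_cases hU : U = ⊤
    · subst hU
      rw [up_apply_of_le le_top]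
      simp [rho_apply, del]
    · rw [up_apply_of_not_le]
      · simp [del, hU]
      · rw [LinearMap.ker_zero]
        intro h3
        exact hU (top_le_iff.mp h3)
  rw [h2, LinearMap.ker_zero] at h1
  exact h1

theorem ThmC_coef_push (T : Submodule (ZMod 2) V) (Φ : (Submodule (ZMod 2) V → ℝ) →ₗ[ℝ] ℝ) :
    coef (push T.mkQ Φ) ⊤ = coef Φ ⊤ := by
  have : Module.Finite (ZMod 2) V := Module.Finite.of_finite
  unfold coef
  rw [push_apply, ← mul_assoc, ← pow_add, Submodule.ker_mkQ, finrank_top, finrank_top,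
    Submodule.finrank_quotient_add_finrank]
  congr 1
  congr 1
  funext U
  by_cases hU : U = ⊤
  · subst hU
    rw [up_apply_of_le le_top, Submodule.map_top, Submodule.range_mkQ]
    simp [del]
  · have h1 : del (V := V) ⊤ U = 0 := by simp [del, hU]
    rw [h1]
    by_cases h2 : LinearMap.ker T.mkQ ≤ U
    · rw [up_apply_of_le h2]
      have h3 : U.map T.mkQ ≠ ⊤ := by
        intro h4
        apply hU
        have h5 := congrArg (Submodule.comap T.mkQ) h4
        rw [Submodule.comap_map_eq, Submodule.comap_top, sup_eq_left.mpr h2] at h5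
        exact h5
      simp [del, h3]
    · exact up_apply_of_not_le h2 _

omit [Finite V] in
/-- the spanning condition on a subspace -/
theorem ThmC_span (T : Submodule (ZMod 2) V) (p : V → Prop)
    (h : Submodule.span (ZMod 2) {v | v ∈ T ∧ v ≠ 0 ∧ p v} = T) :
    Submodule.span (ZMod 2) {v : T | v ≠ 0 ∧ p v} = ⊤ := by
  apply Submodule.map_injective_of_injective T.injective_subtype
  rw [Submodule.map_span, Submodule.map_top, Submodule.range_subtype]
  refine Eq.trans ?_ h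
  congr 1
  ext v
  constructor
  · rintro ⟨u, ⟨hu0, hu⟩, rfl⟩
    refine ⟨u.2, ?_, hu⟩
    intro h0
    exact hu0 (Subtype.ext h0)
  · rintro ⟨hv, hv0, hp⟩
    refine ⟨⟨v, hv⟩, ⟨?_, hp⟩, rfl⟩
    intro h0
    exact hv0 (congrArg Subtype.val h0)

end aux

theorem ThmC_inner (h2 : St_Mixed) {η : ℝ} (hη0 : 0 ≤ η) (hη1 : η < 1)
    {V : Type} [AddCommGroup V] [Module (ZMod 2) V] [Finite V]
    (hpos : ∀ (V' : Type) [AddCommGroup V'] [Module (ZMod 2) V'] [Finite V']
        (Ψ : (Submodule (ZMod 2) V' → ℝ) →ₗ[ℝ] ℝ) (x : V' → ℝ),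
        finrank (ZMod 2) V' < finrank (ZMod 2) V → Pos η Ψ →
        (∀ v, v ≠ 0 → x v = 1 ∨ x v = -1) →
        Submodule.span (ZMod 2) {v | v ≠ 0 ∧ x v = -1} = ⊤ → 0 ≤ Ψ (rho x))
    (Φ : (Submodule (ZMod 2) V → ℝ) →ₗ[ℝ] ℝ) (hΦ : Pos η Φ) (x : V → ℝ)
    (hx : ∀ v, v ≠ 0 → x v = 1 ∨ x v = -1) (T : Submodule (ZMod 2) V) (hT : T ≠ ⊥)
    (hTq : Submodule.span (ZMod 2) {q | q ≠ 0 ∧ pw T.mkQ x q = -1} = ⊤)
    (w₁ : V → ℝ) (hw1 : ∀ v, v ∈ T → v ≠ 0 → w₁ v = 1) (hw2 : ∀ v, v ∉ T → w₁ v = x v)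
    (V₁ : Type) [AddCommGroup V₁] [Module (ZMod 2) V₁] [Finite V₁] (π : T →ₗ[ZMod 2] V₁)
    (hπ : Function.Surjective π) (w' : V₁ → ℝ)
    (hw' : ∀ v, v ≠ 0 → w' v = 1 ∨ (0 ≤ w' v ∧ w' v ≤ η))
    (hs' : Submodule.span (ZMod 2) {v | v ≠ 0 ∧ w' v ≤ η} = ⊤) (K : Submodule (ZMod 2) V)
    (hKT : K ≤ T) (hKker : Subsingleton V₁ → K = T) (ι : V₁ →ₗ[ZMod 2] V ⧸ K)
    (hι : Function.Injective ι) (hιπ : ∀ t : T, ι (π t) = K.mkQ t) :
    0 ≤ push K.mkQ Φ (rho fun q => pw K.mkQ w₁ q * pw ι w' q) := by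
  classical
  have : Module.Finite (ZMod 2) V := Module.Finite.of_finite
  have hw1pm : ∀ v, v ≠ 0 → w₁ v = 1 ∨ w₁ v = -1 := by
    intro v hv
    by_cases h : v ∈ T
    · exact Or.inl (hw1 v h hv)
    · rw [hw2 v h]
      exact hx v hv
  -- the weights
  have hpm : ∀ q : V ⧸ K, q ≠ 0 → pw K.mkQ w₁ q = 1 ∨ pw K.mkQ w₁ q = -1 := by
    intro q hq
    refine ThmC_pm fun v hv => hw1pm v ?_
    rintro rfl
    exact hq (by rw [← hv, map_zero])
  by_cases hsub : Subsingleton V₁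
  · have hKT' := hKker hsub
    have hout : ∀ q : V ⧸ K, q ≠ 0 → pw ι w' q = 1 := by
      intro q hq
      refine ThmC_out w' q fun v hv => hq ?_
      rw [← hv, Subsingleton.elim v 0, map_zero]
    refine hpos (V ⧸ K) (push K.mkQ Φ) _ ?_ (hΦ.push _ K.mkQ_surjective) ?_ ?_
    · have h3 := K.finrank_quotient_add_finrank
      have h4 : 1 ≤ finrank (ZMod 2) K := by
        rw [Submodule.one_le_finrank_iff, hKT']
        exact hT
      omega
    · intro q hq
      rw [hout q hq, mul_one]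
      exact hpm q hq
    · have h3 : Submodule.span (ZMod 2) {q | q ≠ 0 ∧ pw K.mkQ x q = -1} = ⊤ := by
        rw [hKT']
        exact hTq
      rw [← h3]
      congr 1
      ext q
      constructor
      · rintro ⟨hq, h4⟩
        rw [hout q hq, mul_one] at h4
        refine ⟨hq, ?_⟩
        rw [← h4]
        refine ThmC_congr fun v hv => (hw2 v fun hvT => hq ?_).symm
        rw [← hv]
        exact (Submodule.Quotient.mk_eq_zero K).mpr (hKT' ▸ hvT)
      · rintro ⟨hq, h4⟩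
        refine ⟨hq, ?_⟩
        show pw K.mkQ w₁ q * pw ι w' q = -1
        rw [hout q hq, mul_one, ← h4]
        refine ThmC_congr fun v hv => hw2 v fun hvT => hq ?_
        rw [← hv]
        exact (Submodule.Quotient.mk_eq_zero K).mpr (hKT' ▸ hvT)
  · -- small weights
    have hsmall : ∀ q, q ≠ 0 → w' q ≤ η → ι q ≠ 0 ∧ |pw K.mkQ w₁ (ι q) * pw ι w' (ι q)| ≤ η := by
      intro q hq hqη
      have h3 : ι q ≠ 0 := by
        intro h
        exact hq (hι (by rw [h, map_zero]))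
      refine ⟨h3, ?_⟩
      rw [ThmC_inj hι, abs_mul]
      have h4 : |pw K.mkQ w₁ (ι q)| = 1 := by
        rcases hpm _ h3 with h | h <;> rw [h] <;> norm_num
      rw [h4, one_mul]
      rcases hw' q hq with h | ⟨h, -⟩
      · rw [h] at hqη
        exact absurd hqη (not_le.mpr hη1)
      · rwa [abs_of_nonneg h]
    have hle : finrank (ZMod 2) (V ⧸ K) ≤ finrank (ZMod 2) V := by
      have h3 := K.finrank_quotient_add_finrank
      omega
    refine h2 η hη0 hη1 (V ⧸ K) ?_ (push K.mkQ Φ) (hΦ.push _ K.mkQ_surjective) _ ?_ ?_ ?_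
    · intro V' _ _ _ Ψ y hd hΨ hy hys
      exact hpos V' Ψ y (hd.trans_le hle) hΨ hy hys
    · intro q hq
      by_cases h3 : ∃ q1, ι q1 = q
      · obtain ⟨q1, rfl⟩ := h3
        have hq1 : q1 ≠ 0 := by
          rintro rfl
          exact hq (map_zero ι)
        rcases hw' q1 hq1 with h | ⟨-, h⟩
        · show pw K.mkQ w₁ (ι q1) * pw ι w' (ι q1) = 1 ∨
            pw K.mkQ w₁ (ι q1) * pw ι w' (ι q1) = -1 ∨ _
          rw [ThmC_inj hι, h, mul_one]
          rcases hpm _ hq with h4 | h4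
          · exact Or.inl h4
          · exact Or.inr (Or.inl h4)
        · exact Or.inr (Or.inr (hsmall q1 hq1 h).2)
      · push Not at h3
        show pw K.mkQ w₁ q * pw ι w' q = 1 ∨ pw K.mkQ w₁ q * pw ι w' q = -1 ∨ _
        rw [ThmC_out w' q h3, mul_one]
        rcases hpm _ hq with h4 | h4
        · exact Or.inl h4
        · exact Or.inr (Or.inl h4)
    · obtain ⟨W, hW⟩ : ∃ W, W = Submodule.span (ZMod 2) {q : V ⧸ K | q ≠ 0 ∧
          (pw K.mkQ w₁ q * pw ι w' q = -1 ∨ |pw K.mkQ w₁ q * pw ι w' q| ≤ η)} := ⟨_, rfl⟩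
      show Submodule.span (ZMod 2) {q : V ⧸ K | q ≠ 0 ∧
          (pw K.mkQ w₁ q * pw ι w' q = -1 ∨ |pw K.mkQ w₁ q * pw ι w' q| ≤ η)} = ⊤
      rw [← hW]
      have hWι : ∀ q1, ι q1 ∈ W := by
        intro q1
        have h3 : q1 ∈ Submodule.span (ZMod 2) {v | v ≠ 0 ∧ w' v ≤ η} := by
          rw [hs']
          trivial
        have h4 : Submodule.span (ZMod 2) {v | v ≠ 0 ∧ w' v ≤ η} ≤ W.comap ι := by
          rw [Submodule.span_le]
          rintro v ⟨hv, hv'⟩
          show ι v ∈ W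
          rw [hW]
          exact Submodule.subset_span ⟨(hsmall v hv hv').1, Or.inr (hsmall v hv hv').2⟩
        exact h4 h3
      let p : V ⧸ K →ₗ[ZMod 2] V ⧸ T := K.liftQ T.mkQ (by rw [Submodule.ker_mkQ]; exact hKT)
      have hp : ∀ v, p (K.mkQ v) = T.mkQ v := fun v => rfl
      have hpK : p ∘ₗ K.mkQ = T.mkQ := LinearMap.ext fun v => rfl
      have hWker : LinearMap.ker p ≤ W := by
        intro r hr
        obtain ⟨v, rfl⟩ := K.mkQ_surjective r
        rw [LinearMap.mem_ker, hp] at hr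
        have hvT : v ∈ T := (Submodule.Quotient.mk_eq_zero T).mp hr
        have h3 : K.mkQ v = ι (π ⟨v, hvT⟩) := (hιπ ⟨v, hvT⟩).symm
        rw [h3]
        exact hWι _
      have hWp : W.map p = ⊤ := by
        rw [eq_top_iff, ← hTq, Submodule.span_le]
        rintro q ⟨hq, hq'⟩
        have hvT : ∀ v, T.mkQ v = q → v ∉ T := by
          intro v hv hvT
          exact hq (by rw [← hv]; exact (Submodule.Quotient.mk_eq_zero T).mpr hvT)
        obtain ⟨r, hr, hr'⟩ := ThmC_neg K.mkQ p x q (by rw [hpK]; exact hq') (by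
          intro v hv
          refine hx v ?_
          rintro rfl
          exact hvT 0 hv T.zero_mem)
        refine ⟨r, ?_, hr⟩
        have hr0 : r ≠ 0 := by
          rintro rfl
          exact hq (by rw [← hr, map_zero])
        have h3 : pw ι w' r = 1 := by
          refine ThmC_out w' r fun q1 hq1 => ?_
          obtain ⟨u, rfl⟩ := hπ q1
          rw [hιπ u] at hq1
          refine hvT u ?_ u.2
          rw [← hp, hq1, hr]
        have h4 : pw K.mkQ w₁ r = -1 := by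
          rw [← hr']
          refine ThmC_congr fun v hv => hw2 v (hvT v ?_)
          rw [← hp, hv, hr]
        show r ∈ W
        rw [hW]
        refine Submodule.subset_span ⟨hr0, Or.inl ?_⟩
        rw [h3, h4, mul_one]
      rw [eq_top_iff]
      intro r _
      have h3 : p r ∈ W.map p := by
        rw [hWp]
        trivial
      obtain ⟨s, hs, hsr⟩ := h3
      have h4 : r - s ∈ W := hWker (by rw [LinearMap.mem_ker, map_sub, hsr, sub_self])
      have h5 := W.add_mem h4 hs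
      rwa [sub_add_cancel] at h5
    · have h3 : ∃ q1 : V₁, q1 ≠ 0 ∧ w' q1 ≤ η := by
        by_contra hcon
        push Not at hcon
        have h4 : {v : V₁ | v ≠ 0 ∧ w' v ≤ η} = ∅ := by
          rw [Set.eq_empty_iff_forall_notMem]
          rintro v ⟨hv, hv'⟩
          exact absurd hv' (not_le.mpr (hcon v hv))
        rw [h4, Submodule.span_empty] at hs'
        apply hsub
        refine ⟨fun a b => ?_⟩
        have h5 : a - b ∈ (⊥ : Submodule (ZMod 2) V₁) := by
          rw [hs']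
          trivial
        exact sub_eq_zero.mp ((Submodule.mem_bot _).mp h5)
      obtain ⟨q1, hq1, hq1'⟩ := h3
      exact ⟨ι q1, hsmall q1 hq1 hq1'⟩

theorem ThmC_claim (h2 : St_Mixed) (h5 : St_ResPush) {η : ℝ} (hη0 : 0 ≤ η) (hη1 : η < 1)
    {V : Type} [AddCommGroup V] [Module (ZMod 2) V] [Finite V]
    (hpos : ∀ (V' : Type) [AddCommGroup V'] [Module (ZMod 2) V'] [Finite V']
        (Ψ : (Submodule (ZMod 2) V' → ℝ) →ₗ[ℝ] ℝ) (x : V' → ℝ),
        finrank (ZMod 2) V' < finrank (ZMod 2) V → Pos η Ψ →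
        (∀ v, v ≠ 0 → x v = 1 ∨ x v = -1) →
        Submodule.span (ZMod 2) {v | v ≠ 0 ∧ x v = -1} = ⊤ → 0 ≤ Ψ (rho x))
    (Φ : (Submodule (ZMod 2) V → ℝ) →ₗ[ℝ] ℝ) (hΦ : Pos η Φ) (x : V → ℝ)
    (hx : ∀ v, v ≠ 0 → x v = 1 ∨ x v = -1) (T : Submodule (ZMod 2) V) (hT : T ≠ ⊥)
    (hTq : Submodule.span (ZMod 2) {q | q ≠ 0 ∧ pw T.mkQ x q = -1} = ⊤)
    (w₁ : V → ℝ) (hw1 : ∀ v, v ∈ T → v ≠ 0 → w₁ v = 1) (hw2 : ∀ v, v ∉ T → w₁ v = x v) :
    Pos η (res T (rho w₁) Φ) := by
  intro V₁ _ _ _ π hπ w' hw' hs'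
  obtain ⟨ι, hι, hιπ, hval⟩ := h5 V T Φ w₁ hw1 V₁ π hπ
  rw [hval w']
  refine ThmC_inner h2 hη0 hη1 hpos Φ hΦ x hx T hT hTq w₁ hw1 hw2 V₁ π hπ w' hw' hs' _ ?_ ?_ ι hι
    hιπ
  · rintro _ ⟨u, -, rfl⟩
    exact u.2
  · intro hsub
    have h3 : LinearMap.ker π = ⊤ := by
      rw [eq_top_iff]
      intro u _
      exact Subsingleton.elim _ _
    rw [h3, Submodule.map_top, Submodule.range_subtype]

theorem thm_ThmC (h1 : St_One) (h2 : St_Mixed) (h3 : St_ResEval) (h4 : St_ResTop)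
    (h5 : St_ResPush) (h6 : St_Comb) (h7 : St_Complete) : St_ThmC := by
  intro η t hη hη1 ht htη
  have hs1 : 1 ≤ Real.sqrt 2 := by
    rw [Real.one_le_sqrt]
    norm_num
  have hη0 : 0 ≤ η := by linarith
  suffices H : ∀ m : ℕ, ∀ (V : Type) [AddCommGroup V] [Module (ZMod 2) V] [Finite V]
      (Φ : (Submodule (ZMod 2) V → ℝ) →ₗ[ℝ] ℝ), finrank (ZMod 2) V = m → Pos η Φ → 0 < m →
      ∀ x : V → ℝ, (∀ v, v ≠ 0 → x v = 1 ∨ x v = -1) →
        Submodule.span (ZMod 2) {v | v ≠ 0 ∧ x v = -1} = ⊤ →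
        Real.sqrt 2 * t ^ m * coef Φ ⊤ ≤ Φ (rho x) by
    intro V _ _ _ Φ hΦ hm x hx hs
    exact H _ V Φ rfl hΦ hm x hx hs
  intro m
  induction m using Nat.strong_induction_on with
  | _ m IH =>
    intro V _ _ _ Φ hV hΦ hm x hx hs
    classical
    have : Module.Finite (ZMod 2) V := Module.Finite.of_finite
    have hpos : ∀ (V' : Type) [AddCommGroup V'] [Module (ZMod 2) V'] [Finite V']
        (Ψ : (Submodule (ZMod 2) V' → ℝ) →ₗ[ℝ] ℝ) (x : V' → ℝ),
        finrank (ZMod 2) V' < finrank (ZMod 2) V → Pos η Ψ →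
        (∀ v, v ≠ 0 → x v = 1 ∨ x v = -1) →
        Submodule.span (ZMod 2) {v | v ≠ 0 ∧ x v = -1} = ⊤ → 0 ≤ Ψ (rho x) := by
      intro V' _ _ _ Ψ y hd hΨ hy hys
      have : Module.Finite (ZMod 2) V' := Module.Finite.of_finite
      by_cases h0 : finrank (ZMod 2) V' = 0
      · have hsub : Subsingleton V' := Module.finrank_zero_iff.mp h0
        exact hΨ.self y (fun v hv => absurd (Subsingleton.elim v 0) hv) (Subsingleton.elim _ _)
      · refine le_trans ?_ (IH _ (by rw [← hV]; exact hd) V' Ψ rfl hΨ (Nat.pos_of_ne_zero h0) y hy hys)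
        exact mul_nonneg (mul_nonneg (Real.sqrt_nonneg _) (pow_nonneg ht _)) (ThmC_coef hΨ)
    rcases h6 V x (by rw [hV]; exact hm) hx hs with hall | ⟨T, hTb, hTt, hTs, hTq⟩
    · have h8 : Φ (rho x) = Φ (rho fun _ => -1) := by
        congr 1
        funext U
        exact rho_congr fun v _ hv => hall v hv
      rw [h8, ← hV]
      exact h7 η t hη hη1 ht htη V Φ hΦ (by rw [hV]; exact hm)
    · obtain ⟨w₁, hw₁⟩ : ∃ w₁ : V → ℝ, w₁ = fun v => if v ∈ T then 1 else x v := ⟨_, rfl⟩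
      have hw1 : ∀ v, v ∈ T → v ≠ 0 → w₁ v = 1 := by
        intro v hv _
        rw [hw₁]
        exact if_pos hv
      have hw2 : ∀ v, v ∉ T → w₁ v = x v := by
        intro v hv
        rw [hw₁]
        exact if_neg hv
      have hΨ := ThmC_claim h2 h5 hη0 hη1 hpos Φ hΦ x hx T hTb hTq w₁ hw1 hw2
      have hdT : 1 ≤ finrank (ZMod 2) T := Submodule.one_le_finrank_iff.mpr hTb
      have hdq : 1 ≤ finrank (ZMod 2) (V ⧸ T) := by
        by_contra hcon
        have h8 := T.finrank_quotient_add_finrank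
        exact hTt (Submodule.eq_top_of_finrank_eq (by omega))
      have hsum := T.finrank_quotient_add_finrank
      rw [hV] at hsum
      -- the subspace
      have e1 := IH (finrank (ZMod 2) T) (by omega) T (res T (rho w₁) Φ) rfl hΨ (by omega)
        (fun v => x v) (fun v hv => hx v fun h => hv (Subtype.ext h)) (ThmC_span T _ hTs)
      -- the quotient
      have hcong : ∀ q : V ⧸ T, q ≠ 0 → pw T.mkQ w₁ q = pw T.mkQ x q := by
        intro q hq
        refine ThmC_congr fun v hv => hw2 v fun hvT => hq ?_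
        rw [← hv]
        exact (Submodule.Quotient.mk_eq_zero T).mpr hvT
      have e2 := IH (finrank (ZMod 2) (V ⧸ T)) (by omega) (V ⧸ T) (push T.mkQ Φ) rfl
        (hΦ.push _ T.mkQ_surjective) (by omega) (pw T.mkQ w₁) (by
          intro q hq
          rw [hcong q hq]
          refine ThmC_pm fun v hv => hx v ?_
          rintro rfl
          exact hq (by rw [← hv, map_zero])) (by
          rw [← hTq]
          congr 1
          ext q
          constructor
          · rintro ⟨hq, h8⟩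
            exact ⟨hq, by rw [← hcong q hq]; exact h8⟩
          · rintro ⟨hq, h8⟩
            exact ⟨hq, by rw [hcong q hq]; exact h8⟩)
      rw [← h4 V T Φ w₁ hw1, ThmC_coef_push] at e2
      rw [h3 V T Φ x w₁ hw1 hw2]
      refine le_trans ?_ e1
      have hc := ThmC_coef hΦ
      have ht1 : 0 ≤ Real.sqrt 2 * t ^ finrank (ZMod 2) T :=
        mul_nonneg (Real.sqrt_nonneg _) (pow_nonneg ht _)
      refine le_trans ?_ (mul_le_mul_of_nonneg_left e2 ht1)
      have h8 : Real.sqrt 2 * t ^ finrank (ZMod 2) T *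
          (Real.sqrt 2 * t ^ finrank (ZMod 2) (V ⧸ T) * coef Φ ⊤) =
          Real.sqrt 2 * (Real.sqrt 2 * t ^ m * coef Φ ⊤) := by
        rw [← hsum, pow_add]
        ring
      rw [h8]
      have h9 : 0 ≤ Real.sqrt 2 * t ^ m * coef Φ ⊤ :=
        mul_nonneg (mul_nonneg (Real.sqrt_nonneg _) (pow_nonneg ht _)) hc
      exact le_mul_of_one_le_left h9 hs1

end Pool.Agent.UNI
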