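import Pool.Agent.UNI.Step
import Pool.Agent.UNI.Complete
import Pool.Agent.UNI.Comb
import Pool.Agent.UNI.Res
import Pool.Agent.UNI.Mixed
import Pool.Agent.UNI.ThmC
import Pool.Agent.UNI.Sign
import Pool.Agent.UNI.Link
import Pool.Agent.UNI.Final

/-!
# UNI: the algebraic theorem
-/

set_option autoImplicit false

namespace Pool.Agent.UNI

/-- **Theorem C**, all modules put together -/
theorem thm_C : St_ThmC :=
  thm_ThmC thm_One (thm_Mixed thm_One thm_ResEval thm_ResPush) thm_ResEval thm_ResTop thm_ResPush
    thm_Comb (thm_Complete thm_Step)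

/-- **The algebraic theorem** -/
theorem thm_UA : St_UA := thm_UA_of thm_C thm_Exist (thm_FormPos thm_Sign)

end Pool.Agent.UNI
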