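import Pool.Agent.UNI.Alg

/-!
# UNI: the step formula and weights with many small vectors
-/

set_option autoImplicit false

open Module

namespace Pool.Agent.UNI

section Step

variable {V : Type} [AddCommGroup V] [Module (ZMod 2) V]

theorem step_zmod (c : ZMod 2) : c = 0 ∨ c = 1 := by
  revert c; decide

theorem step_two (v : V) : v + v = 0 := by
  have h : (1 + 1 : ZMod 2) • v = v + v := by rw [add_smul, one_smul]
  rw [← h]
  have h2 : (1 + 1 : ZMod 2) = 0 := by decide
  rw [h2, zero_smul]

theorem step_neg (v : V) : -v = v := by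
  rw [neg_eq_iff_add_eq_zero]; exact step_two v

theorem step_mem_span {u v : V} : u ∈ Submodule.span (ZMod 2) {v} ↔ u = 0 ∨ u = v := by
  rw [Submodule.mem_span_singleton]
  constructor
  · rintro ⟨c, rfl⟩
    rcases step_zmod c with rfl | rfl
    · left; rw [zero_smul]
    · right; rw [one_smul]
  · rintro (rfl | rfl)
    · exact ⟨0, zero_smul _ _⟩
    · exact ⟨1, one_smul _ _⟩

theorem step_mkQ_eq {u u' v : V} : (Submodule.span (ZMod 2) {v}).mkQ u =
    (Submodule.span (ZMod 2) {v}).mkQ u' ↔ u = u' ∨ u = u' + v := by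
  rw [Submodule.mkQ_apply, Submodule.mkQ_apply, Submodule.Quotient.eq, step_mem_span, sub_eq_zero,
    sub_eq_iff_eq_add, add_comm v u']

theorem step_mkQ_zero {u v : V} : (Submodule.span (ZMod 2) {v}).mkQ u = 0 ↔ u = 0 ∨ u = v := by
  rw [← map_zero (Submodule.span (ZMod 2) {v}).mkQ, step_mkQ_eq, zero_add]

theorem thm_Step : St_Step := by
  intro V _ _ _ Φ v w w' hv h
  classical
  have hker : LinearMap.ker (Submodule.span (ZMod 2) {v}).mkQ = Submodule.span (ZMod 2) {v} :=
    Submodule.ker_mkQ _
  have hfin : finrank (ZMod 2) (LinearMap.ker (Submodule.span (ZMod 2) {v}).mkQ) = 1 := by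
    rw [hker]; exact finrank_span_singleton hv
  have key : rho w = rho w' + (w v - w' v) •
      up (Submodule.span (ZMod 2) {v}).mkQ (rho (pw (Submodule.span (ZMod 2) {v}).mkQ w)) := by
    funext U
    simp only [Pi.add_apply, Pi.smul_apply, smul_eq_mul]
    by_cases hU : v ∈ U
    · have hle : LinearMap.ker (Submodule.span (ZMod 2) {v}).mkQ ≤ U := by
        rw [hker, Submodule.span_singleton_le_iff_mem]; exact hU
      rw [up_apply_of_le hle]
      set w₁ : V → ℝ := fun u => if u = v then 1 else w u with hw₁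
      have h1 : rho (pw (Submodule.span (ZMod 2) {v}).mkQ w)
          (U.map (Submodule.span (ZMod 2) {v}).mkQ) = rho w₁ U := by
        have h11 : rho (pw (Submodule.span (ZMod 2) {v}).mkQ w)
            (U.map (Submodule.span (ZMod 2) {v}).mkQ) =
            rho (pw (Submodule.span (ZMod 2) {v}).mkQ w₁)
            (U.map (Submodule.span (ZMod 2) {v}).mkQ) := by
          refine rho_congr (fun q _ hq => Finset.prod_congr rfl (fun u hu => ?_))
          have hu' := mem_fib.mp hu
          have huv : u ≠ v := by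
            rintro rfl
            exact hq (by rw [← hu']; exact step_mkQ_zero.mpr (Or.inr rfl))
          simp [hw₁, huv]
        rw [h11, rho_pw _ w₁ ?_, Submodule.comap_map_eq, sup_eq_left.mpr hle]
        intro u hu hu0
        rcases step_mkQ_zero.mp hu with rfl | rfl
        · exact absurd rfl hu0
        · simp [hw₁]
      rw [h1]
      have hvn : v ∈ nz U := mem_nz.mpr ⟨hU, hv⟩
      have e1 : rho w U = w v * ∏ u ∈ (nz U).erase v, w u := (Finset.mul_prod_erase _ _ hvn).symm
      have e2 : rho w' U = w' v * ∏ u ∈ (nz U).erase v, w u := by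
        rw [rho_apply, ← Finset.mul_prod_erase _ _ hvn]
        congr 1
        exact Finset.prod_congr rfl (fun u hu => (h u (Finset.mem_erase.mp hu).1).symm)
      have e3 : rho w₁ U = ∏ u ∈ (nz U).erase v, w u := by
        rw [rho_apply, ← Finset.mul_prod_erase _ _ hvn]
        have e4 : w₁ v = 1 := by simp [hw₁]
        rw [e4, one_mul]
        refine Finset.prod_congr rfl (fun u hu => ?_)
        have e5 := (Finset.mem_erase.mp hu).1
        simp [hw₁, e5]
      rw [e1, e2, e3]
      ring
    · have hle : ¬ LinearMap.ker (Submodule.span (ZMod 2) {v}).mkQ ≤ U := by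
        rw [hker, Submodule.span_singleton_le_iff_mem]; exact hU
      rw [up_apply_of_not_le hle, mul_zero, add_zero]
      refine rho_congr (fun u hu _ => h u ?_)
      rintro rfl
      exact hU hu
  rw [push_apply, hfin, key, map_add, map_smul, smul_eq_mul]
  ring

end Step

section One

variable {V : Type} [AddCommGroup V] [Module (ZMod 2) V]

/-- the admissible weights are closed under products -/
theorem one_mul_cases {η a b : ℝ} (hη : 0 ≤ η) (hη1 : η < 1) (ha : a = 1 ∨ a = -1 ∨ |a| ≤ η)
    (hb : b = 1 ∨ b = -1 ∨ |b| ≤ η) : a * b = 1 ∨ a * b = -1 ∨ |a * b| ≤ η := by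
  rcases ha with rfl | rfl | ha
  · rwa [one_mul]
  · rcases hb with rfl | rfl | hb
    · right; left; norm_num
    · left; norm_num
    · right; right; rw [neg_one_mul, abs_neg]; exact hb
  · right; right
    have hb1 : |b| ≤ 1 := by
      rcases hb with rfl | rfl | hb
      · norm_num
      · norm_num
      · linarith
    rw [abs_mul]
    calc |a| * |b| ≤ η * 1 := mul_le_mul ha hb1 (abs_nonneg b) hη
      _ = η := mul_one η

theorem one_prod_cases {ι : Type} {η : ℝ} (hη : 0 ≤ η) (hη1 : η < 1) (s : Finset ι) (f : ι → ℝ)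
    (h : ∀ i ∈ s, f i = 1 ∨ f i = -1 ∨ |f i| ≤ η) :
    ∏ i ∈ s, f i = 1 ∨ ∏ i ∈ s, f i = -1 ∨ |∏ i ∈ s, f i| ≤ η := by
  classical
  induction s using Finset.induction_on with
  | empty => left; simp
  | insert a s ha ih =>
    rw [Finset.prod_insert ha]
    exact one_mul_cases hη hη1 (h a (Finset.mem_insert_self a s))
      (ih fun i hi => h i (Finset.mem_insert_of_mem hi))

theorem one_abs_le {η a : ℝ} (hη1 : η < 1) (ha : a = 1 ∨ a = -1 ∨ |a| ≤ η) : |a| ≤ 1 := by
  rcases ha with rfl | rfl | ha
  · norm_num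
  · norm_num
  · linarith

theorem one_prod_small {ι : Type} {η : ℝ} (hη : 0 ≤ η) (hη1 : η < 1) (s : Finset ι) (f : ι → ℝ)
    (h : ∀ i ∈ s, f i = 1 ∨ f i = -1 ∨ |f i| ≤ η) {a : ι} (ha : a ∈ s) (haη : |f a| ≤ η) :
    |∏ i ∈ s, f i| ≤ η := by
  classical
  rw [← Finset.mul_prod_erase _ _ ha, abs_mul]
  have h1 : |∏ i ∈ s.erase a, f i| ≤ 1 :=
    one_abs_le hη1 (one_prod_cases hη hη1 _ _ fun i hi => h i (Finset.mem_of_mem_erase hi))
  calc |f a| * |∏ i ∈ s.erase a, f i| ≤ η * 1 := mul_le_mul haη h1 (abs_nonneg _) hη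
    _ = η := mul_one η

/-- the nonzero vectors of negative weight -/
noncomputable def negs [Finite V] (w : V → ℝ) : Finset V :=
  (Set.toFinite {v : V | v ≠ 0 ∧ w v < 0}).toFinset

omit [Module (ZMod 2) V] in
theorem mem_negs [Finite V] {w : V → ℝ} {v : V} : v ∈ negs w ↔ v ≠ 0 ∧ w v < 0 := by
  simp [negs]

theorem one_neg_of_prod {ι : Type} (s : Finset ι) (f : ι → ℝ) (h : ∏ i ∈ s, f i < 0) :
    ∃ i ∈ s, f i < 0 := by
  by_contra hc
  simp only [not_exists, not_and, not_lt] at hc
  exact absurd (Finset.prod_nonneg hc) (not_le.mpr h)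

theorem one_aux {η : ℝ} (hη : 0 ≤ η) (hη1 : η < 1) (N : ℕ) :
    ∀ (V : Type) [AddCommGroup V] [Module (ZMod 2) V] [Finite V]
      (Φ : (Submodule (ZMod 2) V → ℝ) →ₗ[ℝ] ℝ), Pos η Φ →
      ∀ w : V → ℝ, (negs w).card = N → (∀ v, v ≠ 0 → w v = 1 ∨ w v = -1 ∨ |w v| ≤ η) →
        Submodule.span (ZMod 2) {v | v ≠ 0 ∧ |w v| ≤ η} = ⊤ → 0 ≤ Φ (rho w) := by
  induction N using Nat.strong_induction_on with
  | _ N ih =>
  intro V _ _ _ Φ hΦ w hN hw hs
  classical
  by_cases h0 : ∃ v, v ≠ 0 ∧ w v < 0
  · obtain ⟨v, hv, hwv⟩ := h0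
    set w' : V → ℝ := fun u => if u = v then 0 else w u with hw'
    have hoff : ∀ u, u ≠ v → w u = w' u := by
      intro u hu
      simp [hw', hu]
    have hw'v : w' v = 0 := by simp [hw']
    have hvN : v ∈ negs w := mem_negs.mpr ⟨hv, hwv⟩
    rw [thm_Step V Φ v w w' hv hoff, hw'v, zero_sub]
    have h1 : 0 ≤ Φ (rho w') := by
      refine ih (negs w').card ?_ V Φ hΦ w' rfl ?_ ?_
      · rw [← hN]
        apply Finset.card_lt_card
        refine Finset.ssubset_iff_subset_ne.mpr ⟨?_, ?_⟩
        · intro u hu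
          have hu' := mem_negs.mp hu
          by_cases huv : u = v
          · rw [huv]; exact hvN
          · rw [← hoff u huv] at hu'
            exact mem_negs.mpr hu'
        · intro he
          rw [← he] at hvN
          have := (mem_negs.mp hvN).2
          rw [hw'v] at this
          exact lt_irrefl _ this
      · intro u hu
        by_cases huv : u = v
        · right; right
          rw [huv, hw'v, abs_zero]; exact hη
        · rw [← hoff u huv]; exact hw u hu
      · rw [eq_top_iff, ← hs]
        apply Submodule.span_mono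
        rintro u ⟨hu, hu'⟩
        refine ⟨hu, ?_⟩
        by_cases huv : u = v
        · rw [huv, hw'v, abs_zero]; exact hη
        · rw [← hoff u huv]; exact hu'
    have hfib : ∀ q : V ⧸ Submodule.span (ZMod 2) {v}, q ≠ 0 →
        ∀ u ∈ fib (Submodule.span (ZMod 2) {v}).mkQ q, u ≠ 0 ∧ u ≠ v := by
      intro q hq u hu
      have hu' := mem_fib.mp hu
      constructor
      · rintro rfl
        exact hq (by rw [← hu', map_zero])
      · rintro rfl
        exact hq (by rw [← hu']; exact step_mkQ_zero.mpr (Or.inr rfl))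
    have h2 : 0 ≤ push (Submodule.span (ZMod 2) {v}).mkQ Φ
        (rho (pw (Submodule.span (ZMod 2) {v}).mkQ w)) := by
      refine ih (negs (pw (Submodule.span (ZMod 2) {v}).mkQ w)).card ?_ _ _
        (hΦ.push _ (Submodule.mkQ_surjective _)) _ rfl ?_ ?_
      · -- the number of negative classes
        rw [← hN]
        have hsub : (negs (pw (Submodule.span (ZMod 2) {v}).mkQ w)) ⊆
            ((negs w).erase v).image (Submodule.span (ZMod 2) {v}).mkQ := by
          intro q hq
          have hq' := mem_negs.mp hq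
          obtain ⟨u, hu, hu'⟩ := one_neg_of_prod _ _ hq'.2
          have h3 := hfib q hq'.1 u hu
          exact Finset.mem_image.mpr ⟨u, Finset.mem_erase.mpr ⟨h3.2, mem_negs.mpr ⟨h3.1, hu'⟩⟩,
            mem_fib.mp hu⟩
        calc (negs (pw (Submodule.span (ZMod 2) {v}).mkQ w)).card
            ≤ (((negs w).erase v).image (Submodule.span (ZMod 2) {v}).mkQ).card :=
              Finset.card_le_card hsub
          _ ≤ ((negs w).erase v).card := Finset.card_image_le
          _ < (negs w).card := Finset.card_erase_lt_of_mem hvN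
      · intro q hq
        exact one_prod_cases hη hη1 _ _ fun u hu => hw u (hfib q hq u hu).1
      · have hmap : Submodule.map (Submodule.span (ZMod 2) {v}).mkQ
            (Submodule.span (ZMod 2) {v | v ≠ 0 ∧ |w v| ≤ η}) = ⊤ := by
          rw [hs, Submodule.map_top, Submodule.range_mkQ]
        rw [eq_top_iff, ← hmap, Submodule.map_span, Submodule.span_le]
        rintro _ ⟨u, ⟨hu, hu'⟩, rfl⟩
        by_cases hq : (Submodule.span (ZMod 2) {v}).mkQ u = 0
        · rw [hq]; exact Submodule.zero_mem _
        · apply Submodule.subset_span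
          refine ⟨hq, ?_⟩
          exact one_prod_small hη hη1 _ _
            (fun u' hu' => hw u' (hfib _ hq u' hu').1) (mem_fib.mpr rfl) hu'
    have h3 : 0 ≤ -w v := by linarith
    exact add_nonneg h1 (mul_nonneg h3 h2)
  · simp only [not_exists, not_and, not_lt] at h0
    refine hΦ.self w ?_ ?_
    · intro v hv
      rcases hw v hv with h | h | h
      · left; exact h
      · have := h0 v hv
        rw [h] at this
        norm_num at this
      · right
        exact ⟨h0 v hv, (le_abs_self _).trans h⟩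
    · rw [eq_top_iff, ← hs]
      apply Submodule.span_mono
      rintro v ⟨hv, hv'⟩
      exact ⟨hv, (le_abs_self _).trans hv'⟩

theorem thm_One : St_One := by
  intro η hη hη1 V _ _ _ Φ hΦ w hw hs
  exact one_aux hη hη1 _ V Φ hΦ w rfl hw hs

end One

end Pool.Agent.UNI
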